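import Pool.Agent.TH849.SC.Tab

/-! Gluing of 3 ends and 3 ends along 1 of them: tables. -/

set_option autoImplicit false
set_option maxRecDepth 100000

namespace Pool.Agent.TH849.SC

/-- The triples of classes with their symmetries. -/
def en331 : List (ℕ × List ℕ) :=
  [(0, [25771900929, 34362097665, 25773998082, 34364194818]),
   (1, [25772425729, 34362622465, 25774522882, 34364719618]),
   (2, [1049600, 25771115520, 34367341571, 60137407491]),
   (3, [1574400, 25771640320, 34367866371, 38663357955, 60137932291, 64433423875])]

/-- The types of the sets of the first piece. -/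
def al331 : List (ℕ × ℕ) :=
  [(0, 0x7),
   (1024, 0x38),
   (3, 0x40),
   (5, 0x180)]

/-- The sets of the union, for each pair of types. -/
def bl331 : List (ℕ × List (ℕ × List (ℕ × List ℕ))) :=
  [(0, [(0, [(0, [0])]), (0, [(2, [0])]), (0, [(7, [0])]), (1, [])]),
   (1024, [(0, [(2, [0])]), (1, []), (1, []), (1, [])]),
   (3, [(1, []), (1, []), (1, []), (0, [(5, [2])])]),
   (6, [(0, [(7, [16])]), (1, []), (0, [(8, [0])]), (1, [])])]

end Pool.Agent.TH849.SC
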