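import Pool.Agent.TH849.SC.Sound
import Pool.Agent.TH849.SC.D331

/-! Verified tables: gluing of 3 ends and 3 ends along 1 of them. -/

set_option autoImplicit false
set_option maxRecDepth 100000

namespace Pool.Agent.TH849.SC

theorem c331_0 : chkA en331 3 3 1 9 al331 bl331 0 3 = true := by decide +kernel

theorem tab331 : TabOK 3 3 1 := by
  refine tab_of 3 3 1 9 en331 al331 bl331 (by decide +kernel) (by decide +kernel)
    (by decide +kernel) (by decide +kernel) (by decide +kernel) (fun i hi => ?_)
  have h : i < 3 := hi
  exact chkA_sound c331_0 i (by omega) (by omega)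

end Pool.Agent.TH849.SC
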