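import Pool.Agent.TH849.SC.Tab

/-! Gluing of 3 ends and 3 ends along 3 of them: tables. -/

set_option autoImplicit false
set_option maxRecDepth 100000

namespace Pool.Agent.TH849.SC

/-- The triples of classes with their symmetries. -/
def en333 : List (ℕ × List ℕ) :=
  [(0, [0]),
   (1, [513]),
   (2, [1026]),
   (3, [1539])]

/-- The types of the sets of the first piece. -/
def al333 : List (ℕ × ℕ) :=
  [(0, 0x1),
   (1024, 0x2),
   (3, 0x4)]

/-- The sets of the union, for each pair of types. -/
def bl333 : List (ℕ × List (ℕ × List (ℕ × List ℕ))) :=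
  [(0, [(0, [(0, [0])]), (0, [(1, [0])]), (1, [])]),
   (1024, [(0, [(1, [0])]), (1, []), (1, [])]),
   (3, [(1, []), (1, []), (0, [(1, [0])])]),
   (5, [(1, []), (1, []), (1, [])]),
   (6, [(1, []), (1, []), (1, [])])]

end Pool.Agent.TH849.SC
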