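import Pool.Agent.TH849.SC.Tab

/-! Gluing of 4 ends and 3 ends along 1 of them: tables. -/

set_option autoImplicit false
set_option maxRecDepth 100000

namespace Pool.Agent.TH849.SC

/-- The triples of classes with their symmetries. -/
def en431 : List (ℕ × List ℕ) :=
  [(0, [0, 25770328065, 34360524801, 25773211652, 34363408388, 4456453, 8594653189, 17563658, 8607760394, 
  51559792651, 60149989387, 68740186123, 51565821966, 60156018702, 68746215438, 28835855, 17208967183, 
  35913746, 8626110482, 51578142739, 60168339475, 68758536211, 51584172054, 68764303382, 25815416855, 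
  34405613591, 42995810327, 49807384, 8640004120, 51590463513, 68770594841, 51595706397, 60185903133, 
  68776099869, 25827475486, 34417672222, 43007868958]),
   (1, [262656, 25770852865, 34361049601, 25773736452, 34363933188, 4981253, 8595177989, 18088458, 
  8608285194, 51560579595, 60150776331, 68740973067, 51566608910, 60156805646, 68747002382, 29360655, 
  17209491983, 36438546, 8626635282, 51578929683, 60169126419, 68759323155, 51584696854, 68764828182, 
  25816203799, 34406400535, 42996597271, 50332184, 8640528920, 51590988313, 68771119641, 51596493341, 
  60186690077, 68776886813, 25828262430, 34418459166, 43008655902]),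
   (2, [1573890, 25771639810, 34362360835, 34368652294, 60138718214, 8600421383, 51550356487, 13108232, 
  25783174152, 34375730185, 60145796105, 34382545932, 8613528589, 51563463693, 31458320, 25801524240, 
  34394080273, 60164146193, 34400896020, 60170961940, 42730517, 51905562, 8642364443, 51592299547, 
  68773479452, 8650753055, 51600688159, 62391328, 25832457248, 68787635233, 94557701153, 43019404322, 
  85969339426, 68792878115, 43023598628, 85973533732, 75498533]),
   (3, [2098690, 25772164610, 34362623491, 38657852931, 34369177094, 38664668678, 60139243014, 64434734598, 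
  8600946183, 12896175623, 51551143431, 55846372871, 13633032, 25783698952, 34376254985, 38671746569, 
  60146320905, 64441812489, 34382808588, 38678038028, 8614053389, 12909282829, 51564250637, 55859480077, 
  31983120, 25802049040, 34394605073, 38690096657, 60164670993, 64460162577, 34401420820, 38696912404, 
  60171486740, 64466978324, 42993173, 4338222613, 52168218, 8642889243, 12938118683, 51593086491, 
  55888315931, 68773742108, 8651277855, 12946507295, 51601475103, 55896704543, 62916128, 4358145568, 
  25833244192, 30128473632, 68788160033, 73083651617, 94558225953, 98853717537, 43019929122, 47315420706, 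
  85969864226, 90265355810, 68793140771, 43024123428, 47319615012, 85974058532, 90269550116, 75761189])]

/-- The types of the sets of the first piece. -/
def al431 : List (ℕ × ℕ) :=
  [(0, 0xf),
   (1024, 0xffff0),
   (3, 0x33300000),
   (9, 0xccc00000),
   (111, 0x3300000000),
   (207, 0xcc00000000)]

/-- The sets of the union, for each pair of types. -/
def bl431 : List (ℕ × List (ℕ × List (ℕ × List ℕ))) :=
  [(0, [(0, [(0, [0, 30])]), (0, [(3, [0, 24, 30]), (8, [0, 30]), (9, [0, 48]), (14, [16, 22, 76])]), 
  (0, [(20, [0, 24]), (28, [0]), (29, [0])]), (1, []), (1, []), (1, [])]),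
   (1024, [(0, [(8, [16, 90])]), (1, []), (1, []), (1, []), (1, []), (1, [])]),
   (3, [(1, []), (1, []), (1, []), (0, [(15, [10, 20]), (17, [40]), (20, [40])]), (0, [(31, [0]), (32, 
  [0])]), (0, [(31, [48]), (32, [48])])]),
   (6, [(0, [(29, [64, 94])]), (1, []), (0, [(32, [64, 88]), (33, [4])]), (1, []), (1, []), (1, [])])]

end Pool.Agent.TH849.SC
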