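import Pool.Agent.TH849.SC.Tab

/-! Gluing of 4 ends and 3 ends along 2 of them: tables. -/

set_option autoImplicit false
set_option maxRecDepth 100000

namespace Pool.Agent.TH849.SC

/-- The triples of classes with their symmetries. -/
def en432 : List (ℕ × List ℕ) :=
  [(0, [4, 25769803781, 34360524829, 60130328606]),
   (1, [262664, 60129804809, 524816, 60130066961]),
   (2, [263178, 60129805323, 525330, 60130067475]),
   (3, [51539609094, 60129543687, 787999, 8590722592, 90195101217, 98785035810])]

/-- The types of the sets of the first piece. -/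
def al432 : List (ℕ × ℕ) :=
  [(0, 0x3f),
   (1024, 0x3fffffc0),
   (3, 0x41040000000),
   (5, 0x79e780000000),
   (12, 0x820800000000),
   (111, 0x861000000000000),
   (175, 0x79e000000000000)]

/-- The sets of the union, for each pair of types. -/
def bl432 : List (ℕ × List (ℕ × List (ℕ × List ℕ))) :=
  [(0, [(0, [(0, [0])]), (0, [(1, [0])]), (0, [(2, [0])]), (1, []), (1, []), (1, []), (1, [])]),
   (1024, [(0, [(1, [0])]), (1, []), (1, []), (1, []), (1, []), (1, []), (1, [])]),
   (3, [(1, []), (1, []), (1, []), (1, []), (0, [(1, [0])]), (1, []), (0, [(2, [0])])]),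
   (5, [(1, []), (1, []), (1, []), (0, [(2, [1])]), (1, []), (1, []), (1, [])]),
   (6, [(1, []), (1, []), (1, []), (1, []), (1, []), (1, []), (1, [])])]

end Pool.Agent.TH849.SC
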