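import Pool.Agent.TH849.SC.Tab

/-! Gluing of 4 ends and 4 ends along 4 of them: tables. -/

set_option autoImplicit false
set_option maxRecDepth 100000

namespace Pool.Agent.TH849.SC

/-- The triples of classes with their symmetries. -/
def en444 : List (ℕ × List ℕ) :=
  [(0, [0]),
   (1, [513]),
   (2, [1026]),
   (3, [1539]),
   (4, [2052]),
   (5, [2565]),
   (6, [3078]),
   (7, [3591]),
   (8, [4104]),
   (9, [4617]),
   (10, [5130]),
   (11, [5643]),
   (12, [6156]),
   (13, [6669]),
   (14, [7182]),
   (15, [7695]),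
   (16, [8208]),
   (17, [8721]),
   (18, [9234]),
   (19, [9747]),
   (20, [10260]),
   (21, [10773]),
   (22, [11286]),
   (23, [11799]),
   (24, [12312]),
   (25, [12825]),
   (26, [13338]),
   (27, [13851]),
   (28, [14364]),
   (29, [14877]),
   (30, [15390]),
   (31, [15903]),
   (32, [16416]),
   (33, [16929]),
   (34, [17442]),
   (35, [17955]),
   (36, [18468]),
   (37, [18981])]

/-- The types of the sets of the first piece. -/
def al444 : List (ℕ × ℕ) :=
  [(0, 0x1),
   (1024, 0x1e),
   (3, 0xe0),
   (111, 0x300)]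

/-- The sets of the union, for each pair of types. -/
def bl444 : List (ℕ × List (ℕ × List (ℕ × List ℕ))) :=
  [(0, [(0, [(0, [0])]), (0, [(1, [0])]), (1, []), (1, [])]),
   (1024, [(0, [(1, [0])]), (1, []), (1, []), (1, [])]),
   (3, [(1, []), (1, []), (0, [(1, [0])]), (1, [])]),
   (5, [(1, []), (1, []), (1, []), (1, [])]),
   (9, [(1, []), (1, []), (1, []), (1, [])]),
   (6, [(1, []), (1, []), (1, []), (1, [])]),
   (10, [(1, []), (1, []), (1, []), (1, [])]),
   (12, [(1, []), (1, []), (1, []), (1, [])]),
   (111, [(1, []), (1, []), (1, []), (1, [])]),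
   (175, [(1, []), (1, []), (1, []), (0, [(1, [0])])]),
   (207, [(1, []), (1, []), (1, []), (0, [(1, [0])])])]

end Pool.Agent.TH849.SC
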