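import Pool.Agent.TH849.SC.Sound
import Pool.Agent.TH849.SC.D532

/-! Verified tables: gluing of 5 ends and 3 ends along 2 of them. -/

set_option autoImplicit false
set_option maxRecDepth 100000

namespace Pool.Agent.TH849.SC

theorem c532_0 : chkA en532 5 3 2 360 al532 bl532 0 3 = true := by decide +kernel

theorem tab532 : TabOK 5 3 2 := by
  refine tab_of 5 3 2 360 en532 al532 bl532 (by decide +kernel) (by decide +kernel)
    (by decide +kernel) (by decide +kernel) (by decide +kernel) (fun i hi => ?_)
  have h : i < 3 := hi
  exact chkA_sound c532_0 i (by omega) (by omega)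

end Pool.Agent.TH849.SC
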