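import Pool.Agent.TH849.SC.Sound
import Pool.Agent.TH849.SC.D542

/-! Verified tables: gluing of 5 ends and 4 ends along 2 of them. -/

set_option autoImplicit false
set_option maxRecDepth 100000

namespace Pool.Agent.TH849.SC

theorem c542_0 : chkA en542 5 4 2 360 al542 bl542 0 10 = true := by decide +kernel

theorem tab542 : TabOK 5 4 2 := by
  refine tab_of 5 4 2 360 en542 al542 bl542 (by decide +kernel) (by decide +kernel)
    (by decide +kernel) (by decide +kernel) (by decide +kernel) (fun i hi => ?_)
  have h : i < 10 := hi
  exact chkA_sound c542_0 i (by omega) (by omega)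

end Pool.Agent.TH849.SC
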