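import Pool.Agent.TH849.SC.Sound
import Pool.Agent.TH849.SC.D553

/-! Verified tables: gluing of 5 ends and 5 ends along 3 of them. -/

set_option autoImplicit false
set_option maxRecDepth 100000

namespace Pool.Agent.TH849.SC

theorem c553_0 : chkA en553 5 5 3 360 al553 bl553 0 4 = true := by decide +kernel

theorem c553_1 : chkA en553 5 5 3 360 al553 bl553 4 4 = true := by decide +kernel

theorem c553_2 : chkA en553 5 5 3 360 al553 bl553 8 4 = true := by decide +kernel

theorem c553_3 : chkA en553 5 5 3 360 al553 bl553 12 4 = true := by decide +kernel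

theorem c553_4 : chkA en553 5 5 3 360 al553 bl553 16 4 = true := by decide +kernel

theorem c553_5 : chkA en553 5 5 3 360 al553 bl553 20 4 = true := by decide +kernel

theorem c553_6 : chkA en553 5 5 3 360 al553 bl553 24 4 = true := by decide +kernel

theorem c553_7 : chkA en553 5 5 3 360 al553 bl553 28 4 = true := by decide +kernel

theorem c553_8 : chkA en553 5 5 3 360 al553 bl553 32 4 = true := by decide +kernel

theorem tab553 : TabOK 5 5 3 := by
  refine tab_of 5 5 3 360 en553 al553 bl553 (by decide +kernel) (by decide +kernel)
    (by decide +kernel) (by decide +kernel) (by decide +kernel) (fun i hi => ?_)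
  have h : i < 36 := hi
  by_cases h0 : i < 4
  · exact chkA_sound c553_0 i (by omega) (by omega)
  by_cases h1 : i < 8
  · exact chkA_sound c553_1 i (by omega) (by omega)
  by_cases h2 : i < 12
  · exact chkA_sound c553_2 i (by omega) (by omega)
  by_cases h3 : i < 16
  · exact chkA_sound c553_3 i (by omega) (by omega)
  by_cases h4 : i < 20
  · exact chkA_sound c553_4 i (by omega) (by omega)
  by_cases h5 : i < 24
  · exact chkA_sound c553_5 i (by omega) (by omega)
  by_cases h6 : i < 28
  · exact chkA_sound c553_6 i (by omega) (by omega)
  by_cases h7 : i < 32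
  · exact chkA_sound c553_7 i (by omega) (by omega)
  exact chkA_sound c553_8 i (by omega) (by omega)

end Pool.Agent.TH849.SC
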