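import Pool.Agent.TH849.SC.Tab

/-! Gluing of 5 ends and 5 ends along 5 of them: tables. -/

set_option autoImplicit false
set_option maxRecDepth 100000

namespace Pool.Agent.TH849.SC

/-- The triples of classes with their symmetries. -/
def en555 : List (ℕ × List ℕ) :=
  [(0, [0]),
   (1, [513]),
   (2, [1026]),
   (3, [1539]),
   (4, [2052]),
   (5, [2565]),
   (6, [3078]),
   (7, [3591]),
   (8, [4104]),
   (9, [4617]),
   (10, [5130]),
   (11, [5643]),
   (12, [6156]),
   (13, [6669]),
   (14, [7182]),
   (15, [7695]),
   (16, [8208]),
   (17, [8721]),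
   (18, [9234]),
   (19, [9747]),
   (20, [10260]),
   (21, [10773]),
   (22, [11286]),
   (23, [11799]),
   (24, [12312]),
   (25, [12825]),
   (26, [13338]),
   (27, [13851]),
   (28, [14364]),
   (29, [14877]),
   (30, [15390]),
   (31, [15903]),
   (32, [16416]),
   (33, [16929]),
   (34, [17442]),
   (35, [17955]),
   (36, [18468]),
   (37, [18981]),
   (38, [19494]),
   (39, [20007]),
   (40, [20520]),
   (41, [21033]),
   (42, [21546]),
   (43, [22059]),
   (44, [22572]),
   (45, [23085]),
   (46, [23598]),
   (47, [24111]),
   (48, [24624]),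
   (49, [25137]),
   (50, [25650]),
   (51, [26163]),
   (52, [26676]),
   (53, [27189]),
   (54, [27702]),
   (55, [28215]),
   (56, [28728]),
   (57, [29241]),
   (58, [29754]),
   (59, [30267]),
   (60, [30780]),
   (61, [31293]),
   (62, [31806]),
   (63, [32319]),
   (64, [32832]),
   (65, [33345]),
   (66, [33858]),
   (67, [34371]),
   (68, [34884]),
   (69, [35397]),
   (70, [35910]),
   (71, [36423]),
   (72, [36936]),
   (73, [37449]),
   (74, [37962]),
   (75, [38475]),
   (76, [38988]),
   (77, [39501]),
   (78, [40014]),
   (79, [40527]),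
   (80, [41040]),
   (81, [41553]),
   (82, [42066]),
   (83, [42579]),
   (84, [43092]),
   (85, [43605]),
   (86, [44118]),
   (87, [44631]),
   (88, [45144]),
   (89, [45657]),
   (90, [46170]),
   (91, [46683]),
   (92, [47196]),
   (93, [47709]),
   (94, [48222]),
   (95, [48735]),
   (96, [49248]),
   (97, [49761]),
   (98, [50274]),
   (99, [50787]),
   (100, [51300]),
   (101, [51813]),
   (102, [52326]),
   (103, [52839]),
   (104, [53352]),
   (105, [53865]),
   (106, [54378]),
   (107, [54891]),
   (108, [55404]),
   (109, [55917]),
   (110, [56430]),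
   (111, [56943]),
   (112, [57456]),
   (113, [57969]),
   (114, [58482]),
   (115, [58995]),
   (116, [59508]),
   (117, [60021]),
   (118, [60534]),
   (119, [61047]),
   (120, [61560]),
   (121, [62073]),
   (122, [62586]),
   (123, [63099]),
   (124, [63612]),
   (125, [64125]),
   (126, [64638]),
   (127, [65151]),
   (128, [65664]),
   (129, [66177]),
   (130, [66690]),
   (131, [67203]),
   (132, [67716]),
   (133, [68229]),
   (134, [68742]),
   (135, [69255]),
   (136, [69768]),
   (137, [70281]),
   (138, [70794]),
   (139, [71307]),
   (140, [71820]),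
   (141, [72333]),
   (142, [72846]),
   (143, [73359]),
   (144, [73872]),
   (145, [74385]),
   (146, [74898]),
   (147, [75411]),
   (148, [75924]),
   (149, [76437]),
   (150, [76950]),
   (151, [77463]),
   (152, [77976]),
   (153, [78489]),
   (154, [79002]),
   (155, [79515]),
   (156, [80028]),
   (157, [80541]),
   (158, [81054]),
   (159, [81567]),
   (160, [82080]),
   (161, [82593]),
   (162, [83106]),
   (163, [83619]),
   (164, [84132]),
   (165, [84645]),
   (166, [85158]),
   (167, [85671]),
   (168, [86184]),
   (169, [86697]),
   (170, [87210]),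
   (171, [87723]),
   (172, [88236]),
   (173, [88749]),
   (174, [89262]),
   (175, [89775]),
   (176, [90288]),
   (177, [90801]),
   (178, [91314]),
   (179, [91827]),
   (180, [92340]),
   (181, [92853]),
   (182, [93366]),
   (183, [93879]),
   (184, [94392]),
   (185, [94905]),
   (186, [95418]),
   (187, [95931]),
   (188, [96444]),
   (189, [96957]),
   (190, [97470]),
   (191, [97983]),
   (192, [98496]),
   (193, [99009]),
   (194, [99522]),
   (195, [100035]),
   (196, [100548]),
   (197, [101061]),
   (198, [101574]),
   (199, [102087]),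
   (200, [102600]),
   (201, [103113]),
   (202, [103626]),
   (203, [104139]),
   (204, [104652]),
   (205, [105165]),
   (206, [105678]),
   (207, [106191]),
   (208, [106704]),
   (209, [107217]),
   (210, [107730]),
   (211, [108243]),
   (212, [108756]),
   (213, [109269]),
   (214, [109782]),
   (215, [110295]),
   (216, [110808]),
   (217, [111321]),
   (218, [111834]),
   (219, [112347]),
   (220, [112860]),
   (221, [113373]),
   (222, [113886]),
   (223, [114399]),
   (224, [114912]),
   (225, [115425]),
   (226, [115938]),
   (227, [116451]),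
   (228, [116964]),
   (229, [117477]),
   (230, [117990]),
   (231, [118503]),
   (232, [119016]),
   (233, [119529]),
   (234, [120042]),
   (235, [120555]),
   (236, [121068]),
   (237, [121581]),
   (238, [122094]),
   (239, [122607]),
   (240, [123120]),
   (241, [123633]),
   (242, [124146]),
   (243, [124659]),
   (244, [125172]),
   (245, [125685]),
   (246, [126198]),
   (247, [126711]),
   (248, [127224]),
   (249, [127737]),
   (250, [128250]),
   (251, [128763]),
   (252, [129276]),
   (253, [129789]),
   (254, [130302]),
   (255, [130815]),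
   (256, [131328]),
   (257, [131841]),
   (258, [132354]),
   (259, [132867]),
   (260, [133380]),
   (261, [133893]),
   (262, [134406]),
   (263, [134919]),
   (264, [135432]),
   (265, [135945]),
   (266, [136458]),
   (267, [136971]),
   (268, [137484]),
   (269, [137997]),
   (270, [138510]),
   (271, [139023]),
   (272, [139536]),
   (273, [140049]),
   (274, [140562]),
   (275, [141075]),
   (276, [141588]),
   (277, [142101]),
   (278, [142614]),
   (279, [143127]),
   (280, [143640]),
   (281, [144153]),
   (282, [144666]),
   (283, [145179]),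
   (284, [145692]),
   (285, [146205]),
   (286, [146718]),
   (287, [147231]),
   (288, [147744]),
   (289, [148257])]

/-- The types of the sets of the first piece. -/
def al555 : List (ℕ × ℕ) :=
  [(0, 0x3),
   (1024, 0x7ffc),
   (3, 0x7fff8000),
   (111, 0xf80000000)]

/-- The sets of the union, for each pair of types. -/
def bl555 : List (ℕ × List (ℕ × List (ℕ × List ℕ))) :=
  [(0, [(0, [(0, [0])]), (0, [(1, [0])]), (1, []), (1, [])]),
   (1024, [(0, [(1, [0])]), (1, []), (1, []), (1, [])]),
   (3, [(1, []), (1, []), (0, [(1, [0])]), (1, [])]),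
   (5, [(1, []), (1, []), (1, []), (1, [])]),
   (9, [(1, []), (1, []), (1, []), (1, [])]),
   (17, [(1, []), (1, []), (1, []), (1, [])]),
   (6, [(1, []), (1, []), (1, []), (1, [])]),
   (10, [(1, []), (1, []), (1, []), (1, [])]),
   (18, [(1, []), (1, []), (1, []), (1, [])]),
   (12, [(1, []), (1, []), (1, []), (1, [])]),
   (20, [(1, []), (1, []), (1, []), (1, [])]),
   (24, [(1, []), (1, []), (1, []), (1, [])]),
   (111, [(1, []), (1, []), (1, []), (1, [])]),
   (119, [(1, []), (1, []), (1, []), (1, [])]),
   (123, [(1, []), (1, []), (1, []), (1, [])]),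
   (175, [(1, []), (1, []), (1, []), (0, [(1, [0])])]),
   (183, [(1, []), (1, []), (1, []), (1, [])]),
   (207, [(1, []), (1, []), (1, []), (0, [(1, [0])])]),
   (215, [(1, []), (1, []), (1, []), (1, [])]),
   (315, [(1, []), (1, []), (1, []), (1, [])]),
   (347, [(1, []), (1, []), (1, []), (1, [])]),
   (189, [(1, []), (1, []), (1, []), (1, [])]),
   (317, [(1, []), (1, []), (1, []), (1, [])]),
   (413, [(1, []), (1, []), (1, []), (1, [])]),
   (222, [(1, []), (1, []), (1, []), (1, [])]),
   (350, [(1, []), (1, []), (1, []), (1, [])]),
   (414, [(1, []), (1, []), (1, []), (1, [])])]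

end Pool.Agent.TH849.SC
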