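import Pool.Agent.TH849.SC.Sound
import Pool.Agent.TH849.SC.D555

/-! Verified tables: gluing of 5 ends and 5 ends along 5 of them. -/

set_option autoImplicit false
set_option maxRecDepth 100000

namespace Pool.Agent.TH849.SC

theorem c555_0 : chkA en555 5 5 5 36 al555 bl555 0 4 = true := by decide +kernel

theorem c555_1 : chkA en555 5 5 5 36 al555 bl555 4 4 = true := by decide +kernel

theorem c555_2 : chkA en555 5 5 5 36 al555 bl555 8 4 = true := by decide +kernel

theorem c555_3 : chkA en555 5 5 5 36 al555 bl555 12 4 = true := by decide +kernel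

theorem c555_4 : chkA en555 5 5 5 36 al555 bl555 16 4 = true := by decide +kernel

theorem c555_5 : chkA en555 5 5 5 36 al555 bl555 20 4 = true := by decide +kernel

theorem c555_6 : chkA en555 5 5 5 36 al555 bl555 24 4 = true := by decide +kernel

theorem c555_7 : chkA en555 5 5 5 36 al555 bl555 28 4 = true := by decide +kernel

theorem c555_8 : chkA en555 5 5 5 36 al555 bl555 32 4 = true := by decide +kernel

theorem tab555 : TabOK 5 5 5 := by
  refine tab_of 5 5 5 36 en555 al555 bl555 (by decide +kernel) (by decide +kernel)
    (by decide +kernel) (by decide +kernel) (by decide +kernel) (fun i hi => ?_)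
  have h : i < 36 := hi
  by_cases h0 : i < 4
  · exact chkA_sound c555_0 i (by omega) (by omega)
  by_cases h1 : i < 8
  · exact chkA_sound c555_1 i (by omega) (by omega)
  by_cases h2 : i < 12
  · exact chkA_sound c555_2 i (by omega) (by omega)
  by_cases h3 : i < 16
  · exact chkA_sound c555_3 i (by omega) (by omega)
  by_cases h4 : i < 20
  · exact chkA_sound c555_4 i (by omega) (by omega)
  by_cases h5 : i < 24
  · exact chkA_sound c555_5 i (by omega) (by omega)
  by_cases h6 : i < 28
  · exact chkA_sound c555_6 i (by omega) (by omega)
  by_cases h7 : i < 32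
  · exact chkA_sound c555_7 i (by omega) (by omega)
  exact chkA_sound c555_8 i (by omega) (by omega)

end Pool.Agent.TH849.SC
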