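import Pool.Agent.TH849.SC.Tab

/-! The checker for the gluings. -/

set_option autoImplicit false

namespace Pool.Agent.TH849.SC

/-- Evaluate the argument first. -/
noncomputable def frc (n : ℕ) (f : ℕ → Bool) : Bool := Nat.rec (f 0) (fun m _ => f (Nat.succ m)) n

/-- Evaluate the argument first. -/
noncomputable def frN (n : ℕ) (f : ℕ → ℕ) : ℕ := Nat.rec (f 0) (fun m _ => f (Nat.succ m)) n

/-- `f` holds for all entries. -/
noncomputable def allN {α : Type} (l : List α) (f : α → Bool) : Bool :=
  List.rec true (fun h _ ih => cond (f h) ih false) l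

/-- `f` holds for one entry. -/
noncomputable def anyN {α : Type} (l : List α) (f : α → Bool) : Bool :=
  List.rec false (fun h _ ih => cond (f h) true ih) l

/-- `f` holds for all `i < n`. -/
noncomputable def allR (n : ℕ) (f : ℕ → Bool) : Bool := Nat.rec true (fun i ih => cond (f i) ih false) n

/-- `f` holds for some `i < n`. -/
noncomputable def anyR (n : ℕ) (f : ℕ → Bool) : Bool := Nat.rec false (fun i ih => cond (f i) true ih) n

/-- Conjunction. -/
def an (a b : Bool) : Bool := cond a b false

/-- Disjunction. -/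
def oo (a b : Bool) : Bool := cond a true b

/-- Negation. -/
def nn (a : Bool) : Bool := cond a false true

/-- Equality. -/
def eqB (a b : Bool) : Bool := cond a b (nn b)

/-- Union of the masks `f r`. -/
noncomputable def orN {α : Type} (l : List α) (f : α → ℕ) : ℕ :=
  List.rec 0 (fun h _ ih => Nat.lor ih (f h)) l

/-- The sets of the first piece from which all classes of the list `l` are obtained; the classes are
permuted by the row `A`. -/
noncomputable def andA (R NG FU A : ℕ) (l : List ℕ) : ℕ :=
  List.rec FU (fun r _ ih => Nat.land ih (frN (lk A r) (fun r' => Nat.shiftRight R (Nat.mul NG r')))) l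

/-- Entry number `i` of a list. -/
noncomputable def nthL (L : List (ℕ × List ℕ)) (i : ℕ) : ℕ × List ℕ :=
  List.rec (fun _ => (0, [])) (fun h _ ih i => Nat.rec h (fun j _ => ih j) i) L i

/-- The sets of the first piece from which one of the sets of `T` is obtained. -/
noncomputable def orT (R NG FU k : ℕ) (T : List (ℕ × List ℕ)) : ℕ :=
  orN T (fun x => orN x.2 (fun σ => frN (rowA k σ) (fun A => andA R NG FU A (nthL (Fl k) x.1).2)))

/-- The masks of the classes contained in the sets of the first piece: class `r` and set number `g`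
give the bit `NG * r + g`. -/
noncomputable def colF (a NG : ℕ) (L : List ((ℕ × List ℕ) × ℕ)) : ℕ → ℕ :=
  List.rec (fun _ => 0) (fun h _ ih g => Nat.lor (ih (Nat.succ g)) (frN (rowA a h.2) (fun A =>
    orN h.1.2 (fun r => Nat.shiftLeft 1 (Nat.add (Nat.mul NG (lk A r)) g))))) L

/-- The sets of the first piece. -/
def ml (a c : ℕ) : List ((ℕ × List ℕ) × ℕ) := (Fl a).flatMap (fun l => (pa a c).map (fun π => (l, π)))

/-- The sets of the first piece from which a class of the union is obtained with the class `r` of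
the second piece. -/
noncomputable def rwP (en : List (ℕ × List ℕ)) (co NG FU r : ℕ) : ℕ :=
  orN (plk en r) (fun e => Nat.shiftLeft (row co NG FU (Nat.mod e 512))
    (Nat.mul NG (Nat.mod (Nat.div e 262144) 512)))

/-- The conditions for one entry. -/
noncomputable def okE (a b c r2 e : ℕ) : Bool :=
  frc (Nat.mod e 512) (fun r1 =>
  frc (Nat.mod (Nat.div e 262144) 512) (fun r3 => frc (Nat.mod (Nat.div e 134217728) 32) (fun p =>
  frc (Nat.div e 4294967296) (fun q => frc (rp a r1) (fun S1 => frc (rp b r2) (fun S2 =>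
  frc (rp (a + b - 2 * c) r3) (fun S3 =>
  an (Nat.ble (Nat.succ p) 24)
  (an (Nat.ble (Nat.succ q) 24) (an
    (allR c (fun i => Nat.beq (pt p (dig S1 (Nat.add (a - c) i))) (pt q (dig S2 i)))) (an
    (allR (a - c) (fun i => Nat.beq (pt p (dig S1 i)) (dig S3 i)))
    (allR (b - c) (fun i => Nat.beq (pt q (dig S2 (Nat.add c i))) (dig S3 (Nat.add (a - c) i))))))
    ))))))))

/-- The masks that belong to a type. -/
def rm (ty j : ℕ) : ℕ := Nat.rec 0 (fun j _ => Nat.rec (Nat.mod ty 32) (fun j _ => Nat.rec (t2 ty)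
  (fun _ _ => Nat.xor (Nat.mod ty 32) (t2 ty)) j) j) j

/-- The masks agree on the glued ends. -/
noncomputable def agr (a c m1 m2 : ℕ) : Bool :=
  allR c (fun i => eqB (tb m1 (Nat.add (a - c) i)) (tb m2 i))

/-- The masks are zero on the other ends. -/
noncomputable def oz (a b c m1 m2 : ℕ) : Bool :=
  an (allR (a - c) (fun i => nn (tb m1 i))) (allR (b - c) (fun i => nn (tb m2 (Nat.add c i))))

/-- The masks give the mask `m3` on the other ends. -/
noncomputable def oe (a b c m1 m2 m3 : ℕ) : Bool :=
  an (allR (a - c) (fun i => eqB (tb m1 i) (tb m3 i)))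
    (allR (b - c) (fun i => eqB (tb m2 (Nat.add c i)) (tb m3 (Nat.add (a - c) i))))

/-- The circuit meets a piece of this type. -/
noncomputable def nz (a ty : ℕ) : Bool := oo (Nat.beq ty 1024) (anyR a (fun i => tb ty i))

/-- The types cannot occur together. -/
noncomputable def bad (a b c α β : ℕ) : Bool :=
  oo (nn (agr a c α β)) (oo (an (Nat.beq α 1024) (nn (Nat.beq β 0)))
  (oo (an (Nat.beq β 1024) (nn (Nat.beq α 0)))
  (anyR 4 (fun j1 => frc (rm α j1) (fun m1 => anyR 4 (fun j2 => frc (rm β j2) (fun m2 =>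
    an (agr a c m1 m2) (an (oz a b c m1 m2) (an (anyR a (fun i => tb m1 i))
    (oo (anyR a (fun i => an (tb α i) (nn (tb m1 i))))
      (anyR b (fun i => an (tb β i) (nn (tb m2 i)))))))))))))) 

/-- The union of pieces of the types `α` and `β` has the type `γ`. -/
noncomputable def glu (a b c α β γ : ℕ) : Bool :=
  an (oe a b c α β γ)
  (an (anyR 4 (fun j1 => frc (rm α j1) (fun m1 => anyR 4 (fun j2 => frc (rm β j2) (fun m2 =>
    an (agr a c m1 m2) (oe a b c m1 m2 (t2 γ)))))))
  (an (oo (nn (Nat.beq γ 0)) (an (Nat.beq α 0) (Nat.beq β 0)))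
  (oo (nn (Nat.beq γ 1024)) (an (oz a b c α β) (oo (nz a α) (nz b β))))))

/-- The length of a list. -/
noncomputable def ln {α : Type} (L : List α) : ℕ := List.rec 0 (fun _ _ ih => Nat.succ ih) L

/-- The types of the sets of `T` are right. -/
noncomputable def okTT (a b c α β : ℕ) (T : List (ℕ × List ℕ)) : Bool :=
  allN T (fun x => an (Nat.ble (Nat.succ x.1) (ln (Fl (a + b - 2 * c)))) (allN x.2 (fun σ =>
    an (Nat.ble (Nat.succ σ) (fc (a + b - 2 * c)))
      (frc (nthL (Fl (a + b - 2 * c)) x.1).1 (fun t => frc (actT (a + b - 2 * c) σ t) (fun γ =>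
        glu a b c α β γ))))))

/-- The types of the sets of the first piece. -/
noncomputable def okAL (a : ℕ) (AL : List (ℕ × ℕ)) (L : List ((ℕ × List ℕ) × ℕ)) : ℕ → Bool :=
  List.rec (fun _ => true) (fun h _ ih g => cond (frc h.1.1 (fun t => frc (actT a h.2 t) (fun ty =>
    anyN AL (fun x => an (Nat.beq x.1 ty) (tb x.2 g))))) (ih (Nat.succ g)) false) L

/-- Table lookup. -/
noncomputable def lku {α : Type} (BL : List (ℕ × List α)) (β : ℕ) : List α :=
  List.rec [] (fun h _ ih => cond (Nat.beq h.1 β) h.2 ih) BL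

/-- Conjunction over two lists of the same length. -/
noncomputable def zp {α β : Type} (f : α → β → Bool) (A : List α) : List β → Bool :=
  List.rec (fun B => List.rec true (fun _ _ _ => false) B)
    (fun h _ ih B => List.rec false (fun x B' _ => cond (f h x) (ih B') false) B) A

/-- The check of the types. -/
noncomputable def okBL (a b c : ℕ) (AL : List (ℕ × ℕ)) (BL : List (ℕ × List (ℕ × List (ℕ × List ℕ)))) :
    Bool :=
  allN BL (fun e => zp (fun y x => cond (Nat.beq x.1 1) (bad a b c y.1 e.1)
    (okTT a b c y.1 e.1 x.2)) AL e.2)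

/-- The check for the set `l` of the second piece, permuted by the row `A`. -/
noncomputable def chk (en : List (ℕ × List ℕ)) (co NG FU k3 A : ℕ) (AL : List (ℕ × ℕ))
    (rs : List (ℕ × List (ℕ × List ℕ))) (l : List ℕ) : Bool :=
  frc (orN l (fun r => frN (lk A r) (fun r' => Nat.lor 0 (rwP en co NG FU r')))) (fun R =>
    zp (fun y x => oo (Nat.beq x.1 1) (Nat.beq (Nat.land (orT R NG FU k3 x.2) y.2) y.2)) AL rs)

/-- The check of the gluings with the set number `i` of the second piece. -/
noncomputable def chkI (en : List (ℕ × List ℕ)) (b c k3 NG FU : ℕ) (AL : List (ℕ × ℕ))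
    (BL : List (ℕ × List (ℕ × List (ℕ × List ℕ)))) (co i : ℕ) : Bool :=
  frc (nthL (Fl b) i).1 (fun t => allN (pb b c) (fun ρ => frc (actT b ρ t) (fun β =>
    frc (rowA b ρ) (fun A => chk en co NG FU k3 A AL (lku BL β) (nthL (Fl b) i).2))))

/-- The check of the gluings with `n` sets of the second piece. -/
noncomputable def chkA (en : List (ℕ × List ℕ)) (a b c NG : ℕ) (AL : List (ℕ × ℕ))
    (BL : List (ℕ × List (ℕ × List (ℕ × List ℕ)))) (lo n : ℕ) : Bool :=
  frc (Nat.sub (Nat.pow 2 NG) 1) (fun FU => frc (colF a NG (ml a c) 0) (fun co =>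
    allR n (fun j => chkI en b c (a + b - 2 * c) NG FU AL BL co (Nat.add lo j))))

end Pool.Agent.TH849.SC
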