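import Mathlib

/-!
Carvings and circuits of multigraphs. A multigraph is given by the map `ends` that sends an edge to
its two ends.
-/

set_option autoImplicit false

namespace Pool.Agent.TH849.SC

/-- Binary trees with leaves labelled by `V`. -/
inductive Tr (V : Type) : Type
  | leaf (v : V) : Tr V
  | node (l r : Tr V) : Tr V

/-- The labels of the leaves. -/
def Tr.set {V : Type} : Tr V → Set V
  | .leaf v => {v}
  | .node l r => l.set ∪ r.set

/-- The labels of different leaves are different. -/
def Tr.Nodup {V : Type} : Tr V → Prop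
  | .leaf _ => True
  | .node l r => Disjoint l.set r.set ∧ l.Nodup ∧ r.Nodup

/-- The edges with one end in `Z` and the other end outside `Z`. -/
def bdry {V E : Type} (ends : E → Sym2 V) (Z : Set V) : Set E :=
  {e | ∃ u v : V, ends e = s(u, v) ∧ u ∈ Z ∧ v ∉ Z}

/-- For each subtree (and each leaf) at most `w` edges leave the set of its leaves. -/
def Tr.CarvWidth {V E : Type} (ends : E → Sym2 V) (w : ℕ) : Tr V → Prop
  | .leaf v => (bdry ends {v}).ncard ≤ w
  | .node l r => (bdry ends (l.set ∪ r.set)).ncard ≤ w ∧ l.CarvWidth ends w ∧ r.CarvWidth ends w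

/-- `S` has an even number of edges at each vertex. -/
def EvenSet {V E : Type} [DecidableEq V] [DecidableEq E] (ends : E → Sym2 V) (S : Finset E) : Prop :=
  ∀ v : V, Even ((S.filter (fun f : E => v ∈ ends f)).card)

/-- `S` is a circuit: a minimal nonempty even set. -/
def Circ {V E : Type} [DecidableEq V] [DecidableEq E] (ends : E → Sym2 V) (S : Finset E) : Prop :=
  S.Nonempty ∧ EvenSet ends S ∧ ∀ T : Finset E, T ⊆ S → T.Nonempty → EvenSet ends T → T = S

end Pool.Agent.TH849.SC
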