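import Mathlib
import Pool.Agent.TH849.SC.Tree
import Pool.Agent.TH849.SC.Tab

/-!
Definitions: cuts and parities in a finite multigraph given by two end maps, colourings of the edges
by pairs of classes, the strands of a circuit inside a piece, carvings, classes of pieces.
The framework (carvings, pieces, reduction of small cuts) follows `Pool.Agent.TH505.OW`.
-/

set_option autoImplicit false

open Finset

namespace Pool.Agent.TH849.SC

open Classical in
/-- The edges with exactly one end in `Z`. -/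
noncomputable def cut {V E : Type} [Fintype E] (s t : E → V) (Z : Set V) : Finset E :=
  univ.filter (fun e => ¬ (s e ∈ Z ↔ t e ∈ Z))

open Classical in
/-- The sum of `x` over the ends of edges at `v`. -/
noncomputable def bd {V E : Type} [Fintype E] (s t : E → V) (x : E → ZMod 2) (v : V) : ZMod 2 :=
  ∑ e, x e * ((if s e = v then 1 else 0) + (if t e = v then 1 else 0))

/-- Does the colour `c` contain the class `i`? -/
def co (c i : ℕ) : ZMod 2 := cond (tb c i) 1 0

open Classical in
/-- The indicator of a set of edges. -/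
noncomputable def ic {E : Type} (Q : Set E) (e : E) : ZMod 2 := if e ∈ Q then 1 else 0

/-- `Q` has even degree at the vertices in `X`. -/
def Ev {V E : Type} [Fintype E] (s t : E → V) (Q : Set E) (X : Set V) : Prop :=
  ∀ v ∈ X, bd s t (ic Q) v = 0

/-- `f` is a colouring whose classes have even degrees at the vertices in `X`; the edges of `C`
are in the class zero. -/
def Good {V E : Type} [Fintype E] (s t : E → V) (C : Set E) (f : E → ℕ) (X : Set V) : Prop :=
  (∀ e, vc (f e) = true) ∧ (∀ e ∈ C, tb (f e) 0 = true) ∧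
    ∀ v ∈ X, ∀ i < 5, bd s t (fun e => co (f e) i) v = 0

/-- The ends of the piece `X` are numbered by `o`. -/
def Ord {V E : Type} [Fintype E] (s t : E → V) (X : Set V) (k : ℕ) (o : ℕ → E) : Prop :=
  (∀ i < k, ∀ j < k, o i = o j → i = j) ∧ ∀ e, e ∈ cut s t X ↔ ∃ i < k, o i = e

/-- The piece `X` has the state `S`. -/
def HasSt {V E : Type} [Fintype E] (s t : E → V) (C : Set E) (X : Set V) (k : ℕ) (o : ℕ → E)
    (S : ℕ) : Prop :=
  ∃ f : E → ℕ, Good s t C f X ∧ ∀ i < k, f (o i) = dig S i

/-- The edge `e` has an end in `X`. -/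
def tch {V E : Type} (s t : E → V) (X : Set V) (e : E) : Prop := s e ∈ X ∨ t e ∈ X

/-- There is a part of `C` in the piece `X` that is even in `X` and leaves it through the ends given
by `m`. -/
def InR {V E : Type} [Fintype E] (s t : E → V) (C : Set E) (X : Set V) (k : ℕ) (o : ℕ → E)
    (m : ℕ) : Prop :=
  ∃ Q : Set E, Q ⊆ C ∧ (∀ e ∈ Q, tch s t X e) ∧ Ev s t Q X ∧
    ∀ i < k, (o i ∈ Q ↔ tb m i = true)

/-- The piece `X` has the type `ty`. -/
def TyOK {V E : Type} [Fintype E] (s t : E → V) (C : Set E) (X : Set V) (k : ℕ) (o : ℕ → E)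
    (ty : ℕ) : Prop :=
  (∀ i < k, (o i ∈ C ↔ tb ty i = true)) ∧ InR s t C X k o (t2 ty) ∧
  (ty = 0 → ∀ e ∈ C, ¬ tch s t X e) ∧ (ty = 1024 → C.Nonempty ∧ ∀ e ∈ C, s e ∈ X ∧ t e ∈ X)

/-- The piece `X` with `k` ends has one of the behaviours. -/
def HasC {V E : Type} [Fintype E] (s t : E → V) (C : Set E) (X : Set V) (k : ℕ) : Prop :=
  ∃ o : ℕ → E, Ord s t X k o ∧ ∃ x ∈ Fl k, TyOK s t C X k o x.1 ∧
    ∀ r ∈ x.2, HasSt s t C X k o (rp k r)

/-- `C` is empty or a circuit of the graph on `U`. -/
structure Ctx {V E : Type} [Fintype E] (s t : E → V) (C : Set E) (U : Set V) : Prop where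
  ends : ∀ e, s e ∈ U ∧ t e ∈ U
  ev : Ev s t C U
  min : ∀ Q : Set E, Q ⊆ C → Ev s t Q U → Q = ∅ ∨ Q = C

/-- The number of leaves. -/
def Tr.size {V : Type} : Tr V → ℕ
  | .leaf _ => 1
  | .node l r => l.size + r.size

/-- For each subtree at most `w` edges leave the set of its leaves. -/
def Tr.Width {V E : Type} [Fintype E] (s t : E → V) (w : ℕ) : Tr V → Prop
  | .leaf v => (cut s t {v}).card ≤ w
  | .node l r => (cut s t (l.set ∪ r.set)).card ≤ w ∧ l.Width s t w ∧ r.Width s t w

/-- The numbers of ends that occur. -/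
def Rel (k : ℕ) : Prop := k = 0 ∨ k = 3 ∨ k = 4 ∨ k = 5

end Pool.Agent.TH849.SC
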