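import Pool.Agent.TH849.SC.Chk

/-!
Permutations of the ends of a piece: tables.
-/

set_option autoImplicit false
set_option maxRecDepth 100000

namespace Pool.Agent.TH849.SC

/-- The permutation number `σ` of `k` ends is injective. -/
noncomputable def okpm (k σ : ℕ) : Bool :=
  allR k fun i => frc (PM k σ i) fun x => an (Nat.ble (Nat.succ x) k)
    (allR k fun j => oo (Nat.beq i j) (nn (Nat.beq x (PM k σ j))))

theorem okpm3 : allR 6 (okpm 3) = true := by decide +kernel
theorem okpm4 : allR 24 (okpm 4) = true := by decide +kernel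
theorem okpm5 : allR 120 (okpm 5) = true := by decide +kernel

/-- The entries of the table of the action. -/
noncomputable def oka (k σ : ℕ) : Bool :=
  frc (rowA k σ) fun A => allR (nr k) fun r => frc (lk A r) fun r' => frc (ag k σ r) fun g =>
    frc (rp k r) fun S => frc (rp k r') fun S' => an (Nat.ble (Nat.succ g) 24)
    (an (Nat.ble (Nat.succ r') (nr k)) (allR k fun i =>
      Nat.beq (pt g (dig S (PM k σ i))) (dig S' i)))

theorem oka3 : allR 6 (oka 3) = true := by decide +kernel
theorem oka4 : allR 24 (oka 4) = true := by decide +kernel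
theorem oka5_0 : allR 15 (fun s => oka 5 (Nat.add 0 s)) = true := by decide +kernel
theorem oka5_1 : allR 15 (fun s => oka 5 (Nat.add 15 s)) = true := by decide +kernel
theorem oka5_2 : allR 15 (fun s => oka 5 (Nat.add 30 s)) = true := by decide +kernel
theorem oka5_3 : allR 15 (fun s => oka 5 (Nat.add 45 s)) = true := by decide +kernel
theorem oka5_4 : allR 15 (fun s => oka 5 (Nat.add 60 s)) = true := by decide +kernel
theorem oka5_5 : allR 15 (fun s => oka 5 (Nat.add 75 s)) = true := by decide +kernel
theorem oka5_6 : allR 15 (fun s => oka 5 (Nat.add 90 s)) = true := by decide +kernel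
theorem oka5_7 : allR 15 (fun s => oka 5 (Nat.add 105 s)) = true := by decide +kernel

/-- The entries of the table of the action on the types. -/
noncomputable def okty (k σ ty : ℕ) : Bool :=
  frc (actT k σ ty) fun u => frc (t2 u) fun u2 => frc (t2 ty) fun v2 =>
  an (anyN (TyL k) (Nat.beq u))
  (an (allR k fun i => eqB (tb u i) (tb ty (PM k σ i)))
  (an (oo (allR k fun i => eqB (tb u2 i) (tb v2 (PM k σ i)))
    (allR k fun i => eqB (tb u2 i) (nn (eqB (tb ty (PM k σ i)) (tb v2 (PM k σ i))))))
  (an (oo (nn (Nat.beq u 0)) (Nat.beq ty 0)) (oo (nn (Nat.beq u 1024)) (Nat.beq ty 1024)))))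

theorem okty0 : (allR 1 fun σ => allN (TyL 0) (okty 0 σ)) = true := by decide +kernel
theorem okty3 : (allR 6 fun σ => allN (TyL 3) (okty 3 σ)) = true := by decide +kernel
theorem okty4 : (allR 24 fun σ => allN (TyL 4) (okty 4 σ)) = true := by decide +kernel
theorem okty5 : (allR 120 fun σ => allN (TyL 5) (okty 5 σ)) = true := by decide +kernel

/-- Inverse permutations. -/
noncomputable def oki (k σ : ℕ) : Bool :=
  frc (rowA k σ) fun A => anyR (fc k) fun τ => frc (rowA k τ) fun B =>
    an (allR (nr k) fun r => Nat.beq (lk B (lk A r)) r)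
      (allN (TyL k) fun ty => Nat.beq (actT k τ (actT k σ ty)) ty)

theorem oki0 : allR 1 (oki 0) = true := by decide +kernel
theorem oki3 : allR 6 (oki 3) = true := by decide +kernel
theorem oki4 : allR 24 (oki 4) = true := by decide +kernel
theorem oki5_0 : allR 30 (fun s => oki 5 (Nat.add 0 s)) = true := by decide +kernel
theorem oki5_1 : allR 30 (fun s => oki 5 (Nat.add 30 s)) = true := by decide +kernel
theorem oki5_2 : allR 30 (fun s => oki 5 (Nat.add 60 s)) = true := by decide +kernel
theorem oki5_3 : allR 30 (fun s => oki 5 (Nat.add 90 s)) = true := by decide +kernel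

/-- The explicit sets consist of classes; their types are in the list. -/
noncomputable def okF (k n : ℕ) : Bool :=
  allN (Fl k) fun x => an (anyN (TyL k) (Nat.beq x.1)) (allN x.2 fun r => Nat.ble (Nat.succ r) n)

theorem okF0 : okF 0 1 = true := by decide +kernel
theorem okF3 : okF 3 4 = true := by decide +kernel
theorem okF4 : okF 4 38 = true := by decide +kernel
theorem okF5 : okF 5 290 = true := by decide +kernel

/-- Valid codes. -/
noncomputable def okr (k r : ℕ) : Bool := frc (rp k r) fun S => allR k fun i => vc (dig S i)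

theorem okr3 : allR 4 (okr 3) = true := by decide +kernel
theorem okr4 : allR 38 (okr 4) = true := by decide +kernel
theorem okr5 : allR 290 (okr 5) = true := by decide +kernel

/-- The lists of permutations. -/
theorem okpa : (allR 6 fun a => allR 6 fun c => an (allN (pa a c) fun p =>
    Nat.ble (Nat.succ p) (fc a)) (allN (pb a c) fun p => Nat.ble (Nat.succ p) (fc a))) = true := by
  decide +kernel

/-- The single vertices. -/
theorem okleaf : (allN (Fl 3) fun x => allN x.2 fun r => an (allR 5 fun i =>
    eqB (tb (dig (rp 3 r) 2) i) (nn (eqB (tb (dig (rp 3 r) 0) i) (tb (dig (rp 3 r) 1) i))))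
      (allR 3 fun j => oo (nn (tb x.1 j)) (tb (dig (rp 3 r) j) 0))) = true := by
  decide +kernel

end Pool.Agent.TH849.SC
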