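import Mathlib
import Pool.Agent.TH849.SC.Chk

/-! Soundness of the checker for the gluings. -/

set_option autoImplicit false

namespace Pool.Agent.TH849.SC

theorem tb_eq (m i : ℕ) : tb m i = m.testBit i := by
  have h : Nat.testBit m i = ((m >>> i) % 2 != 0) := by
    rw [Nat.testBit, Nat.one_and_eq_mod_two]
  rw [h]
  show Nat.beq ((m >>> i) % 2) 1 = _
  have h2 : (m >>> i) % 2 = 0 ∨ (m >>> i) % 2 = 1 := by omega
  rcases h2 with h2 | h2 <;> rw [h2] <;> rfl

theorem frc_eq (n : ℕ) (f : ℕ → Bool) : frc n f = f n := by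
  cases n <;> rfl

theorem frN_eq (n : ℕ) (f : ℕ → ℕ) : frN n f = f n := by
  cases n <;> rfl

theorem allN_mem {α : Type} {l : List α} {f : α → Bool} (h : allN l f = true) :
    ∀ x ∈ l, f x = true := by
  induction l with
  | nil => intro x hx; simp at hx
  | cons y l ih =>
    have h' : cond (f y) (allN l f) false = true := h
    intro x hx
    cases hy : f y with
    | false => rw [hy] at h'; simp at h'
    | true =>
      rw [hy] at h'
      rcases List.mem_cons.mp hx with rfl | hx
      · exact hy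
      · exact ih h' x hx

theorem anyN_mem {α : Type} {l : List α} {f : α → Bool} (h : anyN l f = true) :
    ∃ x ∈ l, f x = true := by
  induction l with
  | nil =>
    have h' : false = true := h
    simp at h'
  | cons y l ih =>
    have h' : cond (f y) true (anyN l f) = true := h
    cases hy : f y with
    | true => exact ⟨y, List.mem_cons_self, hy⟩
    | false =>
      rw [hy] at h'
      obtain ⟨x, hx, h2⟩ := ih h'
      exact ⟨x, List.mem_cons_of_mem _ hx, h2⟩

theorem allR_iff {n : ℕ} {f : ℕ → Bool} : allR n f = true ↔ ∀ i < n, f i = true := by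
  induction n with
  | zero => exact ⟨fun _ i hi => absurd hi (by omega), fun _ => rfl⟩
  | succ n ih =>
    have h' : allR (n + 1) f = cond (f n) (allR n f) false := rfl
    rw [h']
    constructor
    · intro h i hi
      cases hn : f n with
      | false => rw [hn] at h; simp at h
      | true =>
        rw [hn] at h
        rcases Nat.lt_succ_iff_lt_or_eq.1 hi with h1 | h1
        · exact ih.1 h i h1
        · rw [h1]; exact hn
    · intro h
      rw [h n (by omega)]
      exact ih.2 fun i hi => h i (by omega)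

theorem anyR_iff {n : ℕ} {f : ℕ → Bool} : anyR n f = true ↔ ∃ i < n, f i = true := by
  induction n with
  | zero =>
    constructor
    · intro h
      have h' : false = true := h
      simp at h'
    · rintro ⟨i, hi, _⟩
      omega
  | succ n ih =>
    have h' : anyR (n + 1) f = cond (f n) true (anyR n f) := rfl
    rw [h']
    constructor
    · intro h
      cases hn : f n with
      | true => exact ⟨n, by omega, hn⟩
      | false =>
        rw [hn] at h
        obtain ⟨i, hi, h1⟩ := ih.1 h
        exact ⟨i, by omega, h1⟩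
    · rintro ⟨i, hi, h1⟩
      cases hn : f n with
      | true => rfl
      | false =>
        refine ih.2 ⟨i, ?_, h1⟩
        rcases Nat.lt_succ_iff_lt_or_eq.1 hi with h2 | h2
        · exact h2
        · rw [h2, hn] at h1
          simp at h1

theorem an_iff {a b : Bool} : an a b = true ↔ a = true ∧ b = true := by
  cases a <;> cases b <;> simp [an]

theorem oo_iff {a b : Bool} : oo a b = true ↔ a = true ∨ b = true := by
  cases a <;> cases b <;> simp [oo]

theorem nn_iff {a : Bool} : nn a = true ↔ a = false := by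
  cases a <;> simp [nn]

theorem eqB_iff {a b : Bool} : eqB a b = true ↔ a = b := by
  cases a <;> cases b <;> simp [eqB, nn]

theorem ln_eq {α : Type} (L : List α) : ln L = L.length := by
  induction L with
  | nil => rfl
  | cons h L ih =>
    have h' : ln (h :: L) = Nat.succ (ln L) := rfl
    rw [h', ih, List.length_cons]

theorem zp_mem {α β : Type} {f : α → β → Bool} : ∀ {A : List α} {B : List β},
    zp f A B = true → ∀ y ∈ A, ∃ x, (y, x) ∈ A.zip B ∧ f y x = true := by
  intro A
  induction A with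
  | nil => intro B _ y hy; simp at hy
  | cons h A ih =>
    intro B hB y hy
    cases B with
    | nil =>
      have h' : false = true := hB
      simp at h'
    | cons x B =>
      have h' : cond (f h x) (zp f A B) false = true := hB
      cases hx : f h x with
      | false => rw [hx] at h'; simp at h'
      | true =>
        rw [hx] at h'
        rcases List.mem_cons.1 hy with rfl | hy
        · exact ⟨x, by simp, hx⟩
        · obtain ⟨z, hz, h2⟩ := ih h' y hy
          exact ⟨z, by simp [hz], h2⟩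

theorem zp_all {α β : Type} {f : α → β → Bool} : ∀ {A : List α} {B : List β},
    zp f A B = true → ∀ z ∈ A.zip B, f z.1 z.2 = true := by
  intro A
  induction A with
  | nil => intro B _ z hz; simp at hz
  | cons h A ih =>
    intro B hB z hz
    cases B with
    | nil => simp at hz
    | cons x B =>
      have h' : cond (f h x) (zp f A B) false = true := hB
      cases hx : f h x with
      | false => rw [hx] at h'; simp at h'
      | true =>
        rw [hx] at h'
        rw [List.zip_cons_cons, List.mem_cons] at hz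
        rcases hz with rfl | hz
        · exact hx
        · exact ih h' z hz

theorem orN_bit {α : Type} {l : List α} {f : α → ℕ} {n : ℕ} (h : (orN l f).testBit n = true) :
    ∃ r ∈ l, (f r).testBit n = true := by
  induction l with
  | nil =>
    have h' : (0 : ℕ).testBit n = true := h
    simp at h'
  | cons y l ih =>
    have h' : (orN l f ||| f y).testBit n = true := h
    rw [Nat.testBit_or, Bool.or_eq_true] at h'
    rcases h' with h' | h'
    · obtain ⟨r, hr, h2⟩ := ih h'
      exact ⟨r, List.mem_cons_of_mem _ hr, h2⟩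
    · exact ⟨y, List.mem_cons_self, h'⟩

theorem row_bit {P w r n : ℕ} (h : (row P w (2 ^ w - 1) r).testBit n = true) :
    n < w ∧ P.testBit (w * r + n) = true := by
  have h' : ((P >>> (w * r)) &&& (2 ^ w - 1)).testBit n = true := h
  rw [Nat.testBit_and, Nat.testBit_two_pow_sub_one, Bool.and_eq_true, decide_eq_true_iff,
    Nat.testBit_shiftRight] at h'
  exact ⟨h'.2, h'.1⟩

theorem andA_bit {R NG FU A g : ℕ} {l : List ℕ} (h : (andA R NG FU A l).testBit g = true) :
    ∀ r ∈ l, R.testBit (NG * lk A r + g) = true := by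
  induction l with
  | nil => intro r hr; simp at hr
  | cons y l ih =>
    have h' : (andA R NG FU A l &&& (frN (lk A y) (fun r' => R >>> (NG * r')))).testBit g = true := h
    rw [Nat.testBit_and, Bool.and_eq_true, frN_eq, Nat.testBit_shiftRight] at h'
    intro r hr
    rcases List.mem_cons.mp hr with rfl | hr
    · exact h'.2
    · exact ih h'.1 r hr

theorem orT_bit {R NG FU k g : ℕ} {T : List (ℕ × List ℕ)}
    (h : (orT R NG FU k T).testBit g = true) :
    ∃ x ∈ T, ∃ σ ∈ x.2, ∀ r ∈ (nthL (Fl k) x.1).2, R.testBit (NG * act k σ r + g) = true := by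
  obtain ⟨x, hx, h1⟩ := orN_bit h
  obtain ⟨σ, hσ, h2⟩ := orN_bit h1
  rw [frN_eq] at h2
  exact ⟨x, hx, σ, hσ, andA_bit h2⟩

theorem nthL_mem : ∀ (L : List (ℕ × List ℕ)) (i : ℕ), i < L.length → nthL L i ∈ L := by
  intro L
  induction L with
  | nil => intro i hi; simp at hi
  | cons y L ih =>
    intro i hi
    cases i with
    | zero => exact List.mem_cons_self
    | succ i => exact List.mem_cons_of_mem _ (ih i (by simpa using hi))

theorem one_bit {n m : ℕ} (h : (Nat.shiftLeft 1 n).testBit m = true) : m = n := by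
  have h' : (1 <<< n).testBit m = true := h
  rw [Nat.shiftLeft_eq, one_mul, Nat.testBit_two_pow] at h'
  exact (decide_eq_true_iff.mp h').symm

theorem lin_inj {N a b c d : ℕ} (hc : c < N) (hd : d < N) (h : N * a + c = N * b + d) :
    a = b ∧ c = d := by
  have hN : 0 < N := by omega
  have h1 : (N * a + c) / N = a := by
    rw [Nat.mul_add_div hN, Nat.div_eq_of_lt hc, add_zero]
  have h2 : (N * b + d) / N = b := by
    rw [Nat.mul_add_div hN, Nat.div_eq_of_lt hd, add_zero]
  have h3 : a = b := by rw [← h1, ← h2, h]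
  subst h3
  exact ⟨rfl, by omega⟩

theorem colF_bit {a NG r1 g : ℕ} : ∀ (L : List ((ℕ × List ℕ) × ℕ)) (g0 : ℕ), g < NG →
    g0 + L.length ≤ NG → (colF a NG L g0).testBit (NG * r1 + g) = true →
    ∃ i, g = g0 + i ∧ ∃ x, L[i]? = some x ∧ ∃ r ∈ x.1.2, act a x.2 r = r1 := by
  intro L
  induction L with
  | nil =>
    intro g0 _ _ h
    have h' : (0 : ℕ).testBit (NG * r1 + g) = true := h
    simp at h'
  | cons y L ih =>
    intro g0 hg hL h
    have h' : (colF a NG L (g0 + 1) ||| (frN (rowA a y.2) (fun A =>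
      orN y.1.2 (fun r => Nat.shiftLeft 1 (Nat.add (Nat.mul NG (lk A r)) g0))))).testBit
        (NG * r1 + g) = true := h
    rw [Nat.testBit_or, Bool.or_eq_true] at h'
    rw [List.length_cons] at hL
    rcases h' with h' | h'
    · obtain ⟨i, hi, x, hx, hr⟩ := ih (g0 + 1) hg (by omega) h'
      exact ⟨i + 1, by omega, x, by simpa using hx, hr⟩
    · rw [frN_eq] at h'
      obtain ⟨r, hr, h2⟩ := orN_bit h'
      have h3 := one_bit h2
      obtain ⟨h4, h5⟩ := lin_inj hg (by omega : g0 < NG) h3
      exact ⟨0, by omega, y, by simp, r, hr, h4.symm⟩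

theorem okAL_sound {a : ℕ} {AL : List (ℕ × ℕ)} : ∀ (L : List ((ℕ × List ℕ) × ℕ)) (g0 : ℕ),
    okAL a AL L g0 = true → ∀ (i : ℕ) (x : (ℕ × List ℕ) × ℕ), L[i]? = some x →
    ∃ y ∈ AL, y.1 = actT a x.2 x.1.1 ∧ tb y.2 (g0 + i) = true := by
  intro L
  induction L with
  | nil => intro g0 _ i x hx; simp at hx
  | cons h L ih =>
    intro g0 hok i x hx
    have h' : cond (frc h.1.1 (fun t => frc (actT a h.2 t) (fun ty =>
      anyN AL (fun x => an (Nat.beq x.1 ty) (tb x.2 g0))))) (okAL a AL L (g0 + 1)) false = true :=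
      hok
    rw [frc_eq, frc_eq] at h'
    cases hc : anyN AL (fun x => an (Nat.beq x.1 (actT a h.2 h.1.1)) (tb x.2 g0)) with
    | false => rw [hc] at h'; simp at h'
    | true =>
      rw [hc] at h'
      cases i with
      | zero =>
        have hx' : h = x := by simpa using hx
        subst hx'
        obtain ⟨y, hy, h2⟩ := anyN_mem hc
        rw [an_iff] at h2
        exact ⟨y, hy, Nat.eq_of_beq_eq_true h2.1, h2.2⟩
      | succ i =>
        obtain ⟨y, hy, h2, h3⟩ := ih (g0 + 1) h' i x (by simpa using hx)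
        exact ⟨y, hy, h2, by rw [show g0 + (i + 1) = g0 + 1 + i by omega]; exact h3⟩

theorem lku_mem {α : Type} {BL : List (ℕ × List α)} {β : ℕ} (h : 1 ≤ (lku BL β).length) :
    ∃ e ∈ BL, e.1 = β ∧ e.2 = lku BL β := by
  induction BL with
  | nil =>
    have h' : 1 ≤ ([] : List α).length := h
    simp at h'
  | cons y L ih =>
    have h' : lku (y :: L) β = cond (Nat.beq y.1 β) y.2 (lku L β) := rfl
    rw [h'] at h ⊢
    cases hy : Nat.beq y.1 β with
    | true => exact ⟨y, List.mem_cons_self, Nat.eq_of_beq_eq_true hy, rfl⟩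
    | false =>
      rw [hy] at h
      obtain ⟨e, he, h1, h2⟩ := ih h
      exact ⟨e, List.mem_cons_of_mem _ he, h1, h2⟩

/-- Glued states. -/
def GlueP (a b c r1 r2 r3 p q : ℕ) : Prop :=
  (∀ i < c, pt p (dig (rp a r1) (a - c + i)) = pt q (dig (rp b r2) i)) ∧
  (∀ i < a - c, pt p (dig (rp a r1) i) = dig (rp (a + b - 2 * c) r3) i) ∧
  (∀ i < b - c, pt q (dig (rp b r2) (c + i)) = dig (rp (a + b - 2 * c) r3) (a - c + i))

/-- What the tables say about a gluing along `c` ends. -/
def TabOK (a b c : ℕ) : Prop := ∀ l1 ∈ Fl a, ∀ π ∈ pa a c, ∀ l2 ∈ Fl b, ∀ ρ ∈ pb b c,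
  bad a b c (actT a π l1.1) (actT b ρ l2.1) = true ∨
  ∃ l3 ∈ Fl (a + b - 2 * c), ∃ σ < fc (a + b - 2 * c),
    glu a b c (actT a π l1.1) (actT b ρ l2.1) (actT (a + b - 2 * c) σ l3.1) = true ∧
    ∀ x ∈ l3.2, ∃ x1 ∈ l1.2, ∃ x2 ∈ l2.2,
      ∃ p < 24, ∃ q < 24, GlueP a b c (act a π x1) (act b ρ x2) (act (a + b - 2 * c) σ x) p q

theorem okE_sound {a b c r2 e : ℕ} (h : okE a b c r2 e = true) :
    e / 134217728 % 32 < 24 ∧ e / 4294967296 < 24 ∧
    GlueP a b c (e % 512) r2 (e / 262144 % 512) (e / 134217728 % 32) (e / 4294967296) := by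
  unfold okE at h
  rw [frc_eq, frc_eq, frc_eq, frc_eq, frc_eq, frc_eq, frc_eq] at h
  simp only [an_iff, Nat.ble_eq, allR_iff, Nat.beq_eq] at h
  obtain ⟨h4, h5, h6, h7, h8⟩ := h
  exact ⟨h4, h5, h6, h7, h8⟩

theorem plk_mem {L : List (ℕ × List ℕ)} {n e : ℕ} (h : e ∈ plk L n) :
    ∃ x ∈ L, x.1 = n ∧ e ∈ x.2 := by
  induction L with
  | nil =>
    have h' : e ∈ ([] : List ℕ) := h
    simp at h'
  | cons y L ih =>
    have h' : e ∈ cond (Nat.beq y.1 n) y.2 (plk L n) := h
    cases hy : Nat.beq y.1 n with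
    | true =>
      rw [hy] at h'
      exact ⟨y, List.mem_cons_self, Nat.eq_of_beq_eq_true hy, h'⟩
    | false =>
      rw [hy] at h'
      obtain ⟨x, hx, h2⟩ := ih h'
      exact ⟨x, List.mem_cons_of_mem _ hx, h2⟩

/-- The check for the set number `i`, with evaluated arguments. -/
def CI (en : List (ℕ × List ℕ)) (a b c NG : ℕ) (AL : List (ℕ × ℕ))
    (BL : List (ℕ × List (ℕ × List (ℕ × List ℕ)))) (i : ℕ) : Prop :=
  chkI en b c (a + b - 2 * c) NG (Nat.sub (Nat.pow 2 NG) 1) AL BL (colF a NG (ml a c) 0) i = true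

theorem chkA_sound {en : List (ℕ × List ℕ)} {a b c NG : ℕ} {AL : List (ℕ × ℕ)}
    {BL : List (ℕ × List (ℕ × List (ℕ × List ℕ)))} {lo n : ℕ}
    (h : chkA en a b c NG AL BL lo n = true) (i : ℕ) (h1 : lo ≤ i) (h2 : i < lo + n) :
    CI en a b c NG AL BL i := by
  unfold chkA at h
  rw [frc_eq, frc_eq] at h
  have h3 := allR_iff.1 h (i - lo) (by omega)
  rw [show Nat.add lo (i - lo) = i from by show lo + (i - lo) = i; omega] at h3
  exact h3

theorem nthL_get : ∀ (L : List (ℕ × List ℕ)) (x : ℕ × List ℕ), x ∈ L →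
    ∃ i < L.length, nthL L i = x := by
  intro L
  induction L with
  | nil => intro x hx; simp at hx
  | cons y L ih =>
    intro x hx
    rcases List.mem_cons.1 hx with rfl | hx
    · exact ⟨0, by simp, rfl⟩
    · obtain ⟨i, hi, h1⟩ := ih x hx
      exact ⟨i + 1, by simpa using hi, h1⟩

theorem tab_of (a b c NG : ℕ) (en : List (ℕ × List ℕ)) (AL : List (ℕ × ℕ))
    (BL : List (ℕ × List (ℕ × List (ℕ × List ℕ))))
    (h1 : Nat.beq (ml a c).length NG = true)
    (h3 : Nat.ble 1 AL.length = true)
    (h4 : allN en (fun x => allN x.2 (okE a b c x.1)) = true) (h5 : okAL a AL (ml a c) 0 = true)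
    (h6 : okBL a b c AL BL = true)
    (h7 : ∀ i < (Fl b).length, CI en a b c NG AL BL i) : TabOK a b c := by
  intro l1 hl1 π hπ l2 hl2 ρ hρ
  have hlen := Nat.eq_of_beq_eq_true h1
  rw [Nat.ble_eq] at h3
  have hmem : (l1, π) ∈ ml a c := by
    unfold ml
    rw [List.mem_flatMap]
    exact ⟨l1, hl1, List.mem_map.mpr ⟨π, hπ, rfl⟩⟩
  obtain ⟨g, hg, hgm⟩ := List.getElem_of_mem hmem
  have hget : (ml a c)[g]? = some (l1, π) := by
    rw [List.getElem?_eq_getElem hg, hgm]
  rw [hlen] at hg
  obtain ⟨y, hy, hyt, hyg⟩ := okAL_sound _ _ h5 g _ hget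
  rw [zero_add, tb_eq] at hyg
  obtain ⟨j, hj, hjl⟩ := nthL_get _ l2 hl2
  have h8' := h7 j hj
  unfold CI chkI at h8'
  rw [frc_eq, hjl] at h8'
  have h10 := allN_mem h8' ρ hρ
  rw [frc_eq, frc_eq] at h10
  unfold chk at h10
  rw [frc_eq] at h10
  obtain ⟨x, hx, h13⟩ := zp_mem h10 y hy
  have hne : 1 ≤ (lku BL (actT b ρ l2.1)).length := by
    have h1 := List.length_pos_of_mem hx
    rw [List.length_zip] at h1
    omega
  obtain ⟨e, he, he1, he2⟩ := lku_mem hne
  have h11 := allN_mem h6 e he
  rw [he1, he2] at h11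
  have h12 := zp_all h11 _ hx
  simp only at h12 hyt
  rw [← hyt]
  cases hf : Nat.beq x.1 1 with
  | true =>
    rw [hf] at h12
    exact Or.inl h12
  | false =>
    right
    rw [hf] at h12 h13
    rw [oo_iff] at h13
    have h14 := Nat.eq_of_beq_eq_true (h13.resolve_left (by simp))
    have h15 : (orT (orN l2.2 (fun r => frN (lk (rowA b ρ) r) (fun r' => Nat.lor 0 (rwP en
        (colF a NG (ml a c) 0) NG (Nat.sub (Nat.pow 2 NG) 1) r')))) NG (Nat.sub (Nat.pow 2 NG) 1)
        (a + b - 2 * c) x.2).testBit g = true := by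
      have h16 : (Nat.land (orT (orN l2.2 (fun r => frN (lk (rowA b ρ) r) (fun r' => Nat.lor 0
          (rwP en (colF a NG (ml a c) 0) NG (Nat.sub (Nat.pow 2 NG) 1) r')))) NG
          (Nat.sub (Nat.pow 2 NG) 1) (a + b - 2 * c) x.2) y.2).testBit g = true := by
        rw [h14]; exact hyg
      have h17 := h16
      rw [show ∀ u v : ℕ, Nat.land u v = u &&& v from fun _ _ => rfl, Nat.testBit_and,
        Bool.and_eq_true] at h17
      exact h17.1
    obtain ⟨z, hz, σ, hσ, h18⟩ := orT_bit h15
    have h12' : okTT a b c y.1 (actT b ρ l2.1) x.2 = true := h12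
    unfold okTT at h12'
    have h19 := allN_mem h12' z hz
    rw [an_iff, Nat.ble_eq, ln_eq] at h19
    obtain ⟨h20, h21⟩ := h19
    have h22 := allN_mem h21 σ hσ
    rw [an_iff, Nat.ble_eq, frc_eq, frc_eq] at h22
    refine ⟨nthL (Fl (a + b - 2 * c)) z.1, nthL_mem _ _ h20, σ, h22.1, h22.2, ?_⟩
    intro r hr
    have h23 := h18 r hr
    obtain ⟨r3, hr3⟩ : ∃ r3, r3 = act (a + b - 2 * c) σ r := ⟨_, rfl⟩
    rw [← hr3] at h23 ⊢
    obtain ⟨x2, hx2, h24⟩ := orN_bit h23
    rw [frN_eq, show ∀ v : ℕ, Nat.lor 0 v = 0 ||| v from fun _ => rfl, Nat.zero_or] at h24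
    obtain ⟨e', he', h27⟩ := orN_bit h24
    obtain ⟨u, hu, hu1, hu2⟩ := plk_mem he'
    obtain ⟨q2, q3, q4⟩ := okE_sound (allN_mem (allN_mem h4 u hu) e' hu2)
    rw [hu1] at q4
    have h5' : ((row (colF a NG (ml a c) 0) NG (2 ^ NG - 1) (e' % 512)) <<<
        (NG * (e' / 262144 % 512))).testBit (NG * r3 + g) = true := h27
    rw [Nat.testBit_shiftLeft, Bool.and_eq_true, decide_eq_true_iff] at h5'
    obtain ⟨h28, h29⟩ := h5'
    obtain ⟨h30, h31⟩ := row_bit h29
    have h32 : NG * r3 + g = NG * (e' / 262144 % 512) +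
        (NG * r3 + g - NG * (e' / 262144 % 512)) := by
      rw [Nat.add_sub_cancel' h28]
    obtain ⟨h33, h34⟩ := lin_inj hg h30 h32
    rw [← h34] at h31
    obtain ⟨i, hi, w, hw, x1, hx1, hx1'⟩ := colF_bit (ml a c) 0 hg (by omega) h31
    have hig : i = g := by omega
    subst hig
    rw [hget, Option.some_inj] at hw
    subst hw
    refine ⟨x1, hx1, x2, hx2, _, q2, _, q3, ?_⟩
    have e1 : act a π x1 = e' % 512 := hx1'
    rw [e1, h33]
    exact q4

end Pool.Agent.TH849.SC
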