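import Pool.Agent.TH849.SC.Defs
import Pool.Agent.TH849.SC.Sound

/-!
The permutations of the classes and their action on the colourings.
-/

set_option autoImplicit false

open Finset

namespace Pool.Agent.TH849.SC

/-- The permutation number `p` permutes the classes. -/
def okp (p : ℕ) : Bool :=
  (List.range 5).all fun i => (List.range 5).any fun j => (List.range 32).all fun c =>
    !((tb (pt p c) i).xor (tb c j))

theorem okp_all : (List.range 120).all okp = true := by decide +kernel

/-- The permutation number `p` sends colours to colours. -/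
def okv (p : ℕ) : Bool := (List.range 32).all fun c => !(vc c) || vc (pt p c)

theorem okv_all : (List.range 120).all okv = true := by decide +kernel

/-- The permutation number `p` fixes the class zero. -/
def okz (p : ℕ) : Bool := (List.range 32).all fun c => !((tb (pt p c) 0).xor (tb c 0))

theorem okz_all : (List.range 24).all okz = true := by decide +kernel

theorem vc_lt (c : ℕ) (h : vc c = true) : c < 32 := by
  by_contra hc
  have hc' : 32 ≤ c := by omega
  unfold vc at h
  rw [tb_eq] at h
  have h2 : (18224744 : ℕ) = 18224744 := rfl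
  rw [Nat.testBit_lt_two_pow] at h
  · simp at h
  · exact lt_of_lt_of_le (by norm_num) (Nat.pow_le_pow_right (by norm_num) hc')

theorem pt_vc (p c : ℕ) (hp : p < 120) (hc : vc c = true) : vc (pt p c) = true := by
  have h := (List.all_eq_true.1 okv_all) p (List.mem_range.2 hp)
  have h2 := (List.all_eq_true.1 h) c (List.mem_range.2 (vc_lt c hc))
  rw [hc] at h2
  simpa using h2

theorem pt_zero (p c : ℕ) (hp : p < 24) (hc : vc c = true) : tb (pt p c) 0 = tb c 0 := by
  have h := (List.all_eq_true.1 okz_all) p (List.mem_range.2 hp)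
  have h2 := (List.all_eq_true.1 h) c (List.mem_range.2 (vc_lt c hc))
  revert h2
  cases tb (pt p c) 0 <;> cases tb c 0 <;> simp

theorem co_pt (p : ℕ) (hp : p < 120) (i : ℕ) (hi : i < 5) :
    ∃ j < 5, ∀ c, vc c = true → co (pt p c) i = co c j := by
  have h := (List.all_eq_true.1 okp_all) p (List.mem_range.2 hp)
  have h2 := (List.all_eq_true.1 h) i (List.mem_range.2 hi)
  obtain ⟨j, hj, h3⟩ := List.any_eq_true.1 h2
  refine ⟨j, List.mem_range.1 hj, fun c hc => ?_⟩
  have h4 := (List.all_eq_true.1 h3) c (List.mem_range.2 (vc_lt c hc))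
  unfold co
  revert h4
  cases tb (pt p c) i <;> cases tb c j <;> simp

variable {V E : Type} [Fintype E]

theorem act_good' (s t : E → V) (C : Set E) (X : Set V) (f : E → ℕ) (p : ℕ) (hp : p < 120)
    (hC : p < 24 ∨ C = ∅) (h : Good s t C f X) : Good s t C (fun e => pt p (f e)) X := by
  obtain ⟨h1, h2, h3⟩ := h
  refine ⟨fun e => pt_vc p _ hp (h1 e), fun e he => ?_, fun v hv i hi => ?_⟩
  · rcases hC with hC | hC
    · rw [pt_zero p _ hC (h1 e)]; exact h2 e he
    · rw [hC] at he; exact absurd he (Set.notMem_empty e)
  · obtain ⟨j, hj, hc⟩ := co_pt p hp i hi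
    rw [← h3 v hv j hj]
    congr 1
    funext e
    exact hc _ (h1 e)

theorem act_good (s t : E → V) (C : Set E) (X : Set V) (f : E → ℕ) (p : ℕ) (hp : p < 24)
    (h : Good s t C f X) : Good s t C (fun e => pt p (f e)) X :=
  act_good' s t C X f p (by omega) (Or.inl hp) h

theorem trans_all : ((List.range 32).all fun c => (List.range 32).all fun d => !(vc c) || !(vc d) ||
    (List.range 120).any fun p => Nat.beq (pt p c) d) = true := by decide +kernel

theorem trans_all0 : ((List.range 32).all fun c => (List.range 32).all fun d =>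
    !(vc c) || !(vc d) || !(tb c 0) || !(tb d 0) ||
    (List.range 24).any fun p => Nat.beq (pt p c) d) = true := by decide +kernel

theorem trans (c d : ℕ) (hc : vc c = true) (hd : vc d = true) : ∃ p < 120, pt p c = d := by
  have h1 := (List.all_eq_true.1 trans_all) c (List.mem_range.2 (vc_lt c hc))
  have h2 := (List.all_eq_true.1 h1) d (List.mem_range.2 (vc_lt d hd))
  rw [hc, hd] at h2
  simp only [Bool.not_true, Bool.false_or] at h2
  obtain ⟨p, hp, h3⟩ := List.any_eq_true.1 h2
  exact ⟨p, List.mem_range.1 hp, Nat.eq_of_beq_eq_true h3⟩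

theorem trans0 (c d : ℕ) (hc : vc c = true) (hd : vc d = true) (hc0 : tb c 0 = true)
    (hd0 : tb d 0 = true) : ∃ p < 24, pt p c = d := by
  have h1 := (List.all_eq_true.1 trans_all0) c (List.mem_range.2 (vc_lt c hc))
  have h2 := (List.all_eq_true.1 h1) d (List.mem_range.2 (vc_lt d hd))
  rw [hc, hd, hc0, hd0] at h2
  simp only [Bool.not_true, Bool.false_or] at h2
  obtain ⟨p, hp, h3⟩ := List.any_eq_true.1 h2
  exact ⟨p, List.mem_range.1 hp, Nat.eq_of_beq_eq_true h3⟩

end Pool.Agent.TH849.SC
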