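import Pool.Agent.TH849.SC.Ends
import Pool.Agent.TH849.SC.Perm

/-!
Permutations of the ends of a piece: consequences of the tables.
-/

set_option autoImplicit false

open Finset

namespace Pool.Agent.TH849.SC

theorem pm_facts (k : ℕ) (hk : Rel k) (σ : ℕ) (hσ : σ < fc k) : (∀ i < k, PM k σ i < k) ∧
    (∀ i < k, ∀ j < k, PM k σ i = PM k σ j → i = j) ∧ ∀ i < k, ∃ j < k, PM k σ j = i := by
  have h : okpm k σ = true := by
    rcases hk with rfl | rfl | rfl | rfl
    · rfl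
    · exact allR_iff.1 okpm3 σ hσ
    · exact allR_iff.1 okpm4 σ hσ
    · exact allR_iff.1 okpm5 σ hσ
  rw [okpm, allR_iff] at h
  have hlt : ∀ i < k, PM k σ i < k := by
    intro i hi
    have h3 := h i hi
    rw [frc_eq, an_iff] at h3
    exact Nat.le_of_ble_eq_true h3.1
  have hinj : ∀ i < k, ∀ j < k, PM k σ i = PM k σ j → i = j := by
    intro i hi j hj hij
    have h3 := h i hi
    rw [frc_eq, an_iff, allR_iff] at h3
    have h4 := h3.2 j hj
    rw [hij, oo_iff, nn_iff] at h4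
    rcases h4 with h4 | h4
    · exact Nat.eq_of_beq_eq_true h4
    · rw [Nat.beq_refl] at h4
      simp at h4
  refine ⟨hlt, hinj, fun i hi => ?_⟩
  have hinj' : Function.Injective (fun i : Fin k => (⟨PM k σ i, hlt i i.2⟩ : Fin k)) := by
    intro i j hij
    exact Fin.ext (hinj i i.2 j j.2 (Fin.mk.inj hij))
  obtain ⟨j, hj⟩ := (Finite.injective_iff_surjective.1 hinj') ⟨i, hi⟩
  exact ⟨j, j.2, Fin.mk.inj hj⟩

theorem act_facts (k : ℕ) (hk : Rel k) (σ : ℕ) (hσ : σ < fc k) (r : ℕ) (hr : r < nr k) :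
    ag k σ r < 24 ∧ act k σ r < nr k ∧
      ∀ i < k, pt (ag k σ r) (dig (rp k r) (PM k σ i)) = dig (rp k (act k σ r)) i := by
  have h : oka k σ = true := by
    rcases hk with rfl | rfl | rfl | rfl
    · have h0 : σ = 0 := by
        have : fc 0 = 1 := rfl
        omega
      subst h0
      decide +kernel
    · exact allR_iff.1 oka3 σ hσ
    · exact allR_iff.1 oka4 σ hσ
    · have hσ' : σ < 120 := hσ
      have key : ∀ lo, allR 15 (fun s => oka 5 (Nat.add lo s)) = true → lo ≤ σ → σ < lo + 15 →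
          oka 5 σ = true := by
        intro lo h1 h2 h3
        have h4 := allR_iff.1 h1 (σ - lo) (by omega)
        rw [show Nat.add lo (σ - lo) = σ from by show lo + (σ - lo) = σ; omega] at h4
        exact h4
      by_cases c0 : σ < 15
      · exact key 0 oka5_0 (by omega) (by omega)
      by_cases c1 : σ < 30
      · exact key 15 oka5_1 (by omega) (by omega)
      by_cases c2 : σ < 45
      · exact key 30 oka5_2 (by omega) (by omega)
      by_cases c3 : σ < 60
      · exact key 45 oka5_3 (by omega) (by omega)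
      by_cases c4 : σ < 75
      · exact key 60 oka5_4 (by omega) (by omega)
      by_cases c5 : σ < 90
      · exact key 75 oka5_5 (by omega) (by omega)
      by_cases c6 : σ < 105
      · exact key 90 oka5_6 (by omega) (by omega)
      · exact key 105 oka5_7 (by omega) (by omega)
  rw [oka, frc_eq, allR_iff] at h
  have h1 := h r hr
  rw [frc_eq, frc_eq, frc_eq, frc_eq, an_iff, an_iff, allR_iff, Nat.ble_eq, Nat.ble_eq] at h1
  obtain ⟨h2, h3, h4⟩ := h1
  exact ⟨h2, h3, fun i hi => Nat.eq_of_beq_eq_true (h4 i hi)⟩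

theorem inv_facts (k : ℕ) (hk : Rel k) (σ : ℕ) (hσ : σ < fc k) :
    ∃ τ < fc k, (∀ r < nr k, act k τ (act k σ r) = r) ∧
      ∀ ty ∈ TyL k, actT k τ (actT k σ ty) = ty := by
  have h : oki k σ = true := by
    rcases hk with rfl | rfl | rfl | rfl
    · exact allR_iff.1 oki0 σ hσ
    · exact allR_iff.1 oki3 σ hσ
    · exact allR_iff.1 oki4 σ hσ
    · have hσ' : σ < 120 := hσ
      have key : ∀ lo, allR 30 (fun s => oki 5 (Nat.add lo s)) = true → lo ≤ σ → σ < lo + 30 →
          oki 5 σ = true := by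
        intro lo h1 h2 h3
        have h4 := allR_iff.1 h1 (σ - lo) (by omega)
        rw [show Nat.add lo (σ - lo) = σ from by show lo + (σ - lo) = σ; omega] at h4
        exact h4
      by_cases c0 : σ < 30
      · exact key 0 oki5_0 (by omega) (by omega)
      by_cases c1 : σ < 60
      · exact key 30 oki5_1 (by omega) (by omega)
      by_cases c2 : σ < 90
      · exact key 60 oki5_2 (by omega) (by omega)
      · exact key 90 oki5_3 (by omega) (by omega)
  rw [oki, frc_eq] at h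
  obtain ⟨τ, hτ, h2⟩ := anyR_iff.1 h
  rw [frc_eq, an_iff, allR_iff] at h2
  exact ⟨τ, hτ, fun r hr => Nat.eq_of_beq_eq_true (h2.1 r hr),
    fun ty hty => Nat.eq_of_beq_eq_true (allN_mem h2.2 ty hty)⟩

theorem anyN_beq {L : List ℕ} {x : ℕ} (h : anyN L (Nat.beq x) = true) : x ∈ L := by
  obtain ⟨y, hy, h1⟩ := anyN_mem h
  rw [Nat.eq_of_beq_eq_true h1]
  exact hy

theorem f_facts (k : ℕ) (hk : Rel k) : ∀ x ∈ Fl k, x.1 ∈ TyL k ∧ ∀ r ∈ x.2, r < nr k := by
  intro x hx
  have key : ∀ n, okF k n = true → x.1 ∈ TyL k ∧ ∀ r ∈ x.2, r < n := by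
    intro n h
    have h1 := allN_mem h x hx
    rw [an_iff] at h1
    exact ⟨anyN_beq h1.1, fun r hr => Nat.le_of_ble_eq_true (allN_mem h1.2 r hr)⟩
  rcases hk with rfl | rfl | rfl | rfl
  · exact key 1 okF0
  · exact key 4 okF3
  · exact key 38 okF4
  · exact key 290 okF5

theorem v_facts (k : ℕ) (hk : Rel k) (r : ℕ) (hr : r < nr k) (i : ℕ) (hi : i < k) :
    vc (dig (rp k r) i) = true := by
  have key : okr k r = true → vc (dig (rp k r) i) = true := by
    intro h
    rw [okr, frc_eq] at h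
    exact allR_iff.1 h i hi
  rcases hk with rfl | rfl | rfl | rfl
  · omega
  · exact key (allR_iff.1 okr3 r hr)
  · exact key (allR_iff.1 okr4 r hr)
  · exact key (allR_iff.1 okr5 r hr)

theorem ty_facts (k : ℕ) (hk : Rel k) (σ : ℕ) (hσ : σ < fc k) (ty : ℕ) (hty : ty ∈ TyL k) :
    actT k σ ty ∈ TyL k ∧ (∀ i < k, tb (actT k σ ty) i = tb ty (PM k σ i)) ∧
    ((∀ i < k, tb (t2 (actT k σ ty)) i = tb (t2 ty) (PM k σ i)) ∨
      ∀ i < k, tb (t2 (actT k σ ty)) i =
        (tb ty (PM k σ i)).xor (tb (t2 ty) (PM k σ i))) ∧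
    (actT k σ ty = 0 → ty = 0) ∧ (actT k σ ty = 1024 → ty = 1024) := by
  have h : okty k σ ty = true := by
    rcases hk with rfl | rfl | rfl | rfl
    · exact allN_mem (allR_iff.1 okty0 σ hσ) ty hty
    · exact allN_mem (allR_iff.1 okty3 σ hσ) ty hty
    · exact allN_mem (allR_iff.1 okty4 σ hσ) ty hty
    · exact allN_mem (allR_iff.1 okty5 σ hσ) ty hty
  rw [okty, frc_eq, frc_eq, frc_eq, an_iff, an_iff, an_iff, an_iff, oo_iff, oo_iff, oo_iff,
    allR_iff, allR_iff, allR_iff, nn_iff, nn_iff] at h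
  obtain ⟨h1, h2, h3, h4, h5⟩ := h
  have hxor : ∀ x y z : Bool, eqB x (nn (eqB y z)) = true → x = y.xor z := by decide
  refine ⟨anyN_beq h1, fun i hi => eqB_iff.1 (h2 i hi), ?_, fun h6 => ?_, fun h6 => ?_⟩
  · rcases h3 with h3 | h3
    · exact Or.inl fun i hi => eqB_iff.1 (h3 i hi)
    · exact Or.inr fun i hi => hxor _ _ _ (h3 i hi)
  · rcases h4 with h4 | h4
    · rw [h6] at h4; simp at h4
    · exact Nat.eq_of_beq_eq_true h4
  · rcases h5 with h5 | h5
    · rw [h6] at h5; simp at h5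
    · exact Nat.eq_of_beq_eq_true h5

variable {V E : Type} [Fintype E]

theorem mem_cut (s t : E → V) (Z : Set V) (e : E) :
    e ∈ cut s t Z ↔ ¬ (s e ∈ Z ↔ t e ∈ Z) := by
  classical
  unfold cut
  simp only [mem_filter, mem_univ, true_and]

theorem ord_card (s t : E → V) (X : Set V) (k : ℕ) (o : ℕ → E) (h : Ord s t X k o) :
    (cut s t X).card = k := by
  classical
  have h1 : cut s t X = (range k).image o := by
    ext e
    rw [h.2 e, mem_image]
    constructor
    · rintro ⟨i, hi, rfl⟩; exact ⟨i, mem_range.2 hi, rfl⟩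
    · rintro ⟨i, hi, rfl⟩; exact ⟨i, mem_range.1 hi, rfl⟩
  rw [h1, card_image_of_injOn, card_range]
  intro i hi j hj hij
  exact h.1 i (by simpa using hi) j (by simpa using hj) hij

theorem ord_perm (s t : E → V) (X : Set V) (k : ℕ) (hk : Rel k) (o : ℕ → E) (h : Ord s t X k o)
    (σ : ℕ) (hσ : σ < fc k) : Ord s t X k (fun i => o (PM k σ i)) := by
  obtain ⟨h1, h2, h3⟩ := pm_facts k hk σ hσ
  refine ⟨fun i hi j hj hij => h2 i hi j hj (h.1 _ (h1 i hi) _ (h1 j hj) hij), fun e => ?_⟩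
  rw [h.2 e]
  constructor
  · rintro ⟨i, hi, rfl⟩
    obtain ⟨j, hj, rfl⟩ := h3 i hi
    exact ⟨j, hj, rfl⟩
  · rintro ⟨i, hi, rfl⟩
    exact ⟨_, h1 i hi, rfl⟩

theorem st_perm (s t : E → V) (C : Set E) (X : Set V) (k : ℕ) (hk : Rel k) (o : ℕ → E) (r : ℕ)
    (hr : r < nr k) (h : HasSt s t C X k o (rp k r)) (σ : ℕ) (hσ : σ < fc k) :
    HasSt s t C X k (fun i => o (PM k σ i)) (rp k (act k σ r)) := by
  obtain ⟨f, hf1, hf2⟩ := h
  obtain ⟨h1, h2, h3⟩ := act_facts k hk σ hσ r hr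
  obtain ⟨h4, _, _⟩ := pm_facts k hk σ hσ
  refine ⟨fun e => pt (ag k σ r) (f e), act_good s t C X f _ h1 hf1, fun i hi => ?_⟩
  show pt (ag k σ r) (f (o (PM k σ i))) = _
  rw [hf2 _ (h4 i hi), h3 i hi]

/-! Parts of `C`. -/

theorem bd_congr (s t : E → V) (x y : E → ZMod 2) (v : V)
    (h : ∀ e, (s e = v ∨ t e = v) → x e = y e) : bd s t x v = bd s t y v := by
  classical
  unfold bd
  refine Finset.sum_congr rfl fun e _ => ?_
  by_cases h1 : s e = v
  · rw [h e (Or.inl h1)]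
  · by_cases h2 : t e = v
    · rw [h e (Or.inr h2)]
    · simp [h1, h2]

theorem bd_add (s t : E → V) (x y : E → ZMod 2) (v : V) :
    bd s t (fun e => x e + y e) v = bd s t x v + bd s t y v := by
  classical
  unfold bd
  rw [← Finset.sum_add_distrib]
  exact Finset.sum_congr rfl fun e _ => by ring

omit [Fintype E] in
theorem ic_in {Q : Set E} {e : E} (h : e ∈ Q) : ic Q e = 1 := if_pos h

omit [Fintype E] in
theorem ic_out {Q : Set E} {e : E} (h : e ∉ Q) : ic Q e = 0 := if_neg h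

omit [Fintype E] in
theorem ic_congr {Q R : Set E} {e : E} (h : e ∈ Q ↔ e ∈ R) : ic Q e = ic R e := by
  by_cases h1 : e ∈ Q
  · rw [ic_in h1, ic_in (h.1 h1)]
  · rw [ic_out h1, ic_out (fun h2 => h1 (h.2 h2))]

theorem ev_congr (s t : E → V) (Q R : Set E) (v : V)
    (h : ∀ e, (s e = v ∨ t e = v) → (e ∈ Q ↔ e ∈ R)) : bd s t (ic Q) v = bd s t (ic R) v :=
  bd_congr s t _ _ v fun e he => ic_congr (h e he)

theorem ev_empty (s t : E → V) (v : V) : bd s t (ic (∅ : Set E)) v = 0 := by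
  classical
  unfold bd
  refine Finset.sum_eq_zero fun e _ => ?_
  rw [ic_out (Set.notMem_empty e), zero_mul]

theorem inR_zero (s t : E → V) (C : Set E) (X : Set V) (k : ℕ) (o : ℕ → E) (m : ℕ)
    (h : ∀ i < k, tb m i = false) : InR s t C X k o m := by
  refine ⟨∅, Set.empty_subset _, fun e he => absurd he (Set.notMem_empty e),
    fun v _ => ev_empty s t v, fun i hi => ?_⟩
  rw [h i hi]
  simp

theorem inR_full (s t : E → V) (C : Set E) (X : Set V) (k : ℕ) (o : ℕ → E) (hC : Ev s t C X)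
    (ho : Ord s t X k o) (m : ℕ) (h : ∀ i < k, (o i ∈ C ↔ tb m i = true)) :
    InR s t C X k o m := by
  refine ⟨{e | e ∈ C ∧ tch s t X e}, fun e he => he.1, fun e he => he.2, fun v hv => ?_,
    fun i hi => ?_⟩
  · rw [← hC v hv]
    refine ev_congr s t _ _ v fun e he => ⟨fun h => h.1, fun h => ⟨h, ?_⟩⟩
    rcases he with he | he
    · exact Or.inl (he ▸ hv)
    · exact Or.inr (he ▸ hv)
  · rw [← h i hi]
    refine ⟨fun h => h.1, fun h => ⟨h, ?_⟩⟩
    have h1 : o i ∈ cut s t X := (ho.2 _).2 ⟨i, hi, rfl⟩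
    rw [mem_cut] at h1
    unfold tch
    by_contra h2
    push Not at h2
    exact h1 ⟨fun h' => absurd h' h2.1, fun h' => absurd h' h2.2⟩

theorem inR_congr (s t : E → V) (C : Set E) (X : Set V) (k : ℕ) (o : ℕ → E) (m m' : ℕ)
    (h : ∀ i < k, tb m' i = tb m i) (hm : InR s t C X k o m) : InR s t C X k o m' := by
  obtain ⟨Q, h1, h2, h3, h4⟩ := hm
  exact ⟨Q, h1, h2, h3, fun i hi => by rw [h4 i hi, h i hi]⟩

theorem inR_compl (s t : E → V) (C : Set E) (X : Set V) (k : ℕ) (o : ℕ → E) (hC : Ev s t C X)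
    (ho : Ord s t X k o) (m M m' : ℕ) (hM : ∀ i < k, (o i ∈ C ↔ tb M i = true))
    (h : ∀ i < k, tb m' i = (tb M i).xor (tb m i)) (hm : InR s t C X k o m) :
    InR s t C X k o m' := by
  obtain ⟨Q, h1, h2, h3, h4⟩ := hm
  obtain ⟨R, g1, g2, g3, g4⟩ := inR_full s t C X k o hC ho M hM
  refine ⟨{e | e ∈ C ∧ tch s t X e ∧ e ∉ Q}, fun e he => he.1, fun e he => he.2.1,
    fun v hv => ?_, fun i hi => ?_⟩
  · have e1 : bd s t (ic {e | e ∈ C ∧ tch s t X e ∧ e ∉ Q}) v =
        bd s t (fun e => ic C e + ic Q e) v := by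
      refine bd_congr s t _ _ v fun e he => ?_
      have ht : tch s t X e := by
        rcases he with he | he
        · exact Or.inl (he ▸ hv)
        · exact Or.inr (he ▸ hv)
      by_cases hQ : e ∈ Q
      · rw [ic_out (fun h => h.2.2 hQ), ic_in hQ, ic_in (h1 hQ)]
        decide
      · by_cases hC' : e ∈ C
        · rw [ic_in (show e ∈ {e | e ∈ C ∧ tch s t X e ∧ e ∉ Q} from ⟨hC', ht, hQ⟩), ic_out hQ,
            ic_in hC']
          decide
        · rw [ic_out (fun h => hC' h.1), ic_out hQ, ic_out hC']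
          decide
    rw [e1, bd_add, hC v hv, h3 v hv, add_zero]
  · have h5 : o i ∈ cut s t X := (ho.2 _).2 ⟨i, hi, rfl⟩
    rw [mem_cut] at h5
    have ht : tch s t X (o i) := by
      unfold tch
      by_contra h2
      push Not at h2
      exact h5 ⟨fun h' => absurd h' h2.1, fun h' => absurd h' h2.2⟩
    have a1 := hM i hi
    have a2 := h4 i hi
    have a3 : o i ∈ Q → o i ∈ C := fun h => h1 h
    rw [h i hi]
    show (o i ∈ C ∧ tch s t X (o i) ∧ o i ∉ Q) ↔ _
    rw [a1, a2] at *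
    revert a3
    cases tb M i <;> cases tb m i <;> simp [ht]

theorem inR_perm (s t : E → V) (C : Set E) (X : Set V) (k : ℕ) (hk : Rel k) (o : ℕ → E) (σ : ℕ)
    (hσ : σ < fc k) (m m' : ℕ) (h : ∀ i < k, tb m' i = tb m (PM k σ i))
    (hm : InR s t C X k o m) : InR s t C X k (fun i => o (PM k σ i)) m' := by
  obtain ⟨Q, h1, h2, h3, h4⟩ := hm
  obtain ⟨h5, _, _⟩ := pm_facts k hk σ hσ
  refine ⟨Q, h1, h2, h3, fun i hi => ?_⟩
  rw [h i hi]
  exact h4 _ (h5 i hi)

/-- All masks of a type. -/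
theorem inR_rm (s t : E → V) (C : Set E) (X : Set V) (k : ℕ) (hk : k ≤ 5) (o : ℕ → E)
    (hC : Ev s t C X) (ho : Ord s t X k o) (ty : ℕ) (hty : TyOK s t C X k o ty) (j : ℕ)
    (hj : j < 4) : InR s t C X k o (rm ty j) := by
  have hM : ∀ i < k, tb (ty % 32) i = tb ty i := by
    intro i hi
    rw [tb_eq, tb_eq, show (32 : ℕ) = 2 ^ 5 from rfl, Nat.testBit_mod_two_pow]
    simp only [show i < 5 by omega, decide_true, Bool.true_and]
  have hM' : ∀ i < k, (o i ∈ C ↔ tb (ty % 32) i = true) := by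
    intro i hi
    rw [hM i hi]
    exact hty.1 i hi
  interval_cases j
  · exact inR_zero s t C X k o _ (fun i _ => by rw [tb_eq]; exact Nat.zero_testBit i)
  · exact inR_full s t C X k o hC ho _ hM'
  · exact hty.2.1
  · refine inR_compl s t C X k o hC ho _ _ _ hM' (fun i _ => ?_) hty.2.1
    show tb (ty % 32 ^^^ t2 ty) i = _
    rw [tb_eq, tb_eq, tb_eq, Nat.testBit_xor]

theorem ty_perm (s t : E → V) (C : Set E) (X : Set V) (k : ℕ) (hk : Rel k) (o : ℕ → E)
    (hC : Ev s t C X) (ho : Ord s t X k o) (ty : ℕ) (hty : ty ∈ TyL k)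
    (h : TyOK s t C X k o ty) (σ : ℕ) (hσ : σ < fc k) :
    TyOK s t C X k (fun i => o (PM k σ i)) (actT k σ ty) := by
  obtain ⟨h1, h2, h3, h4, h5⟩ := ty_facts k hk σ hσ ty hty
  obtain ⟨h6, _, _⟩ := pm_facts k hk σ hσ
  have h' := h
  obtain ⟨a1, a2, a3, a4⟩ := h'
  have b1 : ∀ i < k, (o (PM k σ i) ∈ C ↔ tb (actT k σ ty) i = true) := by
    intro i hi
    rw [h2 i hi]
    exact a1 _ (h6 i hi)
  refine ⟨b1, ?_, fun h0 => a3 (h4 h0), fun h0 => a4 (h5 h0)⟩
  rcases h3 with h3 | h3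
  · exact inR_perm s t C X k hk o σ hσ _ _ h3 a2
  · have ho' := ord_perm s t X k hk o ho σ hσ
    obtain ⟨Q, q1, q2, q3, q4⟩ := a2
    -- the complement is taken before permuting
    have c2 : InR s t C X k o (rm ty 3) := by
      refine inR_rm s t C X k ?_ o hC ho ty ⟨a1, ⟨Q, q1, q2, q3, q4⟩, a3, a4⟩ 3 (by norm_num)
      rcases hk with rfl | rfl | rfl | rfl <;> norm_num
    refine inR_perm s t C X k hk o σ hσ _ _ (fun i hi => ?_) c2
    rw [h3 i hi]
    have hM : tb (ty % 32) (PM k σ i) = tb ty (PM k σ i) := by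
      have := h6 i hi
      rw [tb_eq, tb_eq, show (32 : ℕ) = 2 ^ 5 from rfl, Nat.testBit_mod_two_pow]
      have h7 : PM k σ i < 5 := by
        rcases hk with rfl | rfl | rfl | rfl <;> omega
      simp only [h7, decide_true, Bool.true_and]
    rw [← hM]
    show _ = tb (ty % 32 ^^^ t2 ty) (PM k σ i)
    rw [tb_eq, tb_eq, tb_eq, Nat.testBit_xor]

end Pool.Agent.TH849.SC
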