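import Pool.Agent.TH849.SC.Red

/-!
The theorem for multigraphs given by the map from the edges to the pairs of their ends.
-/

set_option autoImplicit false

open Finset

namespace Pool.Agent.TH849.SC

variable {V E : Type}

/-- First end. -/
noncomputable def sE (ends : E → Sym2 V) (e : E) : V := (Quot.out (ends e)).1
/-- Second end. -/
noncomputable def tE (ends : E → Sym2 V) (e : E) : V := (Quot.out (ends e)).2

lemma st_mk (ends : E → Sym2 V) (e : E) : s(sE ends e, tE ends e) = ends e := by
  unfold sE tE
  exact Quot.out_eq (ends e)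

lemma bdry_iff (ends : E → Sym2 V) (Z : Set V) (e : E) :
    e ∈ bdry ends Z ↔ ¬ (sE ends e ∈ Z ↔ tE ends e ∈ Z) := by
  constructor
  · rintro ⟨u, v, huv, hu, hv⟩
    rw [← st_mk ends e, Sym2.eq_iff] at huv
    rcases huv with ⟨h1, h2⟩ | ⟨h1, h2⟩ <;> rw [h1, h2]
    · exact fun h => hv (h.1 hu)
    · exact fun h => hv (h.2 hu)
  · intro h
    by_cases hs : sE ends e ∈ Z
    · exact ⟨_, _, (st_mk ends e).symm, hs, fun ht => h ⟨fun _ => ht, fun _ => hs⟩⟩
    · have ht : tE ends e ∈ Z := by
        by_contra h'
        exact h ⟨fun h2 => absurd h2 hs, fun h2 => absurd h2 h'⟩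
      exact ⟨_, _, by rw [Sym2.eq_swap]; exact (st_mk ends e).symm, ht, hs⟩

lemma cut_card [Fintype E] (ends : E → Sym2 V) (Z : Set V) :
    (cut (sE ends) (tE ends) Z).card = (bdry ends Z).ncard := by
  have h1 : bdry ends Z = ((cut (sE ends) (tE ends) Z : Finset E) : Set E) := by
    ext e
    rw [bdry_iff, mem_coe, mem_cut]
  rw [h1, Set.ncard_coe_finset]

lemma width_conv [Fintype E] (ends : E → Sym2 V) (w : ℕ) (T : Tr V)
    (h : T.CarvWidth ends w) : T.Width (sE ends) (tE ends) w := by
  induction T with
  | leaf v =>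
    show (cut (sE ends) (tE ends) {v}).card ≤ w
    rw [cut_card]
    exact h
  | node l r ihl ihr =>
    refine ⟨?_, ihl h.2.1, ihr h.2.2⟩
    rw [cut_card]
    exact h.1

variable [DecidableEq V] [DecidableEq E]

theorem even_parts (ends : E → Sym2 V) : ∀ (n : ℕ) (S : Finset E), S.card ≤ n →
    EvenSet ends S → ∃ F : Multiset (Finset E), (∀ A ∈ F, Circ ends A) ∧
      ∀ e, F.countP (fun A : Finset E => e ∈ A) = if e ∈ S then 1 else 0 := by
  classical
  intro n
  induction n with
  | zero =>
    intro S hS _
    have : S = ∅ := by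
      rw [← Finset.card_eq_zero]; omega
    subst this
    exact ⟨0, by simp, by simp⟩
  | succ n ih =>
    intro S hS hev
    by_cases h0 : S = ∅
    · subst h0
      exact ⟨0, by simp, by simp⟩
    · -- a minimal nonempty even subset
      have hne : S.Nonempty := Finset.nonempty_iff_ne_empty.2 h0
      obtain ⟨A, hA, hmin⟩ := Finset.exists_min_image
        (S.powerset.filter (fun A => A.Nonempty ∧ EvenSet ends A)) (fun A => A.card)
        ⟨S, by simp [hne, hev]⟩
      rw [mem_filter, mem_powerset] at hA
      obtain ⟨hAS, hAne, hAev⟩ := hA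
      have hcirc : Circ ends A := by
        refine ⟨hAne, hAev, fun T hT hTne hTev => ?_⟩
        have h1 := hmin T (by
          rw [mem_filter, mem_powerset]
          exact ⟨hT.trans hAS, hTne, hTev⟩)
        exact Finset.eq_of_subset_of_card_le hT h1
      have hrest : EvenSet ends (S \ A) := by
        intro v
        have h1 : (S \ A).filter (fun f => v ∈ ends f) =
            (S.filter (fun f => v ∈ ends f)) \ (A.filter (fun f => v ∈ ends f)) := by
          ext f
          simp only [mem_filter, mem_sdiff]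
          tauto
        rw [h1, Finset.card_sdiff_of_subset (Finset.filter_subset_filter _ hAS)]
        exact (Nat.even_sub (Finset.card_le_card (Finset.filter_subset_filter _ hAS))).2
          (iff_of_true (hev v) (hAev v))
      have hcard : (S \ A).card ≤ n := by
        rw [Finset.card_sdiff_of_subset hAS]
        have := Finset.card_pos.2 hAne
        omega
      obtain ⟨F, hF1, hF2⟩ := ih (S \ A) hcard hrest
      refine ⟨A ::ₘ F, ?_, ?_⟩
      · intro B hB
        rcases Multiset.mem_cons.1 hB with rfl | hB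
        · exact hcirc
        · exact hF1 B hB
      · intro e
        rw [Multiset.countP_cons, hF2 e]
        by_cases h1 : e ∈ A
        · have h2 : e ∈ S := hAS h1
          simp [h1, h2]
        · by_cases h2 : e ∈ S <;> simp [h1, h2]

theorem parity [Fintype E] (ends : E → Sym2 V) (hloop : ∀ e : E, ¬ (ends e).IsDiag)
    (S : Finset E) (v : V) :
    bd (sE ends) (tE ends) (ic (S : Set E)) v =
      ((S.filter (fun f : E => v ∈ ends f)).card : ZMod 2) := by
  classical
  have h1 : bd (sE ends) (tE ends) (ic (S : Set E)) v =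
      ∑ e, if e ∈ S.filter (fun f : E => v ∈ ends f) then (1 : ZMod 2) else 0 := by
    unfold bd
    refine Finset.sum_congr rfl fun e _ => ?_
    have hne : sE ends e ≠ tE ends e := by
      intro h
      apply hloop e
      rw [← st_mk ends e, h]
      exact Sym2.mk_isDiag_iff.2 rfl
    have hmem : v ∈ ends e ↔ (sE ends e = v ∨ tE ends e = v) := by
      rw [← st_mk ends e, Sym2.mem_iff]
      constructor
      · rintro (h | h)
        · exact Or.inl h.symm
        · exact Or.inr h.symm
      · rintro (h | h)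
        · exact Or.inl h.symm
        · exact Or.inr h.symm
    by_cases hS : e ∈ S
    · rw [ic_in (show e ∈ (S : Set E) from hS), one_mul]
      by_cases h2 : sE ends e = v
      · have h3 : tE ends e ≠ v := fun h => hne (h2.trans h.symm)
        rw [if_pos h2, if_neg h3, if_pos (mem_filter.2 ⟨hS, hmem.2 (Or.inl h2)⟩), add_zero]
      · by_cases h3 : tE ends e = v
        · rw [if_neg h2, if_pos h3, if_pos (mem_filter.2 ⟨hS, hmem.2 (Or.inr h3)⟩), zero_add]
        · rw [if_neg h2, if_neg h3, if_neg, add_zero]
          intro h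
          rcases hmem.1 (mem_filter.1 h).2 with h | h
          · exact h2 h
          · exact h3 h
    · rw [ic_out (show e ∉ (S : Set E) from hS), zero_mul, if_neg]
      exact fun h => hS (mem_filter.1 h).1
  rw [h1, Finset.sum_ite_mem, Finset.univ_inter, Finset.sum_const, nsmul_eq_mul, mul_one]

theorem evenSet_iff [Fintype E] (ends : E → Sym2 V) (hloop : ∀ e : E, ¬ (ends e).IsDiag)
    (S : Finset E) : EvenSet ends S ↔ Ev (sE ends) (tE ends) (S : Set E) Set.univ := by
  constructor
  · intro h v _
    rw [parity ends hloop, ZMod.natCast_eq_zero_iff_even]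
    exact h v
  · intro h v
    have h1 := h v (Set.mem_univ v)
    rw [parity ends hloop, ZMod.natCast_eq_zero_iff_even] at h1
    exact h1

theorem main [Fintype E] (ends : E → Sym2 V) (hloop : ∀ e : E, ¬ (ends e).IsDiag)
    (hdeg : ∀ v : V, (univ.filter (fun e : E => v ∈ ends e)).card ≤ 3)
    (hbr : ∀ e : E, ∃ S : Finset E, e ∈ S ∧ EvenSet ends S)
    (T : Tr V) (hT : T.set = Set.univ) (hN : T.Nodup) (hW : T.CarvWidth ends 5)
    (C : Finset E) (hC : Circ ends C) :
    ∃ A : Fin 5 → Finset E, (∀ i, EvenSet ends (A i)) ∧ C ⊆ A 0 ∧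
      ∀ e, (univ.filter (fun i => e ∈ A i)).card = 2 := by
  classical
  have hctx : Ctx (sE ends) (tE ends) (C : Set E) T.set := by
    rw [hT]
    refine ⟨fun e => ⟨Set.mem_univ _, Set.mem_univ _⟩, (evenSet_iff ends hloop C).1 hC.2.1,
      fun Q hQ hev => ?_⟩
    have hfin : ((univ.filter (fun e => e ∈ Q) : Finset E) : Set E) = Q := by
      ext e; simp
    by_cases h0 : Q = ∅
    · exact Or.inl h0
    · right
      have h1 := hC.2.2 (univ.filter (fun e => e ∈ Q)) (by
          intro e he
          exact hQ (mem_filter.1 he).2) (by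
          obtain ⟨e, he⟩ := Set.nonempty_iff_ne_empty.2 h0
          exact ⟨e, mem_filter.2 ⟨mem_univ e, he⟩⟩) (by
          rw [evenSet_iff ends hloop, hfin]
          exact hev)
      rw [← hfin, h1]
  obtain ⟨f, hf⟩ := main_ind T.size (sE ends) (tE ends) (C : Set E) T le_rfl hN
    (width_conv ends 5 T hW) hctx (fun v => by
      refine le_trans (Finset.card_le_card ?_) (hdeg v)
      intro e he
      rw [mem_cut, Set.mem_singleton_iff, Set.mem_singleton_iff] at he
      refine mem_filter.2 ⟨mem_univ e, ?_⟩
      rw [← st_mk ends e, Sym2.mem_iff]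
      by_contra h
      push Not at h
      exact he ⟨fun h' => absurd h'.symm h.1, fun h' => absurd h'.symm h.2⟩) (fun Z h1 => by
      obtain ⟨e, he⟩ := Finset.card_eq_one.1 h1
      obtain ⟨S, heS, hS⟩ := hbr e
      have h2 := cut_parity (sE ends) (tE ends) (ic (S : Set E)) Z
        (fun v _ => (evenSet_iff ends hloop S).1 hS v (Set.mem_univ v))
      rw [he, Finset.sum_singleton, ic_in (show e ∈ (S : Set E) from heS)] at h2
      exact absurd h2 (by decide))
  rw [hT] at hf
  obtain ⟨hf1, hf2, hf3⟩ := hf
  refine ⟨fun i => univ.filter (fun e => tb (f e) i = true), fun i => ?_, fun e he => ?_,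
    fun e => ?_⟩
  · rw [evenSet_iff ends hloop]
    intro v _
    rw [← hf3 v (Set.mem_univ v) i i.2]
    refine bd_congr _ _ _ _ v fun e _ => ?_
    unfold co
    cases h : tb (f e) i with
    | true => rw [ic_in (by simpa using h)]; rfl
    | false => rw [ic_out (by simpa using h)]; rfl
  · exact mem_filter.2 ⟨mem_univ e, hf2 e he⟩
  · have hlt := vc_lt _ (hf1 e)
    have hv := hf1 e
    have hcnt : ((List.range 32).all fun c => !(vc c) || decide ((univ.filter (fun i : Fin 5 =>
        tb c i = true)).card = 2)) = true := by decide +kernel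
    have h1 := (List.all_eq_true.1 hcnt) (f e) (List.mem_range.2 hlt)
    rw [hv] at h1
    simp only [Bool.not_true, Bool.false_or, decide_eq_true_eq] at h1
    rw [← h1]
    congr 1
    ext i
    simp

theorem final [Fintype E] (ends : E → Sym2 V) (hloop : ∀ e : E, ¬ (ends e).IsDiag)
    (hdeg : ∀ v : V, (univ.filter (fun e : E => v ∈ ends e)).card ≤ 3)
    (hbr : ∀ e : E, ∃ S : Finset E, e ∈ S ∧ EvenSet ends S)
    (T : Tr V) (hT : T.set = Set.univ) (hN : T.Nodup) (hW : T.CarvWidth ends 5)
    (C : Finset E) (hC : Circ ends C) :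
    ∃ F : Fin 5 → Multiset (Finset E), C ∈ F 0 ∧ (∀ i, ∀ A ∈ F i, Circ ends A) ∧
      (∀ i e, (F i).countP (fun A : Finset E => e ∈ A) ≤ 1) ∧
      ∀ e, ∑ i, (F i).countP (fun A : Finset E => e ∈ A) = 2 := by
  classical
  obtain ⟨A, hA1, hA2, hA3⟩ := main ends hloop hdeg hbr T hT hN hW C hC
  have hrest : EvenSet ends (A 0 \ C) := by
    intro v
    have h1 : (A 0 \ C).filter (fun f => v ∈ ends f) =
        ((A 0).filter (fun f => v ∈ ends f)) \ (C.filter (fun f => v ∈ ends f)) := by
      ext f
      simp only [mem_filter, mem_sdiff]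
      tauto
    rw [h1, Finset.card_sdiff_of_subset (Finset.filter_subset_filter _ hA2)]
    exact (Nat.even_sub (Finset.card_le_card (Finset.filter_subset_filter _ hA2))).2
      (iff_of_true (hA1 0 v) (hC.2.1 v))
  obtain ⟨F0, hF01, hF02⟩ := even_parts ends _ (A 0 \ C) le_rfl hrest
  have key : ∀ i, ∃ F : Multiset (Finset E), (i = 0 → C ∈ F) ∧ (∀ B ∈ F, Circ ends B) ∧
      ∀ e, F.countP (fun B : Finset E => e ∈ B) = if e ∈ A i then 1 else 0 := by
    intro i
    by_cases hi : i = 0
    · subst hi
      refine ⟨C ::ₘ F0, fun _ => Multiset.mem_cons_self _ _, ?_, ?_⟩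
      · intro B hB
        rcases Multiset.mem_cons.1 hB with rfl | hB
        · exact hC
        · exact hF01 B hB
      · intro e
        rw [Multiset.countP_cons, hF02 e]
        by_cases h1 : e ∈ C
        · have h2 : e ∈ A 0 := hA2 h1
          simp [h1, h2]
        · by_cases h2 : e ∈ A 0 <;> simp [h1, h2]
    · obtain ⟨F, hF1, hF2⟩ := even_parts ends _ (A i) le_rfl (hA1 i)
      exact ⟨F, fun h => absurd h hi, hF1, hF2⟩
  choose F hF1 hF2 hF3 using key
  refine ⟨F, hF1 0 rfl, hF2, fun i e => ?_, fun e => ?_⟩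
  · rw [hF3]
    split_ifs <;> norm_num
  · rw [Finset.sum_congr rfl (fun i _ => hF3 i e), ← hA3 e, Finset.card_filter]

end Pool.Agent.TH849.SC
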