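import Pool.Agent.TH849.SC.Ends2

/-!
The union of two pieces: states and types.
-/

set_option autoImplicit false

open Finset

namespace Pool.Agent.TH849.SC

variable {V E : Type} [Fintype E]

theorem mem_cut_union (s t : E → V) (X Y : Set V) (hd : Disjoint X Y) (e : E) :
    e ∈ cut s t (X ∪ Y) ↔ (e ∈ cut s t X ∧ e ∉ cut s t Y) ∨ (e ∈ cut s t Y ∧ e ∉ cut s t X) := by
  have h : ∀ v, v ∈ X → v ∉ Y := fun v hv => Set.disjoint_left.mp hd hv
  have h1 := h (s e)
  have h2 := h (t e)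
  simp only [mem_cut, Set.mem_union]
  tauto

/-- Two pieces whose ends are numbered in the standard way. -/
structure Std (s t : E → V) (X Y : Set V) (a b c : ℕ) (oX oY o : ℕ → E) : Prop where
  hd : Disjoint X Y
  hca : c ≤ a
  hcb : c ≤ b
  hX : Ord s t X a oX
  hY : Ord s t Y b oY
  hsh : ∀ i < c, oX (a - c + i) = oY i
  hfX : ∀ i < a - c, oX i ∉ cut s t Y
  hfY : ∀ i < b - c, oY (c + i) ∉ cut s t X
  ho1 : ∀ i < a - c, o i = oX i
  ho2 : ∀ i < b - c, o (a - c + i) = oY (c + i)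

variable {s t : E → V} {C : Set E} {X Y U : Set V} {a b c : ℕ} {oX oY o : ℕ → E}

theorem Std.shared (h : Std s t X Y a b c oX oY o) (e : E) (h1 : tch s t X e)
    (h2 : tch s t Y e) : ∃ i < c, oX (a - c + i) = e ∧ oY i = e := by
  have hdis : ∀ v, v ∈ X → v ∉ Y := fun v hv => Set.disjoint_left.mp h.hd hv
  have g1 := hdis (s e)
  have g2 := hdis (t e)
  unfold tch at h1 h2
  have hcX : e ∈ cut s t X := by rw [mem_cut]; tauto
  have hcY : e ∈ cut s t Y := by rw [mem_cut]; tauto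
  obtain ⟨x, hx, hxe⟩ := (h.hX.2 e).1 hcX
  have hxc : ¬ x < a - c := by
    intro hlt
    have := h.hfX x hlt
    rw [hxe] at this
    exact this hcY
  have h3 := h.hsh (x - (a - c)) (by omega)
  rw [show a - c + (x - (a - c)) = x by omega, hxe] at h3
  exact ⟨x - (a - c), by omega, by rw [show a - c + (x - (a - c)) = x by omega, hxe], h3.symm⟩

theorem tch_of_cut {X : Set V} {e : E} (h : e ∈ cut s t X) : tch s t X e := by
  rw [mem_cut] at h
  unfold tch
  by_contra h2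
  push Not at h2
  exact h ⟨fun h' => absurd h' h2.1, fun h' => absurd h' h2.2⟩

theorem Std.touchX (h : Std s t X Y a b c oX oY o) (i : ℕ) (hi : i < a) :
    tch s t X (oX i) := tch_of_cut ((h.hX.2 _).2 ⟨i, hi, rfl⟩)

theorem Std.touchY (h : Std s t X Y a b c oX oY o) (i : ℕ) (hi : i < b) :
    tch s t Y (oY i) := tch_of_cut ((h.hY.2 _).2 ⟨i, hi, rfl⟩)

theorem Std.cases (i : ℕ) (hca : c ≤ a) (hcb : c ≤ b) (hi : i < a + b - 2 * c) :
    i < a - c ∨ ∃ j < b - c, i = a - c + j := by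
  by_cases h : i < a - c
  · exact Or.inl h
  · exact Or.inr ⟨i - (a - c), by omega, by omega⟩

theorem Std.ord (h : Std s t X Y a b c oX oY o) : Ord s t (X ∪ Y) (a + b - 2 * c) o := by
  obtain ⟨hd, hca, hcb, hX, hY, hsh, hfX, hfY, ho1, ho2⟩ := h
  have hcase : ∀ i < a + b - 2 * c, i < a - c ∨ ∃ j < b - c, i = a - c + j :=
    fun i hi => Std.cases i hca hcb hi
  refine ⟨?_, ?_⟩
  · intro i hi j hj hij
    rcases hcase i hi with h1 | ⟨i', hi', rfl⟩
    · rcases hcase j hj with h2 | ⟨j', hj', rfl⟩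
      · rw [ho1 i h1, ho1 j h2] at hij
        exact hX.1 i (by omega) j (by omega) hij
      · rw [ho1 i h1, ho2 j' hj'] at hij
        have h3 := hfX i h1
        rw [hij] at h3
        exact absurd ((hY.2 _).2 ⟨c + j', by omega, rfl⟩) h3
    · rcases hcase j hj with h2 | ⟨j', hj', rfl⟩
      · rw [ho2 i' hi', ho1 j h2] at hij
        have h3 := hfX j h2
        rw [← hij] at h3
        exact absurd ((hY.2 _).2 ⟨c + i', by omega, rfl⟩) h3
      · rw [ho2 i' hi', ho2 j' hj'] at hij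
        have := hY.1 _ (by omega) _ (by omega) hij
        omega
  · intro e
    rw [mem_cut_union s t X Y hd]
    constructor
    · rintro (⟨h1, h2⟩ | ⟨h1, h2⟩)
      · obtain ⟨i, hi, rfl⟩ := (hX.2 e).1 h1
        by_cases h : i < a - c
        · exact ⟨i, by omega, ho1 i h⟩
        · exfalso
          have h3 := hsh (i - (a - c)) (by omega)
          rw [show a - c + (i - (a - c)) = i by omega] at h3
          rw [h3] at h2
          exact h2 ((hY.2 _).2 ⟨_, by omega, rfl⟩)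
      · obtain ⟨i, hi, rfl⟩ := (hY.2 e).1 h1
        by_cases h : i < c
        · exfalso
          rw [← hsh i h] at h2
          exact h2 ((hX.2 _).2 ⟨_, by omega, rfl⟩)
        · refine ⟨a - c + (i - c), by omega, ?_⟩
          rw [ho2 _ (by omega), show c + (i - c) = i by omega]
    · rintro ⟨i, hi, rfl⟩
      rcases hcase i hi with h1 | ⟨j, hj, rfl⟩
      · left
        rw [ho1 i h1]
        exact ⟨(hX.2 _).2 ⟨i, by omega, rfl⟩, hfX i h1⟩
      · right
        rw [ho2 j hj]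
        exact ⟨(hY.2 _).2 ⟨c + j, by omega, rfl⟩, hfY j hj⟩

/-- Gluing the states. -/
theorem Std.state (h : Std s t X Y a b c oX oY o) (r1 r2 r3 p q : ℕ) (hp : p < 24) (hq : q < 24)
    (hg : GlueP a b c r1 r2 r3 p q) (hsX : HasSt s t C X a oX (rp a r1))
    (hsY : HasSt s t C Y b oY (rp b r2)) :
    HasSt s t C (X ∪ Y) (a + b - 2 * c) o (rp (a + b - 2 * c) r3) := by
  classical
  obtain ⟨g1, g2, g3⟩ := hg
  obtain ⟨fX, gX, vX⟩ := hsX
  obtain ⟨fY, gY, vY⟩ := hsY
  have hdis : ∀ v, v ∈ X → v ∉ Y := fun v hv => Set.disjoint_left.mp h.hd hv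
  have gX' := act_good s t C X fX p hp gX
  have gY' := act_good s t C Y fY q hq gY
  obtain ⟨f, hf⟩ : ∃ f : E → ℕ, f = fun e => if tch s t X e then pt p (fX e)
    else pt q (fY e) := ⟨_, rfl⟩
  have hf1 : ∀ e, tch s t X e → f e = pt p (fX e) := fun e he => by
    rw [hf]; simp only [if_pos he]
  have hf2 : ∀ e, ¬ tch s t X e → f e = pt q (fY e) := fun e he => by
    rw [hf]; simp only [if_neg he]
  have hca := h.hca
  have hcb := h.hcb
  have hf3 : ∀ e, tch s t Y e → f e = pt q (fY e) := by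
    intro e he
    by_cases hx : tch s t X e
    · obtain ⟨i, hi, h1, h2⟩ := h.shared e hx he
      rw [hf1 e hx]
      have h3 := g1 i hi
      rw [← vX _ (by omega), ← vY _ (by omega), h1, h2] at h3
      exact h3
    · exact hf2 e hx
  refine ⟨f, ⟨?_, ?_, ?_⟩, ?_⟩
  · intro e
    by_cases hx : tch s t X e
    · rw [hf1 e hx]; exact gX'.1 e
    · rw [hf2 e hx]; exact gY'.1 e
  · intro e he
    by_cases hx : tch s t X e
    · rw [hf1 e hx]; exact gX'.2.1 e he
    · rw [hf2 e hx]; exact gY'.2.1 e he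
  · intro v hv i hi
    rcases hv with hv | hv
    · rw [← gX'.2.2 v hv i hi]
      refine bd_congr s t _ _ v fun e he => ?_
      rw [hf1 e (by rcases he with h | h <;> unfold tch <;> rw [h] <;> simp [hv])]
    · rw [← gY'.2.2 v hv i hi]
      refine bd_congr s t _ _ v fun e he => ?_
      rw [hf3 e (by rcases he with h | h <;> unfold tch <;> rw [h] <;> simp [hv])]
  · intro i hi
    rcases Std.cases i hca hcb hi with h1 | ⟨j, hj, rfl⟩
    · rw [h.ho1 i h1, ← g2 i h1, ← vX i (by omega), hf1 _ (h.touchX i (by omega))]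
    · rw [h.ho2 j hj, ← g3 j hj, ← vY _ (by omega), hf3 _ (h.touchY _ (by omega))]

/-- Gluing parts of the circuit. -/
theorem Std.part (h : Std s t X Y a b c oX oY o) (m1 m2 : ℕ) (h1 : InR s t C X a oX m1)
    (h2 : InR s t C Y b oY m2) (hm : ∀ i < c, tb m1 (a - c + i) = tb m2 i) :
    ∃ Q : Set E, Q ⊆ C ∧ (∀ e ∈ Q, tch s t (X ∪ Y) e) ∧ Ev s t Q (X ∪ Y) ∧
      (∀ i < a, (oX i ∈ Q ↔ tb m1 i = true)) ∧ ∀ i < b, (oY i ∈ Q ↔ tb m2 i = true) := by
  obtain ⟨Q1, a1, a2, a3, a4⟩ := h1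
  obtain ⟨Q2, b1, b2, b3, b4⟩ := h2
  have hca := h.hca
  have hcb := h.hcb
  have key1 : ∀ e, tch s t X e → (e ∈ Q1 ∪ Q2 ↔ e ∈ Q1) := by
    intro e he
    refine ⟨fun h' => ?_, fun h' => Or.inl h'⟩
    rcases h' with h' | h'
    · exact h'
    · obtain ⟨i, hi, e1, e2⟩ := h.shared e he (b2 e h')
      rw [← e1]
      rw [a4 _ (by omega), hm i hi]
      rw [← b4 i (by omega), e2]
      exact h'
  have key2 : ∀ e, tch s t Y e → (e ∈ Q1 ∪ Q2 ↔ e ∈ Q2) := by
    intro e he
    refine ⟨fun h' => ?_, fun h' => Or.inr h'⟩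
    rcases h' with h' | h'
    · obtain ⟨i, hi, e1, e2⟩ := h.shared e (a2 e h') he
      rw [← e2]
      rw [b4 _ (by omega), ← hm i hi]
      rw [← a4 _ (by omega), e1]
      exact h'
    · exact h'
  refine ⟨Q1 ∪ Q2, Set.union_subset a1 b1, ?_, ?_, ?_, ?_⟩
  · rintro e (he | he)
    · rcases a2 e he with h' | h'
      · exact Or.inl (Or.inl h')
      · exact Or.inr (Or.inl h')
    · rcases b2 e he with h' | h'
      · exact Or.inl (Or.inr h')
      · exact Or.inr (Or.inr h')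
  · intro v hv
    rcases hv with hv | hv
    · rw [← a3 v hv]
      refine ev_congr s t _ _ v fun e he => key1 e ?_
      rcases he with he | he
      · exact Or.inl (he ▸ hv)
      · exact Or.inr (he ▸ hv)
    · rw [← b3 v hv]
      refine ev_congr s t _ _ v fun e he => key2 e ?_
      rcases he with he | he
      · exact Or.inl (he ▸ hv)
      · exact Or.inr (he ▸ hv)
  · intro i hi
    rw [key1 _ (h.touchX i hi)]
    exact a4 i hi
  · intro i hi
    rw [key2 _ (h.touchY i hi)]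
    exact b4 i hi

/-- Closed parts of the circuit. -/
theorem closed_part (hC : Ctx s t C U) (Z : Set V) (k : ℕ) (o : ℕ → E) (ho : Ord s t Z k o)
    (Q : Set E) (h1 : Q ⊆ C) (h2 : ∀ e ∈ Q, tch s t Z e) (h3 : Ev s t Q Z)
    (h4 : ∀ i < k, o i ∉ Q) : (Q = ∅ ∨ Q = C) ∧ ∀ e ∈ Q, s e ∈ Z ∧ t e ∈ Z := by
  have h5 : ∀ e ∈ Q, s e ∈ Z ∧ t e ∈ Z := by
    intro e he
    have h6 := h2 e he
    have h7 : e ∉ cut s t Z := by
      intro h
      obtain ⟨i, hi, hie⟩ := (ho.2 e).1 h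
      exact h4 i hi (hie ▸ he)
    rw [mem_cut, not_not] at h7
    rcases h6 with h6 | h6
    · exact ⟨h6, h7.1 h6⟩
    · exact ⟨h7.2 h6, h6⟩
  refine ⟨hC.min Q h1 fun v _ => ?_, h5⟩
  by_cases hv : v ∈ Z
  · exact h3 v hv
  · rw [← ev_empty s t v]
    refine ev_congr s t _ _ v fun e he => ⟨fun h' => ?_, fun h' => absurd h' (Set.notMem_empty e)⟩
    exfalso
    have h6 := h5 e h'
    rcases he with he | he
    · rw [he] at h6; exact hv h6.1
    · rw [he] at h6; exact hv h6.2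

theorem agr_iff {a c m1 m2 : ℕ} : agr a c m1 m2 = true ↔ ∀ i < c, tb m1 (a - c + i) = tb m2 i := by
  unfold agr
  rw [allR_iff]
  exact forall₂_congr fun i _ => eqB_iff

theorem oz_iff {a b c m1 m2 : ℕ} : oz a b c m1 m2 = true ↔ (∀ i < a - c, tb m1 i = false) ∧
    ∀ i < b - c, tb m2 (c + i) = false := by
  unfold oz
  rw [an_iff, allR_iff, allR_iff]
  exact and_congr (forall₂_congr fun i _ => nn_iff) (forall₂_congr fun i _ => nn_iff)

theorem oe_iff {a b c m1 m2 m3 : ℕ} : oe a b c m1 m2 m3 = true ↔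
    (∀ i < a - c, tb m1 i = tb m3 i) ∧ ∀ i < b - c, tb m2 (c + i) = tb m3 (a - c + i) := by
  unfold oe
  rw [an_iff, allR_iff, allR_iff]
  exact and_congr (forall₂_congr fun i _ => eqB_iff) (forall₂_congr fun i _ => eqB_iff)

/-- The circuit meets the piece. -/
theorem touch_of (X : Set V) (a : ℕ) (oX : ℕ → E) (hX : Ord s t X a oX) (α : ℕ)
    (h : TyOK s t C X a oX α) (hnz : nz a α = true) : ∃ e ∈ C, tch s t X e := by
  unfold nz at hnz
  rw [oo_iff, anyR_iff] at hnz
  rcases hnz with h1 | ⟨i, hi, h1⟩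
  · obtain ⟨⟨e, he⟩, h2⟩ := h.2.2.2 (Nat.eq_of_beq_eq_true h1)
    exact ⟨e, he, Or.inl (h2 e he).1⟩
  · exact ⟨oX i, (h.1 i hi).2 h1, tch_of_cut ((hX.2 _).2 ⟨i, hi, rfl⟩)⟩

/-- Types that cannot occur together. -/
theorem Std.bad (h : Std s t X Y a b c oX oY o) (hC : Ctx s t C U) (hXU : X ⊆ U) (hYU : Y ⊆ U)
    (ha : a ≤ 5) (hb : b ≤ 5) (α β : ℕ) (hα : TyOK s t C X a oX α) (hβ : TyOK s t C Y b oY β)
    (hβ0 : β = 0 ∨ nz b β = true) (hα0 : α = 0 ∨ nz a α = true)
    (hbad : SC.bad a b c α β = true) : False := by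
  have hca := h.hca
  have hcb := h.hcb
  have hdis : ∀ v, v ∈ X → v ∉ Y := fun v hv => Set.disjoint_left.mp h.hd hv
  unfold SC.bad at hbad
  rw [oo_iff, oo_iff, oo_iff] at hbad
  rcases hbad with h1 | h1 | h1 | h1
  · rw [nn_iff, ← Bool.not_eq_true, agr_iff] at h1
    apply h1
    intro i hi
    have e1 := hα.1 (a - c + i) (by omega)
    have e2 := hβ.1 i (by omega)
    rw [h.hsh i hi] at e1
    have e3 := e1.symm.trans e2
    cases h4 : tb α (a - c + i) <;> cases h5 : tb β i <;> simp_all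
  · rw [an_iff, nn_iff, ← Bool.not_eq_true, Nat.beq_eq, Nat.beq_eq] at h1
    rcases hβ0 with h2 | h2
    · exact h1.2 h2
    · obtain ⟨e, he, h3⟩ := touch_of Y b oY h.hY β hβ h2
      have h4 := (hα.2.2.2 h1.1).2 e he
      rcases h3 with h3 | h3
      · exact hdis _ h4.1 h3
      · exact hdis _ h4.2 h3
  · rw [an_iff, nn_iff, ← Bool.not_eq_true, Nat.beq_eq, Nat.beq_eq] at h1
    rcases hα0 with h2 | h2
    · exact h1.2 h2
    · obtain ⟨e, he, h3⟩ := touch_of X a oX h.hX α hα h2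
      have h4 := (hβ.2.2.2 h1.1).2 e he
      rcases h3 with h3 | h3
      · exact hdis _ h3 h4.1
      · exact hdis _ h3 h4.2
  · rw [anyR_iff] at h1
    obtain ⟨j1, hj1, h1⟩ := h1
    rw [frc_eq, anyR_iff] at h1
    obtain ⟨j2, hj2, h1⟩ := h1
    rw [frc_eq, an_iff, an_iff, an_iff, agr_iff, oz_iff, anyR_iff, oo_iff, anyR_iff,
      anyR_iff] at h1
    obtain ⟨c1, ⟨c2, c3⟩, ⟨i0, hi0, c4⟩, c5⟩ := h1
    have evX : Ev s t C X := fun v hv => hC.ev v (hXU hv)
    have evY : Ev s t C Y := fun v hv => hC.ev v (hYU hv)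
    obtain ⟨Q, q1, q2, q3, q4, q5⟩ := h.part (rm α j1) (rm β j2)
      (inR_rm s t C X a ha oX evX h.hX α hα j1 hj1)
      (inR_rm s t C Y b hb oY evY h.hY β hβ j2 hj2) c1
    have hcl := closed_part hC (X ∪ Y) _ o h.ord Q q1 q2 q3 (by
      intro i hi
      rcases Std.cases i hca hcb hi with h1 | ⟨j, hj, rfl⟩
      · rw [h.ho1 i h1, q4 i (by omega), c2 i h1]
        simp
      · rw [h.ho2 j hj, q5 _ (by omega), c3 j hj]
        simp)
    rcases hcl.1 with h2 | h2
    · have h3 : oX i0 ∈ Q := (q4 i0 hi0).2 c4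
      rw [h2] at h3
      exact Set.notMem_empty _ h3
    · rcases c5 with ⟨i, hi, h3⟩ | ⟨i, hi, h3⟩
      · rw [an_iff, nn_iff] at h3
        have h4 : oX i ∈ C := (hα.1 i hi).2 h3.1
        rw [← h2, q4 i hi, h3.2] at h4
        simp at h4
      · rw [an_iff, nn_iff] at h3
        have h4 : oY i ∈ C := (hβ.1 i hi).2 h3.1
        rw [← h2, q5 i hi, h3.2] at h4
        simp at h4

/-- The type of the union. -/
theorem Std.type (h : Std s t X Y a b c oX oY o) (hC : Ctx s t C U) (hXU : X ⊆ U) (hYU : Y ⊆ U)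
    (ha : a ≤ 5) (hb : b ≤ 5) (α β γ : ℕ) (hα : TyOK s t C X a oX α) (hβ : TyOK s t C Y b oY β)
    (hglu : glu a b c α β γ = true) : TyOK s t C (X ∪ Y) (a + b - 2 * c) o γ := by
  have hca := h.hca
  have hcb := h.hcb
  unfold glu at hglu
  rw [an_iff, an_iff, an_iff, oe_iff, anyR_iff, oo_iff, oo_iff] at hglu
  obtain ⟨⟨g1, g2⟩, ⟨j1, hj1, g3⟩, g4, g5⟩ := hglu
  rw [frc_eq, anyR_iff] at g3
  obtain ⟨j2, hj2, g3⟩ := g3
  rw [frc_eq, an_iff, agr_iff, oe_iff] at g3
  obtain ⟨c1, c2, c3⟩ := g3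
  have evX : Ev s t C X := fun v hv => hC.ev v (hXU hv)
  have evY : Ev s t C Y := fun v hv => hC.ev v (hYU hv)
  have hbits : ∀ i < a + b - 2 * c, (o i ∈ C ↔ tb γ i = true) := by
    intro i hi
    rcases Std.cases i hca hcb hi with h1 | ⟨j, hj, rfl⟩
    · rw [h.ho1 i h1, ← g1 i h1]
      exact hα.1 i (by omega)
    · rw [h.ho2 j hj, ← g2 j hj]
      exact hβ.1 _ (by omega)
  refine ⟨hbits, ?_, ?_, ?_⟩
  · obtain ⟨Q, q1, q2, q3, q4, q5⟩ := h.part (rm α j1) (rm β j2)
      (inR_rm s t C X a ha oX evX h.hX α hα j1 hj1)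
      (inR_rm s t C Y b hb oY evY h.hY β hβ j2 hj2) c1
    refine ⟨Q, q1, q2, q3, fun i hi => ?_⟩
    rcases Std.cases i hca hcb hi with h1 | ⟨j, hj, rfl⟩
    · rw [h.ho1 i h1, q4 i (by omega), c2 i h1]
    · rw [h.ho2 j hj, q5 _ (by omega), c3 j hj]
  · intro h0
    rw [h0] at g4
    rcases g4 with g4 | g4
    · simp [nn] at g4
    · rw [an_iff, Nat.beq_eq, Nat.beq_eq] at g4
      intro e he hte
      have h1 := hα.2.2.1 g4.1 e he
      have h2 := hβ.2.2.1 g4.2 e he
      unfold tch at h1 h2 hte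
      rcases hte with (h3 | h3) | (h3 | h3)
      · exact h1 (Or.inl h3)
      · exact h2 (Or.inl h3)
      · exact h1 (Or.inr h3)
      · exact h2 (Or.inr h3)
  · intro h0
    rw [h0] at g5
    rcases g5 with g5 | g5
    · simp [nn] at g5
    · rw [an_iff, oz_iff, oo_iff] at g5
      obtain ⟨⟨z1, z2⟩, z3⟩ := g5
      obtain ⟨e0, he0, ht0⟩ : ∃ e ∈ C, tch s t (X ∪ Y) e := by
        rcases z3 with z3 | z3
        · obtain ⟨e, he, h1⟩ := touch_of X a oX h.hX α hα z3
          refine ⟨e, he, ?_⟩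
          rcases h1 with h1 | h1
          · exact Or.inl (Or.inl h1)
          · exact Or.inr (Or.inl h1)
        · obtain ⟨e, he, h1⟩ := touch_of Y b oY h.hY β hβ z3
          refine ⟨e, he, ?_⟩
          rcases h1 with h1 | h1
          · exact Or.inl (Or.inr h1)
          · exact Or.inr (Or.inr h1)
      have hcl := closed_part hC (X ∪ Y) _ o h.ord {e | e ∈ C ∧ tch s t (X ∪ Y) e}
        (fun e he => he.1) (fun e he => he.2) (fun v hv => by
          have hvU : v ∈ U := by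
            rcases hv with hv | hv
            · exact hXU hv
            · exact hYU hv
          rw [← hC.ev v hvU]
          refine ev_congr s t _ _ v fun e he => ⟨fun h => h.1, fun h => ⟨h, ?_⟩⟩
          rcases he with he | he
          · exact Or.inl (he ▸ hv)
          · exact Or.inr (he ▸ hv)) (by
          intro i hi h'
          have h1 := (hbits i hi).1 h'.1
          rcases Std.cases i hca hcb hi with h2 | ⟨j, hj, rfl⟩
          · rw [← g1 i h2, z1 i h2] at h1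
            simp at h1
          · rw [← g2 j hj, z2 j hj] at h1
            simp at h1)
      have hQ : {e | e ∈ C ∧ tch s t (X ∪ Y) e} = C := by
        rcases hcl.1 with h2 | h2
        · exfalso
          have h3 : e0 ∈ ({e | e ∈ C ∧ tch s t (X ∪ Y) e} : Set E) := ⟨he0, ht0⟩
          rw [h2] at h3
          exact Set.notMem_empty _ h3
        · exact h2
      refine ⟨⟨e0, he0⟩, fun e he => hcl.2 e ?_⟩
      rw [hQ]
      exact he

end Pool.Agent.TH849.SC
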