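import Pool.Agent.TH849.SC.Sound

/-!
Which ends of the first piece are glued to which ends of the second one.
-/

set_option autoImplicit false
set_option maxRecDepth 100000

namespace Pool.Agent.TH849.SC

/-- `f` holds for all extensions of a list by `n` entries (at most `b`; the entries different from
`b` are different). -/
noncomputable def apat (b : ℕ) (f : List ℕ → Bool) : ℕ → List ℕ → Bool :=
  Nat.rec f (fun _ ih l => allR (Nat.succ b) (fun y =>
    oo (an (nn (Nat.beq y b)) (anyN l (Nat.beq y))) (ih (y :: l))))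

theorem apat_sound (b : ℕ) (f : List ℕ → Bool) : ∀ (n : ℕ) (l : List ℕ), apat b f n l = true →
    ∀ m : List ℕ, m.length = n → (∀ y ∈ m, y ≤ b) →
    (m ++ l).Pairwise (fun y z => y = z → y = b) → f (m ++ l) = true := by
  intro n
  induction n with
  | zero =>
    intro l h m hm _ _
    rw [List.length_eq_zero_iff] at hm
    subst hm
    exact h
  | succ n ih =>
    intro l h m hm hb hp
    have h' : allR (Nat.succ b) (fun y =>
      oo (an (nn (Nat.beq y b)) (anyN l (Nat.beq y))) (apat b f n (y :: l))) = true := h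
    rcases List.eq_nil_or_concat m with rfl | ⟨m', y, rfl⟩
    · simp at hm
    · have hlen : m'.length = n := by simpa using hm
      have hy : y ≤ b := hb y (by simp)
      have h1 := allR_iff.1 h' y (Nat.lt_succ_of_le hy)
      have e1 : m'.concat y ++ l = m' ++ (y :: l) := by simp
      rw [e1] at hp ⊢
      rw [oo_iff] at h1
      rcases h1 with h1 | h1
      · exfalso
        rw [an_iff, nn_iff] at h1
        obtain ⟨z, hz, h2⟩ := anyN_mem h1.2
        have h3 := (List.pairwise_append.1 hp).2.1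
        have h4 := (List.pairwise_cons.1 h3).1 z hz (Nat.eq_of_beq_eq_true h2)
        rw [h4] at h1
        simp at h1
      · exact ih (y :: l) h1 m' hlen (fun z hz => hb z (by simp [hz])) hp

/-- Entry number `x` of a list. -/
noncomputable def gt (b : ℕ) (G : List ℕ) (x : ℕ) : ℕ :=
  List.rec (fun _ => b) (fun h _ ih i => Nat.rec h (fun j _ => ih j) i) G x

theorem gt_eq (b : ℕ) : ∀ (G : List ℕ) (x : ℕ), gt b G x = G.getD x b := by
  intro G
  induction G with
  | nil => intro x; rfl
  | cons h G ih =>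
    intro x
    cases x with
    | zero => rfl
    | succ x =>
      have h' : gt b (h :: G) (x + 1) = gt b G x := rfl
      rw [h', ih x]
      simp

/-- The number of a pattern. -/
noncomputable def cod (b : ℕ) (G : List ℕ) : ℕ :=
  List.rec 0 (fun h _ ih => Nat.add (Nat.mul (Nat.succ b) ih) h) G

/-- The number of glued ends. -/
noncomputable def ng (b : ℕ) (G : List ℕ) : ℕ :=
  List.rec 0 (fun h _ ih => cond (Nat.beq h b) ih (Nat.succ ih)) G

/-- There are permutations of the ends that put the glued ends in the standard position. -/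
noncomputable def okG (a b CT : ℕ) (G : List ℕ) : Bool :=
  frc (Nat.mod (Nat.shiftRight CT (Nat.mul 14 (cod b G))) 16384) fun z =>
  frc (Nat.mod z 128) fun π => frc (Nat.div z 128) fun ρ => frc (ng b G) fun c =>
  frc (Nat.sub a c) fun d => an (Nat.ble c a) (an (Nat.ble c b)
  (an (anyN (pa a c) (Nat.beq π)) (an (anyN (pb b c) (Nat.beq ρ))
  (an (allR d fun i => Nat.beq (gt b G (PM a π i)) b)
  (an (allR c fun i => frc (gt b G (PM a π (Nat.add d i))) fun y => an (nn (Nat.beq y b))
    (Nat.beq (PM b ρ i) y))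
  (allR (Nat.sub b c) fun i => frc (PM b ρ (Nat.add c i)) fun y => nn (anyN G (Nat.beq y))))))))

theorem okG33 : apat 3 (okG 3 3 GC33) 3 [] = true := by decide +kernel
theorem okG43 : apat 3 (okG 4 3 GC43) 4 [] = true := by decide +kernel
theorem okG44 : apat 4 (okG 4 4 GC44) 4 [] = true := by decide +kernel
theorem okG53 : apat 3 (okG 5 3 GC53) 5 [] = true := by decide +kernel
theorem okG54 : apat 4 (okG 5 4 GC54) 5 [] = true := by decide +kernel
theorem okG55 : apat 5 (okG 5 5 GC55) 5 [] = true := by decide +kernel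

theorem nmem {G : List ℕ} {y : ℕ} (h : anyN G (Nat.beq y) = false) : y ∉ G := by
  intro hy
  induction G with
  | nil => simp at hy
  | cons z G ih =>
    have h' : cond (Nat.beq y z) true (anyN G (Nat.beq y)) = false := h
    cases hz : Nat.beq y z with
    | true => rw [hz] at h'; simp at h'
    | false =>
      rw [hz] at h'
      rcases List.mem_cons.1 hy with h1 | h1
      · rw [h1, Nat.beq_refl] at hz
        simp at hz
      · exact ih h' h1

theorem okG_facts (a b : ℕ) (hb : 3 ≤ b) (hab : b ≤ a) (ha : a ≤ 5) (G : List ℕ)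
    (h1 : G.length = a) (h2 : ∀ y ∈ G, y ≤ b) (h3 : G.Pairwise (fun y z => y = z → y = b)) :
    ∃ c ≤ a, c ≤ b ∧ ∃ π ∈ pa a c, ∃ ρ ∈ pb b c,
      (∀ i < a - c, G.getD (PM a π i) b = b) ∧ (∀ i < c, G.getD (PM a π (a - c + i)) b ≠ b) ∧
      (∀ i < c, PM b ρ i = G.getD (PM a π (a - c + i)) b) ∧
      ∀ i < b - c, PM b ρ (c + i) ∉ G := by
  have key : ∀ CT, apat b (okG a b CT) a [] = true → okG a b CT G = true := by
    intro CT h
    have := apat_sound b _ a [] h G h1 h2 (by simpa using h3)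
    simpa using this
  obtain ⟨CT, h⟩ : ∃ CT, okG a b CT G = true := by
    have hc : (a = 3 ∧ b = 3) ∨ (a = 4 ∧ b = 3) ∨ (a = 4 ∧ b = 4) ∨ (a = 5 ∧ b = 3) ∨
        (a = 5 ∧ b = 4) ∨ (a = 5 ∧ b = 5) := by omega
    rcases hc with ⟨rfl, rfl⟩ | ⟨rfl, rfl⟩ | ⟨rfl, rfl⟩ | ⟨rfl, rfl⟩ | ⟨rfl, rfl⟩ | ⟨rfl, rfl⟩
    · exact ⟨_, key _ okG33⟩
    · exact ⟨_, key _ okG43⟩
    · exact ⟨_, key _ okG44⟩
    · exact ⟨_, key _ okG53⟩
    · exact ⟨_, key _ okG54⟩
    · exact ⟨_, key _ okG55⟩
  unfold okG at h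
  rw [frc_eq, frc_eq, frc_eq, frc_eq, frc_eq] at h
  generalize Nat.mod (Nat.mod (Nat.shiftRight CT (Nat.mul 14 (cod b G))) 16384) 128 = π at h
  generalize Nat.div (Nat.mod (Nat.shiftRight CT (Nat.mul 14 (cod b G))) 16384) 128 = ρ at h
  generalize ng b G = c at h
  simp only [an_iff, nn_iff, Nat.ble_eq, allR_iff, frc_eq, Nat.beq_eq, gt_eq] at h
  obtain ⟨g1, g2, g3, g4, g5, g6, g7⟩ := h
  obtain ⟨π', hπ', e1⟩ := anyN_mem g3
  obtain ⟨ρ', hρ', e2⟩ := anyN_mem g4
  have e1' := Nat.eq_of_beq_eq_true e1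
  have e2' := Nat.eq_of_beq_eq_true e2
  subst e1' e2'
  refine ⟨c, g1, g2, π, hπ', ρ, hρ', g5, fun i hi => ?_, fun i hi => (g6 i hi).2,
    fun i hi => nmem (g7 i hi)⟩
  intro h4
  have h5 := (g6 i hi).1
  have h6 : Nat.beq (G.getD (PM a π (Nat.add (Nat.sub a c) i)) b) b = true := by
    rw [Nat.beq_eq]; exact h4
  rw [h6] at h5
  simp at h5

end Pool.Agent.TH849.SC
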