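import Pool.Agent.TH849.SC.Glue
import Pool.Agent.TH849.SC.Pats
import Pool.Agent.TH849.SC.C331
import Pool.Agent.TH849.SC.C333
import Pool.Agent.TH849.SC.C431
import Pool.Agent.TH849.SC.C432
import Pool.Agent.TH849.SC.C532
import Pool.Agent.TH849.SC.C442
import Pool.Agent.TH849.SC.C444
import Pool.Agent.TH849.SC.C542
import Pool.Agent.TH849.SC.C543
import Pool.Agent.TH849.SC.C553
import Pool.Agent.TH849.SC.C555

/-!
The union of two pieces.
-/

set_option autoImplicit false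

open Finset

namespace Pool.Agent.TH849.SC

variable {V E : Type} [Fintype E]

theorem tabAll (a b c : ℕ) (hb : 3 ≤ b) (hab : b ≤ a) (ha : a ≤ 5) (hcb : c ≤ b)
    (hr : Rel (a + b - 2 * c)) : TabOK a b c := by
  unfold Rel at hr
  have hc : (a = 3 ∧ b = 3 ∧ (c = 1 ∨ c = 3)) ∨ (a = 4 ∧ b = 3 ∧ (c = 1 ∨ c = 2)) ∨
      (a = 4 ∧ b = 4 ∧ (c = 2 ∨ c = 4)) ∨ (a = 5 ∧ b = 3 ∧ c = 2) ∨
      (a = 5 ∧ b = 4 ∧ (c = 2 ∨ c = 3)) ∨ (a = 5 ∧ b = 5 ∧ (c = 3 ∨ c = 5)) := by omega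
  rcases hc with ⟨rfl, rfl, rfl | rfl⟩ | ⟨rfl, rfl, rfl | rfl⟩ | ⟨rfl, rfl, rfl | rfl⟩ |
    ⟨rfl, rfl, rfl⟩ | ⟨rfl, rfl, rfl | rfl⟩ | ⟨rfl, rfl, rfl | rfl⟩
  · exact tab331
  · exact tab333
  · exact tab431
  · exact tab432
  · exact tab442
  · exact tab444
  · exact tab532
  · exact tab542
  · exact tab543
  · exact tab553
  · exact tab555

theorem pab_lt {a c : ℕ} (ha : a ≤ 5) (hc : c ≤ a) : (∀ π ∈ pa a c, π < fc a) ∧
    ∀ ρ ∈ pb a c, ρ < fc a := by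
  have h := allR_iff.1 (allR_iff.1 okpa a (by omega)) c (by omega)
  rw [an_iff] at h
  exact ⟨fun π hπ => Nat.le_of_ble_eq_true (allN_mem h.1 π hπ),
    fun ρ hρ => Nat.le_of_ble_eq_true (allN_mem h.2 ρ hρ)⟩

theorem oknz : (allR 6 fun k => allN (TyL k) fun ty => oo (Nat.beq ty 0) (oo (Nat.beq k 0)
    (nz k ty))) = true := by decide +kernel

theorem nz_facts (k : ℕ) (h3 : 3 ≤ k) (h5 : k ≤ 5) (ty : ℕ) (h : ty ∈ TyL k) :
    ty = 0 ∨ nz k ty = true := by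
  have h1 := allN_mem (allR_iff.1 oknz k (by omega)) ty h
  rw [oo_iff, oo_iff, Nat.beq_eq, Nat.beq_eq] at h1
  rcases h1 with h1 | h1 | h1
  · exact Or.inl h1
  · omega
  · exact Or.inr h1

theorem join_le (s t : E → V) (C : Set E) (U : Set V) (hC : Ctx s t C U) (X Y : Set V)
    (hXU : X ⊆ U) (hYU : Y ⊆ U) (a b : ℕ) (hd : Disjoint X Y)
    (hX : HasC s t C X a) (hY : HasC s t C Y b) (hb : 3 ≤ b) (hab : b ≤ a) (ha : a ≤ 5)
    (hk : (cut s t (X ∪ Y)).card = 0 ∨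
      3 ≤ (cut s t (X ∪ Y)).card ∧ (cut s t (X ∪ Y)).card ≤ 5) :
    HasC s t C (X ∪ Y) (cut s t (X ∪ Y)).card := by
  classical
  obtain ⟨oX, ordX, lX, hlX, tX, sX⟩ := hX
  obtain ⟨oY, ordY, lY, hlY, tY, sY⟩ := hY
  have hra : Rel a := by unfold Rel; omega
  have hrb : Rel b := by unfold Rel; omega
  obtain ⟨iX, mX⟩ := id ordX
  obtain ⟨iY, mY⟩ := id ordY
  obtain ⟨g, hg⟩ : ∃ g : ℕ → ℕ, g = fun x => if h : ∃ y < b, oY y = oX x then h.choose else b :=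
    ⟨_, rfl⟩
  have hg2 : ∀ x, g x ≠ b → g x < b ∧ oY (g x) = oX x := by
    intro x hx
    by_cases h : ∃ y < b, oY y = oX x
    · have : g x = h.choose := by rw [hg]; simp only [dif_pos h]
      rw [this]; exact h.choose_spec
    · exact absurd (by rw [hg]; simp only [dif_neg h]) hx
  have hg1 : ∀ x, g x ≤ b := by
    intro x
    by_cases h : g x = b
    · exact h.le
    · exact (hg2 x h).1.le
  have hg3 : ∀ x y, y < b → oY y = oX x → g x = y := by
    intro x y hy hxy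
    have h : ∃ y < b, oY y = oX x := ⟨y, hy, hxy⟩
    have h1 : g x = h.choose := by rw [hg]; simp only [dif_pos h]
    rw [h1]
    exact iY _ h.choose_spec.1 _ hy (h.choose_spec.2.trans hxy.symm)
  obtain ⟨G, hGd⟩ : ∃ G : List ℕ, G = (List.range a).map g := ⟨_, rfl⟩
  have hGg : ∀ x < a, G.getD x b = g x := by
    intro x hx
    rw [hGd, List.getD_eq_getElem?_getD, List.getElem?_map, List.getElem?_range hx]
    rfl
  have hGm : ∀ y, y ∈ G ↔ ∃ x < a, g x = y := by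
    intro y
    rw [hGd, List.mem_map]
    simp only [List.mem_range]
  have hlen : G.length = a := by rw [hGd]; simp
  have hle : ∀ y ∈ G, y ≤ b := by
    intro y hy
    obtain ⟨x, _, rfl⟩ := (hGm y).mp hy
    exact hg1 x
  have hpw : G.Pairwise (fun y z => y = z → y = b) := by
    rw [hGd, List.pairwise_map]
    refine List.Pairwise.imp_of_mem ?_ (List.nodup_range (n := a))
    intro x y hx hy hxy h
    by_contra hne
    have h1 := (hg2 x hne).2
    have h2 := (hg2 y (by rw [← h]; exact hne)).2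
    rw [h] at h1
    exact hxy (iX x (List.mem_range.mp hx) y (List.mem_range.mp hy) (h1.symm.trans h2))
  obtain ⟨c, hca, hcb, π, hπ, ρ, hρ, p1, p2, p3, p4⟩ := okG_facts a b hb hab ha G hlen hle hpw
  have hπ' := (pab_lt ha hca).1 π hπ
  have hρ' := (pab_lt (by omega : b ≤ 5) hcb).2 ρ hρ
  obtain ⟨πl, _, _⟩ := pm_facts a hra π hπ'
  obtain ⟨ρl, _, _⟩ := pm_facts b hrb ρ hρ'
  have ordX' := ord_perm s t X a hra oX ordX π hπ'
  have ordY' := ord_perm s t Y b hrb oY ordY ρ hρ'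
  have q1 : ∀ i < c, oX (PM a π (a - c + i)) = oY (PM b ρ i) := by
    intro i hi
    have h1 := πl (a - c + i) (by omega)
    rw [p3 i hi, hGg _ h1]
    have h2 := p2 i hi
    rw [hGg _ h1] at h2
    exact (hg2 _ h2).2.symm
  have q2 : ∀ i < a - c, oX (PM a π i) ∉ cut s t Y := by
    intro i hi h
    obtain ⟨y, hy, hyx⟩ := (mY _).1 h
    have h1 := hg3 _ y hy hyx
    have h2 := p1 i hi
    rw [hGg _ (πl i (by omega)), h1] at h2
    omega
  have q3 : ∀ i < b - c, oY (PM b ρ (c + i)) ∉ cut s t X := by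
    intro i hi h
    obtain ⟨x, hx, hxy⟩ := (mX _).1 h
    have h1 := hg3 x _ (ρl (c + i) (by omega)) hxy.symm
    exact p4 i hi ((hGm _).2 ⟨x, hx, h1⟩)
  obtain ⟨o, ho⟩ : ∃ o : ℕ → E, o = fun i => if i < a - c then oX (PM a π i)
    else oY (PM b ρ (c + (i - (a - c)))) := ⟨_, rfl⟩
  have ho1 : ∀ i < a - c, o i = oX (PM a π i) := by
    intro i hi
    rw [ho]; simp only [if_pos hi]
  have ho2 : ∀ i < b - c, o (a - c + i) = oY (PM b ρ (c + i)) := by
    intro i hi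
    rw [ho]; simp only [if_neg (by omega : ¬ a - c + i < a - c), Nat.add_sub_cancel_left]
  have std : Std s t X Y a b c (fun i => oX (PM a π i)) (fun i => oY (PM b ρ i)) o :=
    ⟨hd, hca, hcb, ordX', ordY', q1, q2, q3, ho1, ho2⟩
  have ordU := std.ord
  have hcard := ord_card s t _ _ _ ordU
  rw [hcard] at hk ⊢
  have hr : Rel (a + b - 2 * c) := by unfold Rel; omega
  have evX : Ev s t C X := fun v hv => hC.ev v (hXU hv)
  have evY : Ev s t C Y := fun v hv => hC.ev v (hYU hv)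
  have evZ : Ev s t C (X ∪ Y) := fun v hv => hC.ev v (Set.union_subset hXU hYU hv)
  obtain ⟨f1, f2⟩ := f_facts a hra lX hlX
  obtain ⟨f3, f4⟩ := f_facts b hrb lY hlY
  have tX' := ty_perm s t C X a hra oX evX ordX lX.1 f1 tX π hπ'
  have tY' := ty_perm s t C Y b hrb oY evY ordY lY.1 f3 tY ρ hρ'
  have ty1 := (ty_facts a hra π hπ' lX.1 f1).1
  have ty2 := (ty_facts b hrb ρ hρ' lY.1 f3).1
  rcases tabAll a b c hb hab ha hcb hr lX hlX π hπ lY hlY ρ hρ with hbad | hgood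
  · exact (std.bad hC hXU hYU ha (by omega) _ _ tX' tY' (nz_facts b hb (by omega) _ ty2)
      (nz_facts a (by omega) ha _ ty1) hbad).elim
  · obtain ⟨l3, hl3, σ, hσ, hglu, hx⟩ := hgood
    obtain ⟨τ, hτ, hinv, hinvT⟩ := inv_facts _ hr σ hσ
    obtain ⟨f5, f6⟩ := f_facts _ hr l3 hl3
    have tU := std.type hC hXU hYU ha (by omega) _ _ _ tX' tY' hglu
    have tU' := ty_perm s t C (X ∪ Y) _ hr o evZ ordU _ (ty_facts _ hr σ hσ l3.1 f5).1 tU τ hτ
    rw [hinvT _ f5] at tU'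
    refine ⟨fun i => o (PM (a + b - 2 * c) τ i), ord_perm s t _ _ hr o ordU τ hτ, l3, hl3, tU', ?_⟩
    intro x hxl
    obtain ⟨x1, hx1, x2, hx2, p, hp, q, hq, hgl⟩ := hx x hxl
    have st3 := std.state _ _ _ p q hp hq hgl
      (st_perm s t C X a hra oX x1 (f2 x1 hx1) (sX x1 hx1) π hπ')
      (st_perm s t C Y b hrb oY x2 (f4 x2 hx2) (sY x2 hx2) ρ hρ')
    have h4 := st_perm s t C (X ∪ Y) _ hr o _ (act_facts _ hr σ hσ x (f6 x hxl)).2.1 st3 τ hτ
    rw [hinv x (f6 x hxl)] at h4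
    exact h4

theorem join (s t : E → V) (C : Set E) (U : Set V) (hC : Ctx s t C U) (X Y : Set V)
    (hXU : X ⊆ U) (hYU : Y ⊆ U) (a b : ℕ) (hd : Disjoint X Y)
    (hX : HasC s t C X a) (hY : HasC s t C Y b) (ha : 3 ≤ a) (ha5 : a ≤ 5) (hb : 3 ≤ b)
    (hb5 : b ≤ 5)
    (hk : (cut s t (X ∪ Y)).card = 0 ∨
      3 ≤ (cut s t (X ∪ Y)).card ∧ (cut s t (X ∪ Y)).card ≤ 5) :
    HasC s t C (X ∪ Y) (cut s t (X ∪ Y)).card := by
  rcases le_total b a with h | h
  · exact join_le s t C U hC X Y hXU hYU a b hd hX hY hb h ha5 hk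
  · rw [Set.union_comm] at hk ⊢
    exact join_le s t C U hC Y X hYU hXU b a hd.symm hY hX ha h hb5 hk

end Pool.Agent.TH849.SC
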