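import Pool.Agent.TH849.SC.Ends2

/-!
Single vertices.
-/

set_option autoImplicit false

open Finset

namespace Pool.Agent.TH849.SC

theorem bd_cut {V E : Type} [Fintype E] (s t : E → V) (v : V) (x : E → ZMod 2) (o : ℕ → E)
    (ho : Ord s t {v} 3 o) : bd s t x v = x (o 0) + x (o 1) + x (o 2) := by
  classical
  have hmem : ∀ e, e ∈ cut s t {v} ↔ ¬ (s e = v ↔ t e = v) := by
    intro e
    rw [mem_cut]
    simp only [Set.mem_singleton_iff]
  have hcut : cut s t {v} = {o 0, o 1, o 2} := by
    ext e
    rw [ho.2 e]
    simp only [mem_insert, mem_singleton]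
    constructor
    · rintro ⟨i, hi, rfl⟩
      interval_cases i <;> simp
    · rintro (rfl | rfl | rfl)
      · exact ⟨0, by norm_num, rfl⟩
      · exact ⟨1, by norm_num, rfl⟩
      · exact ⟨2, by norm_num, rfl⟩
  have h01 : o 0 ≠ o 1 := fun h => by
    have := ho.1 0 (by norm_num) 1 (by norm_num) h
    omega
  have h02 : o 0 ≠ o 2 := fun h => by
    have := ho.1 0 (by norm_num) 2 (by norm_num) h
    omega
  have h12 : o 1 ≠ o 2 := fun h => by
    have := ho.1 1 (by norm_num) 2 (by norm_num) h
    omega
  have h1 : bd s t x v = ∑ e, if e ∈ cut s t {v} then x e else 0 := by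
    unfold bd
    refine Finset.sum_congr rfl fun e _ => ?_
    by_cases hm : e ∈ cut s t {v}
    · rw [if_pos hm]
      have hm' := (hmem e).1 hm
      by_cases h2 : s e = v
      · have h3 : t e ≠ v := fun h => hm' ⟨fun _ => h, fun _ => h2⟩
        rw [if_pos h2, if_neg h3]; ring
      · have h3 : t e = v := by
          by_contra h
          exact hm' ⟨fun h' => absurd h' h2, fun h' => absurd h' h⟩
        rw [if_neg h2, if_pos h3]; ring
    · rw [if_neg hm]
      have hm' : (s e = v ↔ t e = v) := by
        by_contra h
        exact hm ((hmem e).2 h)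
      by_cases h2 : s e = v
      · rw [if_pos h2, if_pos (hm'.1 h2)]
        have : (1 : ZMod 2) + 1 = 0 := by decide
        rw [this, mul_zero]
      · rw [if_neg h2, if_neg (fun h => h2 (hm'.2 h))]; ring
  rw [h1, Finset.sum_ite_mem, Finset.univ_inter, hcut,
    Finset.sum_insert (by simp [h01, h02]), Finset.sum_insert (by simp [h12]),
    Finset.sum_singleton]
  ring

theorem fl3 : ∀ ty ∈ [0, 1024, 3], ∃ l, (ty, l) ∈ Fl 3 := by
  have h : (([0, 1024, 3] : List ℕ).all fun ty => (Fl 3).any fun x => Nat.beq x.1 ty) = true := by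
    decide +kernel
  intro ty hty
  obtain ⟨x, hx, h2⟩ := List.any_eq_true.1 ((List.all_eq_true.1 h) ty hty)
  refine ⟨x.2, ?_⟩
  rw [← Nat.eq_of_beq_eq_true h2]
  exact hx

theorem leaf (V E : Type) [Fintype E] (s t : E → V) (C : Set E) (U : Set V) (hC : Ctx s t C U)
    (v : V) (hv : v ∈ U) (h3 : (cut s t {v}).card = 3) : HasC s t C {v} 3 := by
  classical
  obtain ⟨o1, ho1⟩ : ∃ o : ℕ → E, Ord s t {v} 3 o := by
    obtain ⟨e0, he0⟩ : (cut s t {v}).Nonempty := Finset.card_pos.mp (by omega)
    let q := (cut s t {v}).equivFin
    refine ⟨fun i => if h : i < (cut s t {v}).card then (q.symm ⟨i, h⟩).1 else e0, ?_, ?_⟩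
    · intro i hi j hj hij
      rw [← h3] at hi hj
      simp only [dif_pos hi, dif_pos hj] at hij
      have h1 := q.symm.injective (Subtype.ext hij)
      simpa using h1
    · intro e
      constructor
      · intro he
        refine ⟨(q ⟨e, he⟩).1, by rw [← h3]; exact (q ⟨e, he⟩).2, ?_⟩
        simp only [dif_pos (q ⟨e, he⟩).2, Fin.eta, Equiv.symm_apply_apply]
      · rintro ⟨i, hi, rfl⟩
        rw [← h3] at hi
        simp only [dif_pos hi]
        exact (q.symm ⟨i, hi⟩).2
  have par := fun (o : ℕ → E) (ho : Ord s t {v} 3 o) => (bd_cut s t v (ic C) o ho).symm.trans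
    (hC.ev v hv)
  -- an ordering and a type
  obtain ⟨o, ho, ty, hty, hTy⟩ : ∃ o : ℕ → E, Ord s t {v} 3 o ∧ ∃ ty ∈ [0, 1024, 3],
      TyOK s t C {v} 3 o ty := by
    by_cases hany : ∃ i < 3, o1 i ∈ C
    · -- two ends in the circuit
      have key : ∀ o : ℕ → E, Ord s t {v} 3 o → o 0 ∈ C → o 1 ∈ C → TyOK s t C {v} 3 o 3 := by
        intro o ho h0 h1
        have hp := par o ho
        have h2 : o 2 ∉ C := by
          intro h2
          rw [ic_in h0, ic_in h1, ic_in h2] at hp
          exact absurd hp (by decide)
        refine ⟨fun i hi => ?_, inR_zero s t C _ 3 o _ (fun i hi => ?_), fun h => by omega,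
          fun h => by omega⟩
        · interval_cases i
          · exact ⟨fun _ => by decide, fun _ => h0⟩
          · exact ⟨fun _ => by decide, fun _ => h1⟩
          · exact ⟨fun h => absurd h h2, fun h => absurd h (by decide)⟩
        · interval_cases i <;> decide
      have sw : ∀ (f : ℕ → ℕ), (∀ i < 3, f i < 3) → (∀ i < 3, ∀ j < 3, f i = f j → i = j) →
          (∀ i < 3, ∃ j < 3, f j = i) → Ord s t {v} 3 (fun i => o1 (f i)) := by
        intro f f1 f2 f3
        refine ⟨fun i hi j hj hij => f2 i hi j hj (ho1.1 _ (f1 i hi) _ (f1 j hj) hij),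
          fun e => ?_⟩
        rw [ho1.2 e]
        constructor
        · rintro ⟨i, hi, rfl⟩
          obtain ⟨j, hj, rfl⟩ := f3 i hi
          exact ⟨j, hj, rfl⟩
        · rintro ⟨i, hi, rfl⟩
          exact ⟨_, f1 i hi, rfl⟩
      have hp := par o1 ho1
      by_cases h0 : o1 0 ∈ C
      · by_cases h1 : o1 1 ∈ C
        · exact ⟨o1, ho1, 3, by simp, key o1 ho1 h0 h1⟩
        · have h2 : o1 2 ∈ C := by
            by_contra h2
            rw [ic_in h0, ic_out h1, ic_out h2] at hp
            exact absurd hp (by decide)
          have ho' := sw (fun i => if i = 1 then 2 else if i = 2 then 1 else i)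
            (by decide) (by decide) (by decide)
          exact ⟨_, ho', 3, by simp, key _ ho' h0 h2⟩
      · have h1 : o1 1 ∈ C := by
          by_contra h1
          obtain ⟨i, hi, hiC⟩ := hany
          interval_cases i
          · exact h0 hiC
          · exact h1 hiC
          · rw [ic_out h0, ic_out h1, ic_in hiC] at hp
            exact absurd hp (by decide)
        have h2 : o1 2 ∈ C := by
          by_contra h2
          rw [ic_out h0, ic_in h1, ic_out h2] at hp
          exact absurd hp (by decide)
        have ho' := sw (fun i => if i = 0 then 2 else if i = 2 then 0 else i)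
          (by decide) (by decide) (by decide)
        exact ⟨_, ho', 3, by simp, key _ ho' h2 h1⟩
    · push Not at hany
      by_cases hl : ∃ e ∈ C, tch s t {v} e
      · obtain ⟨e, he, hte⟩ := hl
        have hcl : ∀ e ∈ C, tch s t {v} e → s e = v ∧ t e = v := by
          intro e he hte
          have h1 : e ∉ cut s t {v} := by
            intro h
            obtain ⟨i, hi, rfl⟩ := (ho1.2 e).1 h
            exact hany i hi he
          rw [mem_cut, not_not, Set.mem_singleton_iff, Set.mem_singleton_iff] at h1
          rcases hte with h2 | h2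
          · exact ⟨h2, h1.1 h2⟩
          · exact ⟨h1.2 h2, h2⟩
        have hev : Ev s t {e} U := by
          intro w _
          obtain ⟨e1, e2⟩ := hcl e he hte
          unfold bd
          rw [Finset.sum_eq_single e]
          · rw [e1, e2]
            by_cases h : v = w
            · rw [if_pos h]
              have : (1 : ZMod 2) + 1 = 0 := by decide
              rw [this, mul_zero]
            · rw [if_neg h]; ring
          · intro e' _ hne
            rw [ic_out (fun h => hne (Set.mem_singleton_iff.1 h)), zero_mul]
          · intro h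
            exact absurd (mem_univ _) h
        have hCe : ({e} : Set E) = C := by
          rcases hC.min {e} (Set.singleton_subset_iff.2 he) hev with h | h
          · exact absurd h (Set.singleton_ne_empty e)
          · exact h
        refine ⟨o1, ho1, 1024, by simp, fun i hi => ?_, inR_zero s t C _ 3 o1 _ (fun i hi => ?_),
          fun h => by omega, fun _ => ⟨⟨e, he⟩, fun e' he' => ?_⟩⟩
        · constructor
          · intro h
            exact absurd h (hany i hi)
          · intro h
            exfalso
            interval_cases i <;> exact absurd h (by decide)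
        · interval_cases i <;> decide
        · rw [← hCe, Set.mem_singleton_iff] at he'
          rw [he']
          exact hcl e he hte
      · push Not at hl
        refine ⟨o1, ho1, 0, by simp, fun i hi => ?_, inR_zero s t C _ 3 o1 _ (fun i hi => ?_),
          fun _ => hl, fun h => by omega⟩
        · constructor
          · intro h
            exact absurd h (hany i hi)
          · intro h
            exfalso
            interval_cases i <;> exact absurd h (by decide)
        · interval_cases i <;> decide
  obtain ⟨l, hl⟩ := fl3 ty hty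
  refine ⟨o, ho, (ty, l), hl, hTy, fun r hr => ?_⟩
  obtain ⟨f1, f2⟩ := f_facts 3 (Or.inr (Or.inl rfl)) (ty, l) hl
  have k1 := v_facts 3 (Or.inr (Or.inl rfl)) r (f2 r hr)
  have k2 := allN_mem (allN_mem okleaf (ty, l) hl) r hr
  rw [an_iff, allR_iff, allR_iff] at k2
  obtain ⟨S, hS⟩ : ∃ S, S = rp 3 r := ⟨_, rfl⟩
  rw [← hS] at k1 k2 ⊢
  have hne : ∀ i < 3, ∀ j < 3, o i = o j → i = j := ho.1
  obtain ⟨f, hf⟩ : ∃ f : E → ℕ, f = fun e => if e = o 0 then dig S 0 else if e = o 1 then dig S 1
      else if e = o 2 then dig S 2 else 3 := ⟨_, rfl⟩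
  have h01 : o 1 ≠ o 0 := fun h => by
    have := hne 1 (by norm_num) 0 (by norm_num) h
    omega
  have h02 : o 2 ≠ o 0 := fun h => by
    have := hne 2 (by norm_num) 0 (by norm_num) h
    omega
  have h12 : o 2 ≠ o 1 := fun h => by
    have := hne 2 (by norm_num) 1 (by norm_num) h
    omega
  have hfo : ∀ i < 3, f (o i) = dig S i := by
    intro i hi
    rw [hf]
    interval_cases i
    · simp
    · simp [h01]
    · simp [h02, h12]
  refine ⟨f, ⟨fun e => ?_, fun e he => ?_, fun w hw b hb => ?_⟩, hfo⟩
  · rw [hf]
    dsimp only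
    split_ifs
    · exact k1 0 (by norm_num)
    · exact k1 1 (by norm_num)
    · exact k1 2 (by norm_num)
    · decide
  · by_cases hi : ∃ i < 3, o i = e
    · obtain ⟨i, hi, rfl⟩ := hi
      rw [hfo i hi]
      have h5 := k2.2 i hi
      have h6 : tb ty i = true := (hTy.1 i hi).1 he
      rw [oo_iff, nn_iff] at h5
      rcases h5 with h5 | h5
      · rw [show tb (ty, l).1 i = tb ty i from rfl, h6] at h5
        simp at h5
      · exact h5
    · push Not at hi
      have : f e = 3 := by
        rw [hf]
        dsimp only
        rw [if_neg (fun h => hi 0 (by norm_num) h.symm), if_neg (fun h => hi 1 (by norm_num) h.symm),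
          if_neg (fun h => hi 2 (by norm_num) h.symm)]
      rw [this]
      decide
  · rw [Set.mem_singleton_iff] at hw
    subst hw
    rw [bd_cut s t w _ o ho]
    rw [hfo 0 (by norm_num), hfo 1 (by norm_num), hfo 2 (by norm_num)]
    have h5 := k2.1 b hb
    unfold co
    revert h5
    cases tb (dig S 0) b <;> cases tb (dig S 1) b <;> cases tb (dig S 2) b <;> decide

end Pool.Agent.TH849.SC
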