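import Pool.Agent.TH849.SC.Three

/-! Reduction of the cuts of size zero and two (following `Pool.Agent.TH505.OW.Red`). -/

set_option autoImplicit false

open Finset

namespace Pool.Agent.TH849.SC

section
variable {V E : Type} [Fintype E]

open Classical in
/-- merging everything outside `X` into `u` -/
noncomputable def mg (X : Set V) (u : V) (z : V) : V := if z ∈ X then z else u

theorem mg_in {X : Set V} {u z : V} (h : z ∈ X) : mg X u z = z := if_pos h

theorem mg_out {X : Set V} {u z : V} (h : z ∉ X) : mg X u z = u := if_neg h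

theorem cut_mg (s t : E → V) (X : Set V) (u : V) (Z : Set V) :
    cut (mg X u ∘ s) (mg X u ∘ t) Z = cut s t ((mg X u) ⁻¹' Z) := by
  ext e
  rw [mem_cut, mem_cut]
  rfl

open Classical in
/-- Kronecker symbol -/
noncomputable def dl (a b : V) : ZMod 2 := if a = b then 1 else 0

theorem dl_ne {a b : V} (h : a ≠ b) : dl a b = 0 := if_neg h

theorem bd_dl (s t : E → V) (x : E → ZMod 2) (v : V) :
    bd s t x v = ∑ e, x e * (dl (s e) v + dl (t e) v) := rfl

theorem dbl (x : ZMod 2) : x + x = 0 := by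
  revert x
  decide

theorem size_pos (T : Tr V) : 1 ≤ T.size := by
  induction T with
  | leaf v => exact le_rfl
  | node l r hl hr => rw [Tr.size]; omega

theorem prune (s t s1 t1 : E → V) (X : Set V)
    (hW : ∀ B : Set V, (cut s1 t1 (B ∩ X)).card ≤ (cut s t B).card) (w : ℕ) :
    ∀ T : Tr V, T.Nodup → T.Width s t w → (∃ v ∈ T.set, v ∈ X) →
    ∃ T1 : Tr V, T1.set = T.set ∩ X ∧ T1.Nodup ∧ T1.Width s1 t1 w ∧ T1.size ≤ T.size ∧
      ((∃ v ∈ T.set, v ∉ X) → T1.size < T.size) := by
  intro T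
  induction T with
  | leaf v =>
    rintro _ h2 ⟨v', hv', hX⟩
    have hv : v' = v := hv'
    subst hv
    have hs : ({v'} : Set V) ∩ X = {v'} := Set.inter_eq_left.2 (Set.singleton_subset_iff.2 hX)
    refine ⟨.leaf v', hs.symm, trivial, ?_, le_rfl, ?_⟩
    · have h3 := hW {v'}
      rw [hs] at h3
      exact h3.trans h2
    · rintro ⟨v, hv, hvX⟩
      have : v = v' := hv
      exact absurd (this ▸ hX) hvX
  | node l r ihl ihr =>
    rintro ⟨hd, hnl, hnr⟩ ⟨hw, hwl, hwr⟩ hex
    have hl1 := size_pos l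
    have hr1 := size_pos r
    by_cases hl : ∃ v ∈ l.set, v ∈ X
    · obtain ⟨l1, a1, a2, a3, a4, a5⟩ := ihl hnl hwl hl
      by_cases hr : ∃ v ∈ r.set, v ∈ X
      · obtain ⟨r1, b1, b2, b3, b4, b5⟩ := ihr hnr hwr hr
        have hset : l1.set ∪ r1.set = (l.set ∪ r.set) ∩ X := by
          rw [a1, b1, Set.union_inter_distrib_right]
        refine ⟨.node l1 r1, hset, ⟨?_, a2, b2⟩, ⟨?_, a3, b3⟩, ?_, ?_⟩
        · rw [a1, b1]
          exact hd.mono Set.inter_subset_left Set.inter_subset_left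
        · rw [hset]
          exact (hW _).trans hw
        · simp only [Tr.size]; omega
        · rintro ⟨v, hv, hvX⟩
          simp only [Tr.size]
          rcases hv with hv | hv
          · have := a5 ⟨v, hv, hvX⟩; omega
          · have := b5 ⟨v, hv, hvX⟩; omega
      · have hset : l1.set = (l.set ∪ r.set) ∩ X := by
          rw [a1, Set.union_inter_distrib_right]
          have : r.set ∩ X = ∅ := by
            ext v
            simp only [Set.mem_inter_iff, Set.mem_empty_iff_false, iff_false]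
            exact fun h => hr ⟨v, h.1, h.2⟩
          rw [this, Set.union_empty]
        refine ⟨l1, hset, a2, a3, ?_, fun _ => ?_⟩
        · simp only [Tr.size]; omega
        · simp only [Tr.size]; omega
    · have hr : ∃ v ∈ r.set, v ∈ X := by
        obtain ⟨v, hv, hvX⟩ := hex
        rcases hv with hv | hv
        · exact absurd ⟨v, hv, hvX⟩ hl
        · exact ⟨v, hv, hvX⟩
      obtain ⟨r1, b1, b2, b3, b4, b5⟩ := ihr hnr hwr hr
      have hset : r1.set = (l.set ∪ r.set) ∩ X := by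
        rw [b1, Set.union_inter_distrib_right]
        have : l.set ∩ X = ∅ := by
          ext v
          simp only [Set.mem_inter_iff, Set.mem_empty_iff_false, iff_false]
          exact fun h => hl ⟨v, h.1, h.2⟩
        rw [this, Set.empty_union]
      refine ⟨r1, hset, b2, b3, ?_, fun _ => ?_⟩
      · simp only [Tr.size]; omega
      · simp only [Tr.size]; omega

/-! cuts of size zero -/

theorem W0 (s t : E → V) (X : Set V) (u : V) (h0 : ∀ e, s e ∈ X ↔ t e ∈ X) (B : Set V) :
    (cut (mg X u ∘ s) (mg X u ∘ t) (B ∩ X)).card ≤ (cut s t B).card := by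
  refine Finset.card_le_card fun e he => ?_
  rw [mem_cut] at he ⊢
  simp only [Function.comp_apply] at he
  by_cases hs : s e ∈ X
  · have ht := (h0 e).1 hs
    rw [mg_in hs, mg_in ht] at he
    intro h
    exact he ⟨fun h1 => ⟨h.1 h1.1, ht⟩, fun h1 => ⟨h.2 h1.1, hs⟩⟩
  · have ht : t e ∉ X := fun h => hs ((h0 e).2 h)
    rw [mg_out hs, mg_out ht] at he
    exact absurd Iff.rfl he

theorem bd0 (s t : E → V) (X : Set V) (u : V) (h0 : ∀ e, s e ∈ X ↔ t e ∈ X) (x y : E → ZMod 2)
    (hf : ∀ e, s e ∈ X → x e = y e) (v : V) (hv : v ∈ X) :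
    bd s t x v = bd (mg X u ∘ s) (mg X u ∘ t) y v := by
  rw [bd_dl, bd_dl]
  refine Finset.sum_congr rfl fun e _ => ?_
  simp only [Function.comp_apply]
  by_cases hs : s e ∈ X
  · have ht := (h0 e).1 hs
    rw [mg_in hs, mg_in ht]
    simp only [hf e hs]
  · have ht : t e ∉ X := fun h => hs ((h0 e).2 h)
    rw [mg_out hs, mg_out ht, dl_ne (fun h : s e = v => hs (h ▸ hv)),
      dl_ne (fun h : t e = v => ht (h ▸ hv)), dbl, dbl, mul_zero, mul_zero]

/-! cuts of size two -/

theorem W2 (s t : E → V) (X : Set V) (e0 f0 : E) (u w u' w' : V)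
    (hu : u ∈ X) (hw : w ∉ X) (hu' : u' ∈ X) (hw' : w' ∉ X)
    (he0 : (s e0 = u ∧ t e0 = w) ∨ (s e0 = w ∧ t e0 = u))
    (hf0 : (s f0 = u' ∧ t f0 = w') ∨ (s f0 = w' ∧ t f0 = u'))
    (hoth : ∀ e, e ≠ e0 → e ≠ f0 → (s e ∈ X ↔ t e ∈ X))
    (hbr : ∀ Z : Set V, (cut s t Z).card ≠ 1) (B : Set V) :
    (cut (mg X u ∘ s) (mg X u ∘ t) (B ∩ X)).card ≤ (cut s t B).card := by
  classical
  have key : ∀ e ∈ cut (mg X u ∘ s) (mg X u ∘ t) (B ∩ X),
      (e ∈ cut s t B ∧ s e ∈ X ∧ t e ∈ X) ∨ (e = f0 ∧ ¬ (u ∈ B ↔ u' ∈ B)) := by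
    intro e he
    rw [mem_cut] at he
    simp only [Function.comp_apply] at he
    by_cases h1 : e = f0
    · right
      refine ⟨h1, ?_⟩
      subst h1
      intro h
      rcases hf0 with ⟨h2, h3⟩ | ⟨h2, h3⟩ <;> rw [h2, h3] at he
      · rw [mg_in hu', mg_out hw'] at he
        exact he ⟨fun h1 => ⟨h.2 h1.1, hu⟩, fun h1 => ⟨h.1 h1.1, hu'⟩⟩
      · rw [mg_in hu', mg_out hw'] at he
        exact he ⟨fun h1 => ⟨h.1 h1.1, hu'⟩, fun h1 => ⟨h.2 h1.1, hu⟩⟩
    · by_cases h2 : e = e0
      · subst h2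
        exfalso
        rcases he0 with ⟨h2, h3⟩ | ⟨h2, h3⟩ <;> rw [h2, h3] at he
        · rw [mg_in hu, mg_out hw] at he
          exact he Iff.rfl
        · rw [mg_in hu, mg_out hw] at he
          exact he Iff.rfl
      · left
        have h3 := hoth e h2 h1
        by_cases hs : s e ∈ X
        · have ht := h3.1 hs
          rw [mg_in hs, mg_in ht] at he
          refine ⟨?_, hs, ht⟩
          rw [mem_cut]
          intro h
          exact he ⟨fun h1 => ⟨h.1 h1.1, ht⟩, fun h1 => ⟨h.2 h1.1, hs⟩⟩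
        · have ht : t e ∉ X := fun h => hs (h3.2 h)
          rw [mg_out hs, mg_out ht] at he
          exact absurd Iff.rfl he
  by_cases hsep : u ∈ B ↔ u' ∈ B
  · refine Finset.card_le_card fun e he => ?_
    rcases key e he with h | h
    · exact h.1
    · exact absurd hsep h.2
  · obtain ⟨e1, he1, hnin⟩ : ∃ e1 ∈ cut s t B, ¬ (s e1 ∈ X ∧ t e1 ∈ X) := by
      by_contra hno
      push Not at hno
      have hBe : ∀ e, ¬ (s e ∈ X ∧ t e ∈ X) → (s e ∈ B ↔ t e ∈ B) := by
        intro e he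
        by_contra h
        have := hno e ((mem_cut s t B e).2 h)
        exact he ⟨this.1, this.2⟩
      have hEF : ∀ e a b, a ∈ X → b ∉ X → ((s e = a ∧ t e = b) ∨ (s e = b ∧ t e = a)) →
          (e ∈ cut s t (Xᶜ ∩ B) ↔ a ∈ B) := by
        intro e a b ha hb hab
        have hE : ¬ (s e ∈ X ∧ t e ∈ X) := by
          rcases hab with ⟨h2, h3⟩ | ⟨h2, h3⟩ <;> rw [h2, h3]
          · exact fun h => hb h.2
          · exact fun h => hb h.1
        have hab' : a ∈ B ↔ b ∈ B := by
          have := hBe e hE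
          rcases hab with ⟨h2, h3⟩ | ⟨h2, h3⟩ <;> rw [h2, h3] at this
          · exact this
          · exact this.symm
        have hA : a ∉ Xᶜ ∩ B := fun h => h.1 ha
        have hB' : b ∈ Xᶜ ∩ B ↔ a ∈ B := ⟨fun h => hab'.2 h.2, fun h => ⟨hb, hab'.1 h⟩⟩
        rw [mem_cut]
        rcases hab with ⟨h2, h3⟩ | ⟨h2, h3⟩ <;> rw [h2, h3]
        · constructor
          · intro h
            by_contra hn
            exact h ⟨fun h' => absurd h' hA, fun h' => absurd (hB'.1 h') hn⟩
          · intro h h'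
            exact hA (h'.2 (hB'.2 h))
        · constructor
          · intro h
            by_contra hn
            exact h ⟨fun h' => absurd (hB'.1 h') hn, fun h' => absurd h' hA⟩
          · intro h h'
            exact hA (h'.1 (hB'.2 h))
      have hcE : e0 ∈ cut s t (Xᶜ ∩ B) ↔ u ∈ B := hEF e0 u w hu hw he0
      have hcF : f0 ∈ cut s t (Xᶜ ∩ B) ↔ u' ∈ B := hEF f0 u' w' hu' hw' hf0
      have hcO : ∀ e, e ≠ e0 → e ≠ f0 → e ∉ cut s t (Xᶜ ∩ B) := by
        intro e h1 h2 h3
        rw [mem_cut] at h3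
        have h4 := hoth e h1 h2
        by_cases hs : s e ∈ X
        · exact h3 ⟨fun h' => absurd hs h'.1, fun h' => absurd (h4.1 hs) h'.1⟩
        · have h5 := hBe e (fun h => hs h.1)
          exact h3 ⟨fun h' => ⟨fun h => hs (h4.2 h), h5.1 h'.2⟩, fun h' => ⟨hs, h5.2 h'.2⟩⟩
      apply hbr (Xᶜ ∩ B)
      rw [Finset.card_eq_one]
      by_cases huB : u ∈ B
      · have hu'B : u' ∉ B := fun h => hsep ⟨fun _ => h, fun _ => huB⟩
        refine ⟨e0, ?_⟩
        ext e
        rw [Finset.mem_singleton]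
        constructor
        · intro he
          by_contra h1
          by_cases h2 : e = f0
          · subst h2
            exact hu'B (hcF.1 he)
          · exact hcO e h1 h2 he
        · rintro rfl
          exact hcE.2 huB
      · have hu'B : u' ∈ B := by
          by_contra h
          exact hsep ⟨fun h' => absurd h' huB, fun h' => absurd h' h⟩
        refine ⟨f0, ?_⟩
        ext e
        rw [Finset.mem_singleton]
        constructor
        · intro he
          by_contra h1
          by_cases h2 : e = e0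
          · subst h2
            exact huB (hcE.1 he)
          · exact hcO e h2 h1 he
        · rintro rfl
          exact hcF.2 hu'B
    have hsub : cut (mg X u ∘ s) (mg X u ∘ t) (B ∩ X) ⊆ insert f0 ((cut s t B).erase e1) := by
      intro e he
      rw [Finset.mem_insert, Finset.mem_erase]
      rcases key e he with h | h
      · right
        refine ⟨?_, h.1⟩
        rintro rfl
        exact hnin h.2
      · exact Or.inl h.1
    have h1 := Finset.card_le_card hsub
    have h2 := Finset.card_insert_le f0 ((cut s t B).erase e1)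
    have h3 := Finset.card_erase_add_one he1
    omega

theorem bd2 (s t : E → V) (X : Set V) (e0 f0 : E) (u w u' w' : V) (hne : e0 ≠ f0)
    (hu : u ∈ X) (hw : w ∉ X) (hu' : u' ∈ X) (hw' : w' ∉ X)
    (he0 : (s e0 = u ∧ t e0 = w) ∨ (s e0 = w ∧ t e0 = u))
    (hf0 : (s f0 = u' ∧ t f0 = w') ∨ (s f0 = w' ∧ t f0 = u'))
    (hoth : ∀ e, e ≠ e0 → e ≠ f0 → (s e ∈ X ↔ t e ∈ X)) (x y : E → ZMod 2)
    (hf : ∀ e, e ≠ e0 → e ≠ f0 → s e ∈ X → x e = y e)
    (hfe : x e0 = y f0) (hff : x f0 = y f0) (v : V) (hv : v ∈ X) :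
    bd s t x v = bd (mg X u ∘ s) (mg X u ∘ t) y v := by
  classical
  rw [← sub_eq_zero, bd_dl, bd_dl, ← Finset.sum_sub_distrib, Fintype.sum_eq_add e0 f0 hne]
  · have hwv : w ≠ v := fun h => hw (h ▸ hv)
    have hwv' : w' ≠ v := fun h => hw' (h ▸ hv)
    simp only [Function.comp_apply, hfe, hff]
    rcases he0 with ⟨h2, h3⟩ | ⟨h2, h3⟩ <;> rcases hf0 with ⟨h4, h5⟩ | ⟨h4, h5⟩ <;>
      rw [h2, h3, h4, h5, mg_in hu, mg_out hw, mg_in hu', mg_out hw', dl_ne hwv, dl_ne hwv',
        dbl, mul_zero, sub_zero] <;>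
      generalize y f0 = z <;> generalize dl u v = z1 <;> generalize dl u' v = z2 <;>
      revert z z1 z2 <;> decide
  · rintro e ⟨h1, h2⟩
    rw [sub_eq_zero]
    simp only [Function.comp_apply]
    by_cases hs : s e ∈ X
    · have ht := (hoth e h1 h2).1 hs
      rw [mg_in hs, mg_in ht]
      simp only [hf e h1 h2 hs]
    · have ht : t e ∉ X := fun h => hs ((hoth e h1 h2).2 h)
      rw [mg_out hs, mg_out ht, dl_ne (fun h : s e = v => hs (h ▸ hv)),
        dl_ne (fun h : t e = v => ht (h ▸ hv)), dbl, dbl, mul_zero, mul_zero]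

theorem bd_zero_of (s t : E → V) (x : E → ZMod 2) (v : V)
    (h : ∀ e, (s e = v ∨ t e = v) → x e = 0) : bd s t x v = 0 := by
  rw [bd_dl]
  refine Finset.sum_eq_zero fun e _ => ?_
  by_cases h1 : s e = v ∨ t e = v
  · rw [h e h1, zero_mul]
  · push Not at h1
    rw [dl_ne h1.1, dl_ne h1.2, add_zero, mul_zero]

theorem ev_all (s t : E → V) (U : Set V) (hU : ∀ e, s e ∈ U ∧ t e ∈ U) (Q : Set E)
    (h : Ev s t Q U) (v : V) : bd s t (ic Q) v = 0 := by
  by_cases hv : v ∈ U
  · exact h v hv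
  · refine bd_zero_of s t _ v fun e he => ?_
    exfalso
    rcases he with he | he
    · exact hv (he ▸ (hU e).1)
    · exact hv (he ▸ (hU e).2)

theorem cut_parity (s t : E → V) (x : E → ZMod 2) (X : Set V) (h : ∀ v ∈ X, bd s t x v = 0) :
    ∑ e ∈ cut s t X, x e = 0 := by
  classical
  obtain ⟨W, hW⟩ : ∃ W : Finset V, W = (univ.image s ∪ univ.image t).filter (fun v => v ∈ X) :=
    ⟨_, rfl⟩
  have h1 : ∑ v ∈ W, bd s t x v = 0 := Finset.sum_eq_zero fun v hv => by
    rw [hW, mem_filter] at hv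
    exact h v hv.2
  have h2 : ∑ v ∈ W, bd s t x v = ∑ e, x e * ((if s e ∈ X then 1 else 0) +
      (if t e ∈ X then 1 else 0)) := by
    unfold bd
    rw [Finset.sum_comm]
    refine Finset.sum_congr rfl fun e _ => ?_
    rw [← Finset.mul_sum, Finset.sum_add_distrib, Finset.sum_ite_eq, Finset.sum_ite_eq]
    congr 2
    · refine if_congr ?_ rfl rfl
      rw [hW, mem_filter, mem_union]
      exact ⟨fun h => h.2, fun h => ⟨Or.inl (mem_image_of_mem s (mem_univ e)), h⟩⟩
    · refine if_congr ?_ rfl rfl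
      rw [hW, mem_filter, mem_union]
      exact ⟨fun h => h.2, fun h => ⟨Or.inr (mem_image_of_mem t (mem_univ e)), h⟩⟩
  rw [h1] at h2
  rw [h2, ← Finset.sum_filter_add_sum_filter_not univ (fun e => e ∈ cut s t X)]
  have h3 : univ.filter (fun e => e ∈ cut s t X) = cut s t X := by
    ext e; simp
  have h4 : ∑ e ∈ univ.filter (fun e => ¬ e ∈ cut s t X), x e *
      ((if s e ∈ X then 1 else 0) + (if t e ∈ X then 1 else 0)) = (0 : ZMod 2) := by
    refine Finset.sum_eq_zero fun e he => ?_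
    rw [mem_filter, mem_cut, not_not] at he
    by_cases hs : s e ∈ X
    · rw [if_pos hs, if_pos (he.2.1 hs), dbl, mul_zero]
    · rw [if_neg hs, if_neg (fun h => hs (he.2.2 h)), dbl, mul_zero]
  rw [h4, add_zero, h3]
  refine Finset.sum_congr rfl fun e he => ?_
  rw [mem_cut] at he
  by_cases hs : s e ∈ X
  · rw [if_pos hs, if_neg (fun h => he ⟨fun _ => h, fun _ => hs⟩), add_zero, mul_one]
  · rw [if_neg hs, if_pos (by
      by_contra h
      exact he ⟨fun h' => absurd h' hs, fun h' => absurd h' h⟩), zero_add, mul_one]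

/-- The context of one side of an empty cut. -/
theorem ctx0 (s t : E → V) (C : Set E) (U : Set V) (hC : Ctx s t C U) (X : Set V) (u : V)
    (hu : u ∈ X) (huU : u ∈ U) (h0 : ∀ e, s e ∈ X ↔ t e ∈ X) :
    Ctx (mg X u ∘ s) (mg X u ∘ t) {e | e ∈ C ∧ s e ∈ X} (U ∩ X) := by
  refine ⟨fun e => ?_, fun v hv => ?_, fun Q hQ hev => ?_⟩
  · have hm : ∀ z ∈ U, mg X u z ∈ U ∩ X := by
      intro z hz
      by_cases h : z ∈ X
      · rw [mg_in h]; exact ⟨hz, h⟩
      · rw [mg_out h]; exact ⟨huU, hu⟩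
    exact ⟨hm _ (hC.ends e).1, hm _ (hC.ends e).2⟩
  · rw [← bd0 s t X u h0 (ic C) (ic {e | e ∈ C ∧ s e ∈ X}) (fun e he => ic_congr ⟨fun h => ⟨h, he⟩, fun h => h.1⟩) v hv.2]
    exact hC.ev v hv.1
  · have h1 : Ev s t Q U := by
      intro v hv
      by_cases hvX : v ∈ X
      · rw [bd0 s t X u h0 (ic Q) (ic Q) (fun _ _ => rfl) v hvX]
        exact hev v ⟨hv, hvX⟩
      · refine bd_zero_of s t _ v fun e he => ic_out fun h => ?_
        have h2 := (hQ h).2
        rcases he with he | he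
        · exact hvX (he ▸ h2)
        · exact hvX (he ▸ (h0 e).1 h2)
    rcases hC.min Q (fun e he => (hQ he).1) h1 with h2 | h2
    · exact Or.inl h2
    · right
      refine Set.Subset.antisymm hQ fun e he => ?_
      rw [h2]
      exact he.1

/-- The context of one side of a cut of size two. -/
theorem ctx2 (s t : E → V) (C : Set E) (U : Set V) (hC : Ctx s t C U) (X : Set V) (e0 f0 : E)
    (u w u' w' : V) (hne : e0 ≠ f0) (huU : u ∈ U)
    (hu : u ∈ X) (hw : w ∉ X) (hu' : u' ∈ X) (hw' : w' ∉ X)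
    (he0 : (s e0 = u ∧ t e0 = w) ∨ (s e0 = w ∧ t e0 = u))
    (hf0 : (s f0 = u' ∧ t f0 = w') ∨ (s f0 = w' ∧ t f0 = u'))
    (hoth : ∀ e, e ≠ e0 → e ≠ f0 → (s e ∈ X ↔ t e ∈ X)) (hpar : e0 ∈ C ↔ f0 ∈ C) :
    Ctx (mg X u ∘ s) (mg X u ∘ t) {e | e ∈ C ∧ ((s e ∈ X ∧ t e ∈ X) ∨ e = f0)} (U ∩ X) := by
  have ne0 : ¬ (s e0 ∈ X ∧ t e0 ∈ X) := by
    rcases he0 with ⟨h2, h3⟩ | ⟨h2, h3⟩ <;> rw [h2, h3]
    · exact fun h => hw h.2
    · exact fun h => hw h.1
  have nf0 : ¬ (s f0 ∈ X ∧ t f0 ∈ X) := by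
    rcases hf0 with ⟨h2, h3⟩ | ⟨h2, h3⟩ <;> rw [h2, h3]
    · exact fun h => hw' h.2
    · exact fun h => hw' h.1
  have me0 : e0 ∉ {e | e ∈ C ∧ ((s e ∈ X ∧ t e ∈ X) ∨ e = f0)} := by
    rintro ⟨_, h | h⟩
    · exact ne0 h
    · exact hne h
  refine ⟨fun e => ?_, fun v hv => ?_, fun Q hQ hev => ?_⟩
  · have hm : ∀ z ∈ U, mg X u z ∈ U ∩ X := by
      intro z hz
      by_cases h : z ∈ X
      · rw [mg_in h]; exact ⟨hz, h⟩
      · rw [mg_out h]; exact ⟨huU, hu⟩
    exact ⟨hm _ (hC.ends e).1, hm _ (hC.ends e).2⟩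
  · rw [← bd2 s t X e0 f0 u w u' w' hne hu hw hu' hw' he0 hf0 hoth (ic C)
      (ic {e | e ∈ C ∧ ((s e ∈ X ∧ t e ∈ X) ∨ e = f0)})
      (fun e h1 h2 hs => ic_congr ⟨fun h => ⟨h, Or.inl ⟨hs, (hoth e h1 h2).1 hs⟩⟩, fun h => h.1⟩)
      (by
        by_cases h : f0 ∈ C
        · rw [ic_in (hpar.2 h), ic_in (show f0 ∈ {e | e ∈ C ∧ ((s e ∈ X ∧ t e ∈ X) ∨ e = f0)} from
            ⟨h, Or.inr rfl⟩)]
        · rw [ic_out (fun h' => h (hpar.1 h')), ic_out (fun h' => h h'.1)])
      (ic_congr ⟨fun h => ⟨h, Or.inr rfl⟩, fun h => h.1⟩) v hv.2]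
    exact hC.ev v hv.1
  · have hQe0 : e0 ∉ Q := fun h => me0 (hQ h)
    by_cases hQf : f0 ∈ Q
    · -- the part outside is added
      obtain ⟨Q', hQ'⟩ : ∃ Q' : Set E, Q' = {e | e ∈ Q ∨ e = e0 ∨ (e ∈ C ∧ s e ∉ X ∧ t e ∉ X)} :=
        ⟨_, rfl⟩
      have hfC : f0 ∈ C := (hQ hQf).1
      have heC : e0 ∈ C := hpar.2 hfC
      have m1 : ∀ e, e ≠ e0 → e ≠ f0 → s e ∈ X → (e ∈ Q' ↔ e ∈ Q) := by
        intro e h1 h2 hs
        rw [hQ']
        refine ⟨fun h => ?_, fun h => Or.inl h⟩
        rcases h with h | h | h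
        · exact h
        · exact absurd h h1
        · exact absurd hs h.2.1
      have me : e0 ∈ Q' := by rw [hQ']; exact Or.inr (Or.inl rfl)
      have mf : f0 ∈ Q' := by rw [hQ']; exact Or.inl hQf
      have hsub : Q' ⊆ C := by
        rw [hQ']
        rintro e (h | h | h)
        · exact (hQ h).1
        · rw [h]; exact heC
        · exact h.1
      have h1 : Ev s t Q' U := by
        intro v hv
        by_cases hvX : v ∈ X
        · rw [bd2 s t X e0 f0 u w u' w' hne hu hw hu' hw' he0 hf0 hoth (ic Q') (ic Q)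
            (fun e h1 h2 hs => ic_congr (m1 e h1 h2 hs)) (by rw [ic_in me, ic_in hQf])
            (by rw [ic_in mf, ic_in hQf]) v hvX]
          exact hev v ⟨hv, hvX⟩
        · rw [← hC.ev v hv]
          refine ev_congr s t _ _ v fun e he => ⟨fun h => hsub h, fun h => ?_⟩
          by_cases h1 : e = e0
          · rw [h1]; exact me
          · by_cases h2 : e = f0
            · rw [h2]; exact mf
            · have h3 := hoth e h1 h2
              have h4 : s e ∉ X := by
                rcases he with he | he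
                · rw [he]; exact hvX
                · intro hs
                  have := h3.1 hs
                  rw [he] at this
                  exact hvX this
              rw [hQ']
              exact Or.inr (Or.inr ⟨h, h4, fun ht => h4 (h3.2 ht)⟩)
      rcases hC.min Q' hsub h1 with h2 | h2
      · rw [h2] at me
        exact absurd me (Set.notMem_empty _)
      · right
        refine Set.Subset.antisymm hQ fun e he => ?_
        obtain ⟨heC', he'⟩ := he
        have h3 : e ∈ Q' := by rw [h2]; exact heC'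
        rw [hQ'] at h3
        rcases h3 with h3 | h3 | h3
        · exact h3
        · exfalso
          rcases he' with h4 | h4
          · rw [h3] at h4; exact ne0 h4
          · exact hne (h3.symm.trans h4)
        · rcases he' with h4 | h4
          · exact absurd h4.1 h3.2.1
          · rw [h4]; exact hQf
    · have hin : ∀ e ∈ Q, s e ∈ X ∧ t e ∈ X := by
        intro e he
        rcases (hQ he).2 with h | h
        · exact h
        · rw [h] at he; exact absurd he hQf
      have h1 : Ev s t Q U := by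
        intro v hv
        by_cases hvX : v ∈ X
        · rw [bd2 s t X e0 f0 u w u' w' hne hu hw hu' hw' he0 hf0 hoth (ic Q) (ic Q)
            (fun _ _ _ _ => rfl) (by rw [ic_out hQe0, ic_out hQf]) rfl v hvX]
          exact hev v ⟨hv, hvX⟩
        · refine bd_zero_of s t _ v fun e he => ic_out fun h => ?_
          have h2 := hin e h
          rcases he with he | he
          · exact hvX (he ▸ h2.1)
          · exact hvX (he ▸ h2.2)
      rcases hC.min Q (fun e he => (hQ he).1) h1 with h2 | h2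
      · exact Or.inl h2
      · right
        refine Set.Subset.antisymm hQ fun e he => ?_
        rw [h2]
        exact he.1

theorem main_ind :
    ∀ (m : ℕ) (s t : E → V) (C : Set E) (T : Tr V), T.size ≤ m → T.Nodup → T.Width s t 5 →
    Ctx s t C T.set → (∀ v, (cut s t {v}).card ≤ 3) → (∀ Z : Set V, (cut s t Z).card ≠ 1) →
    ∃ f : E → ℕ, Good s t C f T.set := by
  classical
  intro m
  induction m with
  | zero =>
    intro s t C T hT
    have := size_pos T
    omega
  | succ m ih =>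
    intro s t C T hT hN hW hC hdeg hbr
    have hE := hC.ends
    by_cases hsp : ∀ Z : Set V, (∃ v ∈ T.set, v ∈ Z) → (∃ v ∈ T.set, v ∉ Z) →
        3 ≤ (cut s t Z).card
    · exact three V E s t C T hC hdeg hN hW hsp
    push Not at hsp
    obtain ⟨X, hX1, hX2, hX3⟩ := hsp
    have half : ∀ (Y : Set V) (u : V) (C' : Set E), u ∈ Y → u ∈ T.set → (∃ v ∈ T.set, v ∉ Y) →
        (∀ B : Set V, (cut (mg Y u ∘ s) (mg Y u ∘ t) (B ∩ Y)).card ≤ (cut s t B).card) →
        Ctx (mg Y u ∘ s) (mg Y u ∘ t) C' (T.set ∩ Y) →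
        ∃ f1 : E → ℕ, Good (mg Y u ∘ s) (mg Y u ∘ t) C' f1 (T.set ∩ Y) := by
      intro Y u C' hu huT hex hWY hctx
      obtain ⟨T1, a1, a2, a3, -, a5⟩ := prune s t _ _ Y hWY 5 T hN hW ⟨u, huT, hu⟩
      have hlt := a5 hex
      obtain ⟨f1, hf1⟩ := ih (mg Y u ∘ s) (mg Y u ∘ t) C' T1 (by omega) a2 a3
        (by rw [a1]; exact hctx) (fun v => by
        by_cases hv : v ∈ Y
        · have h1 := hWY {v}
          rw [Set.inter_eq_left.2 (Set.singleton_subset_iff.2 hv)] at h1
          exact h1.trans (hdeg v)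
        · have h1 : cut (mg Y u ∘ s) (mg Y u ∘ t) {v} = ∅ := by
            rw [Finset.eq_empty_iff_forall_notMem]
            intro e he
            rw [mem_cut] at he
            have hm : ∀ z, mg Y u z ∉ ({v} : Set V) := by
              intro z hz
              rw [Set.mem_singleton_iff] at hz
              by_cases h : z ∈ Y
              · rw [mg_in h] at hz; exact hv (hz ▸ h)
              · rw [mg_out h] at hz; exact hv (hz ▸ hu)
            exact he ⟨fun h => absurd h (hm _), fun h => absurd h (hm _)⟩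
          rw [h1]
          simp) (fun Z => by
        rw [cut_mg]
        exact hbr _)
      rw [a1] at hf1
      exact ⟨f1, hf1⟩
    have h012 : (cut s t X).card = 0 ∨ (cut s t X).card = 2 := by
      have := hbr X
      omega
    rcases h012 with h0 | h2
    · rw [Finset.card_eq_zero] at h0
      have h0' : ∀ e, s e ∈ X ↔ t e ∈ X := by
        intro e
        by_contra h
        have := (mem_cut s t X e).2 h
        rw [h0] at this
        exact Finset.notMem_empty e this
      have h0'' : ∀ e, s e ∈ Xᶜ ↔ t e ∈ Xᶜ := fun e => not_congr (h0' e)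
      obtain ⟨a, haT, haX⟩ := hX1
      obtain ⟨b, hbT, hbX⟩ := hX2
      obtain ⟨f1, hf1⟩ := half X a _ haX haT ⟨b, hbT, hbX⟩ (W0 s t X a h0')
        (ctx0 s t C T.set hC X a haX haT h0')
      obtain ⟨f2, hf2⟩ := half Xᶜ b _ hbX hbT ⟨a, haT, fun h => h haX⟩ (W0 s t Xᶜ b h0'')
        (ctx0 s t C T.set hC Xᶜ b hbX hbT h0'')
      obtain ⟨F, hF⟩ : ∃ F : E → ℕ, F = fun e => if s e ∈ X then f1 e else f2 e := ⟨_, rfl⟩
      have F3 : ∀ e, s e ∈ X → F e = f1 e := by
        intro e hs
        rw [hF]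
        simp only [if_pos hs]
      have F4 : ∀ e, s e ∉ X → F e = f2 e := by
        intro e hs
        rw [hF]
        simp only [if_neg hs]
      refine ⟨F, fun e => ?_, fun e he => ?_, fun v hv i hi => ?_⟩
      · by_cases h : s e ∈ X
        · rw [F3 e h]; exact hf1.1 e
        · rw [F4 e h]; exact hf2.1 e
      · by_cases h : s e ∈ X
        · rw [F3 e h]; exact hf1.2.1 e ⟨he, h⟩
        · rw [F4 e h]; exact hf2.2.1 e ⟨he, h⟩
      · by_cases hvX : v ∈ X
        · rw [bd0 s t X a h0' _ (fun e => co (f1 e) i) (fun e he => by rw [F3 e he]) v hvX]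
          exact hf1.2.2 v ⟨hv, hvX⟩ i hi
        · rw [bd0 s t Xᶜ b h0'' _ (fun e => co (f2 e) i) (fun e he => by rw [F4 e he]) v hvX]
          exact hf2.2.2 v ⟨hv, hvX⟩ i hi
    · obtain ⟨e0, f0, hne, hcut⟩ := Finset.card_eq_two.1 h2
      have ends : ∀ e ∈ cut s t X, ∃ u w, u ∈ X ∧ w ∉ X ∧
          ((s e = u ∧ t e = w) ∨ (s e = w ∧ t e = u)) := by
        intro e he
        rw [mem_cut] at he
        by_cases hs : s e ∈ X
        · exact ⟨s e, t e, hs, fun h => he ⟨fun _ => h, fun _ => hs⟩, Or.inl ⟨rfl, rfl⟩⟩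
        · have ht : t e ∈ X := by
            by_contra h
            exact he ⟨fun h' => absurd h' hs, fun h' => absurd h' h⟩
          exact ⟨t e, s e, ht, hs, Or.inr ⟨rfl, rfl⟩⟩
      obtain ⟨u, w, hu, hw, he0⟩ := ends e0 (by rw [hcut]; simp)
      obtain ⟨u', w', hu', hw', hf0⟩ := ends f0 (by rw [hcut]; simp)
      have hoth : ∀ e, e ≠ e0 → e ≠ f0 → (s e ∈ X ↔ t e ∈ X) := by
        intro e h1 h2'
        by_contra h
        have := (mem_cut s t X e).2 h
        rw [hcut, Finset.mem_insert, Finset.mem_singleton] at this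
        exact this.elim h1 h2'
      have hoth' : ∀ e, e ≠ e0 → e ≠ f0 → (s e ∈ Xᶜ ↔ t e ∈ Xᶜ) :=
        fun e h1 h2' => not_congr (hoth e h1 h2')
      have huT : u ∈ T.set := by
        rcases he0 with ⟨h4, _⟩ | ⟨_, h4⟩ <;> rw [← h4]
        · exact (hE e0).1
        · exact (hE e0).2
      have hwT : w ∈ T.set := by
        rcases he0 with ⟨_, h4⟩ | ⟨h4, _⟩ <;> rw [← h4]
        · exact (hE e0).2
        · exact (hE e0).1
      have hpar : e0 ∈ C ↔ f0 ∈ C := by
        have h1 := cut_parity s t (ic C) X (fun v _ => ev_all s t T.set hE C hC.ev v)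
        rw [hcut, Finset.sum_pair hne] at h1
        by_cases h3 : e0 ∈ C <;> by_cases h4 : f0 ∈ C
        · exact ⟨fun _ => h4, fun _ => h3⟩
        · rw [ic_in h3, ic_out h4] at h1
          exact absurd h1 (by decide)
        · rw [ic_out h3, ic_in h4] at h1
          exact absurd h1 (by decide)
        · exact ⟨fun h => absurd h h3, fun h => absurd h h4⟩
      have c1 := ctx2 s t C T.set hC X e0 f0 u w u' w' hne huT hu hw hu' hw' he0 hf0 hoth hpar
      have c2 := ctx2 s t C T.set hC Xᶜ e0 f0 w u w' u' hne hwT hw (fun h => h hu) hw'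
        (fun h => h hu') he0.symm hf0.symm hoth' hpar
      obtain ⟨f1, hf1⟩ := half X u _ hu huT hX2
        (W2 s t X e0 f0 u w u' w' hu hw hu' hw' he0 hf0 hoth hbr) c1
      obtain ⟨f2, hf2⟩ := half Xᶜ w _ hw hwT ⟨u, huT, fun h => h hu⟩
        (W2 s t Xᶜ e0 f0 w u w' u' hw (fun h => h hu) hw' (fun h => h hu') he0.symm hf0.symm
          hoth' hbr) c2
      -- make the two colourings agree at `f0`
      obtain ⟨g1, g2, hg1, hg2, hg⟩ : ∃ g1 g2 : E → ℕ,
          Good (mg X u ∘ s) (mg X u ∘ t) {e | e ∈ C ∧ ((s e ∈ X ∧ t e ∈ X) ∨ e = f0)} g1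
            (T.set ∩ X) ∧
          Good (mg Xᶜ w ∘ s) (mg Xᶜ w ∘ t) {e | e ∈ C ∧ ((s e ∈ Xᶜ ∧ t e ∈ Xᶜ) ∨ e = f0)} g2
            (T.set ∩ Xᶜ) ∧ g2 f0 = g1 f0 := by
        by_cases hfC : f0 ∈ C
        · obtain ⟨p, hp, hpc⟩ := trans0 (f2 f0) (f1 f0) (hf2.1 f0) (hf1.1 f0)
            (hf2.2.1 f0 ⟨hfC, Or.inr rfl⟩) (hf1.2.1 f0 ⟨hfC, Or.inr rfl⟩)
          exact ⟨f1, fun e => pt p (f2 e), hf1, act_good _ _ _ _ f2 p hp hf2, hpc⟩
        · have heC : e0 ∉ C := fun h => hfC (hpar.1 h)
          -- the circuit is on one side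
          have hside : {e | e ∈ C ∧ ((s e ∈ X ∧ t e ∈ X) ∨ e = f0)} = ∅ ∨
              {e | e ∈ C ∧ ((s e ∈ Xᶜ ∧ t e ∈ Xᶜ) ∨ e = f0)} = ∅ := by
            have hev : Ev s t {e | e ∈ C ∧ ((s e ∈ X ∧ t e ∈ X) ∨ e = f0)} T.set := by
              intro v hv
              by_cases hvX : v ∈ X
              · rw [← hC.ev v hv]
                refine ev_congr s t _ _ v fun e he => ⟨fun h => h.1, fun h => ⟨h, Or.inl ?_⟩⟩
                have h1 : e ≠ e0 := fun h' => heC (h' ▸ h)
                have h2' : e ≠ f0 := fun h' => hfC (h' ▸ h)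
                have h3 := hoth e h1 h2'
                rcases he with he | he
                · have hs : s e ∈ X := by rw [he]; exact hvX
                  exact ⟨hs, h3.1 hs⟩
                · have ht : t e ∈ X := by rw [he]; exact hvX
                  exact ⟨h3.2 ht, ht⟩
              · refine bd_zero_of s t _ v fun e he => ic_out fun h => ?_
                rcases h.2 with h3 | h3
                · rcases he with he | he
                  · exact hvX (he ▸ h3.1)
                  · exact hvX (he ▸ h3.2)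
                · exact hfC (h3 ▸ h.1)
            rcases hC.min _ (fun e he => he.1) hev with h | h
            · exact Or.inl h
            · right
              rw [Set.eq_empty_iff_forall_notMem]
              rintro e ⟨h1, h3⟩
              have h4 : e ∈ {e | e ∈ C ∧ ((s e ∈ X ∧ t e ∈ X) ∨ e = f0)} := by
                rw [h]; exact h1
              rcases h3 with h3 | h3
              · rcases h4.2 with h5 | h5
                · exact h3.1 h5.1
                · exact hfC (h5 ▸ h1)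
              · exact hfC (h3 ▸ h1)
          rcases hside with hs | hs
          · obtain ⟨p, hp, hpc⟩ := trans (f1 f0) (f2 f0) (hf1.1 f0) (hf2.1 f0)
            exact ⟨fun e => pt p (f1 e), f2, act_good' _ _ _ _ f1 p hp (Or.inr hs) hf1, hf2,
              hpc.symm⟩
          · obtain ⟨p, hp, hpc⟩ := trans (f2 f0) (f1 f0) (hf2.1 f0) (hf1.1 f0)
            exact ⟨f1, fun e => pt p (f2 e), hf1, act_good' _ _ _ _ f2 p hp (Or.inr hs) hf2,
              hpc⟩
      obtain ⟨F, hF⟩ : ∃ F : E → ℕ, F = fun e => if e = e0 then g1 f0 else if e = f0 then g1 f0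
        else if s e ∈ X then g1 e else g2 e := ⟨_, rfl⟩
      have F1 : F e0 = g1 f0 := by rw [hF]; simp
      have F2 : F f0 = g1 f0 := by rw [hF]; simp
      have F3 : ∀ e, e ≠ e0 → e ≠ f0 → s e ∈ X → F e = g1 e := by
        intro e h1 h2' hs
        rw [hF]
        simp only [if_neg h1, if_neg h2', if_pos hs]
      have F4 : ∀ e, e ≠ e0 → e ≠ f0 → s e ∉ X → F e = g2 e := by
        intro e h1 h2' hs
        rw [hF]
        simp only [if_neg h1, if_neg h2', if_neg hs]
      refine ⟨F, fun e => ?_, fun e he => ?_, fun v hv i hi => ?_⟩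
      · by_cases h1 : e = e0
        · rw [h1, F1]; exact hg1.1 f0
        · by_cases h3 : e = f0
          · rw [h3, F2]; exact hg1.1 f0
          · by_cases h4 : s e ∈ X
            · rw [F3 e h1 h3 h4]; exact hg1.1 e
            · rw [F4 e h1 h3 h4]; exact hg2.1 e
      · by_cases h1 : e = e0
        · rw [h1, F1]; exact hg1.2.1 f0 ⟨hpar.1 (h1 ▸ he), Or.inr rfl⟩
        · by_cases h3 : e = f0
          · rw [h3, F2]; exact hg1.2.1 f0 ⟨h3 ▸ he, Or.inr rfl⟩
          · by_cases h4 : s e ∈ X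
            · rw [F3 e h1 h3 h4]
              exact hg1.2.1 e ⟨he, Or.inl ⟨h4, (hoth e h1 h3).1 h4⟩⟩
            · rw [F4 e h1 h3 h4]
              exact hg2.2.1 e ⟨he, Or.inl ⟨h4, (hoth' e h1 h3).1 h4⟩⟩
      · by_cases hvX : v ∈ X
        · rw [bd2 s t X e0 f0 u w u' w' hne hu hw hu' hw' he0 hf0 hoth _
            (fun e => co (g1 e) i) (fun e h1 h2' hs => by rw [F3 e h1 h2' hs]) (by rw [F1])
            (by rw [F2]) v hvX]
          exact hg1.2.2 v ⟨hv, hvX⟩ i hi
        · rw [bd2 s t Xᶜ e0 f0 w u w' u' hne hw (fun h => h hu) hw' (fun h => h hu') he0.symm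
            hf0.symm hoth' _ (fun e => co (g2 e) i) (fun e h1 h2' hs => by rw [F4 e h1 h2' hs])
            (by rw [F1, hg]) (by rw [F2, hg]) v hvX]
          exact hg2.2.2 v ⟨hv, hvX⟩ i hi

end

end Pool.Agent.TH849.SC
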