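import Pool.Agent.TH849.SC.Join
import Pool.Agent.TH849.SC.Leaf

/-!
Graphs without cuts of size less than three.
-/

set_option autoImplicit false

namespace Pool.Agent.TH849.SC

open Finset

lemma set_nonempty {V : Type} : ∀ U : Tr V, U.set.Nonempty
  | .leaf v => ⟨v, rfl⟩
  | .node l r => by
      obtain ⟨v, hv⟩ := set_nonempty l
      exact ⟨v, Or.inl hv⟩

lemma width_card {V E : Type} [Fintype E] (s t : E → V) (w : ℕ) (U : Tr V)
    (h : U.Width s t w) : (cut s t U.set).card ≤ w := by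
  cases U with
  | leaf v => exact h
  | node l r => exact h.1

lemma keyT {V E : Type} [Fintype E] (s t : E → V) (C : Set E) (A : Set V) (hC : Ctx s t C A)
    (hdeg : ∀ v, (cut s t {v}).card ≤ 3)
    (hcut : ∀ Z : Set V, (∃ v ∈ A, v ∈ Z) → (∃ v ∈ A, v ∉ Z) → 3 ≤ (cut s t Z).card) :
    ∀ U : Tr V, U.Nodup → U.Width s t 5 → U.set ⊆ A → (∃ v ∈ A, v ∉ U.set) →
      HasC s t C U.set (cut s t U.set).card ∧ 3 ≤ (cut s t U.set).card ∧
        (cut s t U.set).card ≤ 5 := by
  intro U
  induction U with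
  | leaf v =>
      intro _ hW hA hv
      have h3 : 3 ≤ (cut s t (Tr.leaf v).set).card := by
        obtain ⟨w, hw⟩ := set_nonempty (Tr.leaf v)
        exact hcut _ ⟨w, hA hw, hw⟩ hv
      have h5 := width_card s t 5 _ hW
      have h4 : (cut s t {v}).card = 3 := le_antisymm (hdeg v) h3
      refine ⟨?_, h3, h5⟩
      show HasC s t C {v} (cut s t {v}).card
      rw [h4]
      exact leaf V E s t C A hC v (hA rfl) h4
  | node l r ihl ihr =>
      intro hN hW hA hv
      have h3 : 3 ≤ (cut s t (Tr.node l r).set).card := by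
        obtain ⟨w, hw⟩ := set_nonempty (Tr.node l r)
        exact hcut _ ⟨w, hA hw, hw⟩ hv
      have h5 := width_card s t 5 _ hW
      obtain ⟨v, hvA, hvU⟩ := hv
      have hvl : v ∉ l.set := fun h => hvU (Or.inl h)
      have hvr : v ∉ r.set := fun h => hvU (Or.inr h)
      have hlA : l.set ⊆ A := fun x hx => hA (Or.inl hx)
      have hrA : r.set ⊆ A := fun x hx => hA (Or.inr hx)
      obtain ⟨l1, l2, l3⟩ := ihl hN.2.1 hW.2.1 hlA ⟨v, hvA, hvl⟩
      obtain ⟨r1, r2, r3⟩ := ihr hN.2.2 hW.2.2 hrA ⟨v, hvA, hvr⟩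
      exact ⟨join s t C A hC l.set r.set hlA hrA _ _ hN.1 l1 r1 l2 l3 r2 r3 (Or.inr ⟨h3, h5⟩),
        h3, h5⟩

theorem three (V E : Type) [Fintype E] (s t : E → V) (C : Set E) (T : Tr V)
    (hC : Ctx s t C T.set) (hdeg : ∀ v, (cut s t {v}).card ≤ 3) (hN : T.Nodup)
    (hW : T.Width s t 5)
    (hcut : ∀ Z : Set V, (∃ v ∈ T.set, v ∈ Z) → (∃ v ∈ T.set, v ∉ Z) → 3 ≤ (cut s t Z).card) :
    ∃ f : E → ℕ, Good s t C f T.set := by
  cases T with
  | leaf v =>
      refine ⟨fun _ => 3, fun _ => (by decide : vc 3 = true),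
        fun _ _ => (by decide : tb 3 0 = true), ?_⟩
      intro w hw i _
      unfold bd
      apply Finset.sum_eq_zero
      intro e _
      have hw' : w = v := hw
      have h1 : s e = w := by rw [hw']; exact (hC.ends e).1
      have h2 : t e = w := by rw [hw']; exact (hC.ends e).2
      rw [if_pos h1, if_pos h2]
      have : (1 : ZMod 2) + 1 = 0 := by decide
      rw [this, mul_zero]
  | node l r =>
      obtain ⟨w, hw⟩ := set_nonempty r
      obtain ⟨u, hu⟩ := set_nonempty l
      have hwl : w ∉ l.set := fun h => Set.disjoint_left.mp hN.1 h hw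
      have hur : u ∉ r.set := fun h => Set.disjoint_left.mp hN.1 hu h
      have hlA : l.set ⊆ (Tr.node l r).set := fun x hx => Or.inl hx
      have hrA : r.set ⊆ (Tr.node l r).set := fun x hx => Or.inr hx
      obtain ⟨l1, l2, l3⟩ := keyT s t C _ hC hdeg hcut l hN.2.1 hW.2.1 hlA
        ⟨w, Or.inr hw, hwl⟩
      obtain ⟨r1, r2, r3⟩ := keyT s t C _ hC hdeg hcut r hN.2.2 hW.2.2 hrA
        ⟨u, Or.inl hu, hur⟩
      have hcut0 : (cut s t (l.set ∪ r.set)).card = 0 := by
        rw [Finset.card_eq_zero, Finset.eq_empty_iff_forall_notMem]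
        intro e he
        rw [mem_cut] at he
        exact he ⟨fun _ => (hC.ends e).2, fun _ => (hC.ends e).1⟩
      have hj := join s t C _ hC l.set r.set hlA hrA _ _ hN.1 l1 r1 l2 l3 r2 r3 (Or.inl hcut0)
      rw [hcut0] at hj
      obtain ⟨o, _, x, hx, _, hst⟩ := hj
      have hm0 : x.2 = [0] := by
        have h1 : x ∈ ([(0, [0]), (1024, [0])] : List (ℕ × List ℕ)) := hx
        simp only [List.mem_cons, List.not_mem_nil, or_false] at h1
        rcases h1 with rfl | rfl <;> rfl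
      obtain ⟨f, hf, _⟩ := hst 0 (by rw [hm0]; simp)
      exact ⟨f, hf⟩

end Pool.Agent.TH849.SC
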